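import Pool.Agent.Helper36.CL.Defs

/-!
# CL-GCD: the gcd of the achievable removals of a cell (MP_c54260_co)

If all removals that one or two chords of a family `K` in a window of length `W` can achieve are
divisible by `g`, then `g * |K| ≤ 3 * W`.
-/

set_option autoImplicit false

namespace Pool.Agent.Helper36.CL

open Finset

/-- achievable removals from one or two chords -/
def remSet (K : Finset (ℕ × ℕ)) : Finset ℕ :=
  insert 0 (K.image (fun e => e.2 - e.1 - 1) ∪
    ((K ×ˢ K).filter (fun p => p.1.1 < p.2.1 ∧ p.2.1 < p.1.2 ∧ p.1.2 < p.2.2)).image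
      (fun p => (p.2.1 - p.1.1 - 1) + (p.2.2 - p.1.2 - 1)))

theorem remSet_le (K : Finset (ℕ × ℕ)) (u W : ℕ)
    (hK : ∀ e ∈ K, u ≤ e.1 ∧ e.1 + 2 ≤ e.2 ∧ e.2 < u + W) (x : ℕ) (hx : x ∈ remSet K) :
    x ≤ W := by
  unfold remSet at hx
  rw [mem_insert, mem_union, mem_image, mem_image] at hx
  rcases hx with h | ⟨e, he, h⟩ | ⟨p, hp, h⟩
  · omega
  · have := hK e he
    omega
  · rw [mem_filter, mem_product] at hp
    have h1 := hK _ hp.1.1
    have h2 := hK _ hp.1.2
    omega

/-- A noncrossing family of disjoint chords whose gaps are positive multiples of `g`. -/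
private theorem laminar_card (g : ℕ) : ∀ (k : ℕ) (P : Finset (ℕ × ℕ)), P.card = k →
    (∀ e ∈ P, e.1 + 2 ≤ e.2) →
    (∀ e ∈ P, ∀ f ∈ P, e ≠ f → e.1 ≠ f.1 ∧ e.1 ≠ f.2 ∧ e.2 ≠ f.1 ∧ e.2 ≠ f.2) →
    (∀ e ∈ P, ∀ f ∈ P, ¬ (e.1 < f.1 ∧ f.1 < e.2 ∧ e.2 < f.2)) →
    (∀ e ∈ P, g ∣ e.2 - e.1 - 1) →
    g ∣ (P.biUnion fun e => Finset.Ioo e.1 e.2).card ∧
    g * P.card ≤ (P.biUnion fun e => Finset.Ioo e.1 e.2).card := by
  intro k
  induction k using Nat.strong_induction_on with
  | _ k ih =>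
  intro P hPk h1 h2 h3 h4
  rcases P.eq_empty_or_nonempty with rfl | hne
  · simp
  obtain ⟨e, he, hmin⟩ := P.exists_min_image (fun e => e.1) hne
  set A := (P.erase e).filter (fun f => f.1 < e.2) with hA
  set B := (P.erase e).filter (fun f => ¬ f.1 < e.2) with hB
  have hAP : ∀ f ∈ A, f ∈ P := fun f hf => mem_of_mem_erase (mem_filter.1 hf).1
  have hBP : ∀ f ∈ B, f ∈ P := fun f hf => mem_of_mem_erase (mem_filter.1 hf).1
  have hcard : A.card + B.card = (P.erase e).card :=
    Finset.card_filter_add_card_filter_not (fun f : ℕ × ℕ => f.1 < e.2)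
  have hcard' : (P.erase e).card + 1 = P.card := card_erase_add_one he
  have hAin : ∀ f ∈ A, e.1 < f.1 ∧ f.2 < e.2 := by
    intro f hf
    have hfP := hAP f hf
    have hne' : f ≠ e := ne_of_mem_erase (mem_filter.1 hf).1
    have h5 := h2 e he f hfP (Ne.symm hne')
    have h6 := hmin f hfP
    have h7 : f.1 < e.2 := (mem_filter.1 hf).2
    have h8 := h3 e he f hfP
    constructor <;> omega
  have hBin : ∀ f ∈ B, e.2 ≤ f.1 := by
    intro f hf
    have h7 : ¬ f.1 < e.2 := (mem_filter.1 hf).2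
    omega
  obtain ⟨hA1, hA2⟩ := ih A.card (by omega) A rfl (fun f hf => h1 f (hAP f hf))
    (fun f hf f' hf' => h2 f (hAP f hf) f' (hAP f' hf'))
    (fun f hf f' hf' => h3 f (hAP f hf) f' (hAP f' hf')) (fun f hf => h4 f (hAP f hf))
  obtain ⟨hB1, hB2⟩ := ih B.card (by omega) B rfl (fun f hf => h1 f (hBP f hf))
    (fun f hf f' hf' => h2 f (hBP f hf) f' (hBP f' hf'))
    (fun f hf f' hf' => h3 f (hBP f hf) f' (hBP f' hf')) (fun f hf => h4 f (hBP f hf))
  set UA := A.biUnion fun e => Finset.Ioo e.1 e.2 with hUA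
  set UB := B.biUnion fun e => Finset.Ioo e.1 e.2 with hUB
  have hUP : (P.biUnion fun e => Finset.Ioo e.1 e.2) = Finset.Ioo e.1 e.2 ∪ UB := by
    ext x
    simp only [mem_biUnion, mem_union, hUB]
    constructor
    · rintro ⟨f, hf, hx⟩
      by_cases hfe : f = e
      · subst hfe; exact Or.inl hx
      · by_cases hlt : f.1 < e.2
        · left
          have hfA : f ∈ A := mem_filter.2 ⟨mem_erase.2 ⟨hfe, hf⟩, hlt⟩
          have := hAin f hfA
          rw [mem_Ioo] at hx ⊢
          omega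
        · right
          exact ⟨f, mem_filter.2 ⟨mem_erase.2 ⟨hfe, hf⟩, hlt⟩, hx⟩
    · rintro (hx | ⟨f, hf, hx⟩)
      · exact ⟨e, he, hx⟩
      · exact ⟨f, hBP f hf, hx⟩
  have hdisj : Disjoint (Finset.Ioo e.1 e.2) UB := by
    rw [Finset.disjoint_left]
    intro x hx hx'
    rw [hUB, mem_biUnion] at hx'
    obtain ⟨f, hf, hxf⟩ := hx'
    have := hBin f hf
    rw [mem_Ioo] at hx hxf
    omega
  have hUAlt : UA.card < (Finset.Ioo e.1 e.2).card := by
    apply Finset.card_lt_card
    rw [Finset.ssubset_iff_of_subset]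
    · refine ⟨e.1 + 1, ?_, ?_⟩
      · rw [mem_Ioo]
        have := h1 e he
        omega
      · rw [hUA, mem_biUnion]
        rintro ⟨f, hf, hxf⟩
        have := hAin f hf
        rw [mem_Ioo] at hxf
        omega
    · intro x hx
      rw [hUA, mem_biUnion] at hx
      obtain ⟨f, hf, hxf⟩ := hx
      have := hAin f hf
      rw [mem_Ioo] at hxf ⊢
      omega
  have hIe : (Finset.Ioo e.1 e.2).card = e.2 - e.1 - 1 := Nat.card_Ioo _ _
  have hge := h4 e he
  rw [← hIe] at hge
  have hstep : UA.card + g ≤ (Finset.Ioo e.1 e.2).card := by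
    obtain ⟨c, hc⟩ := hge
    obtain ⟨d, hd⟩ := hA1
    rw [hc, hd] at hUAlt ⊢
    have : d < c := by
      by_contra hcon
      push Not at hcon
      exact absurd (Nat.mul_le_mul_left g hcon) (by omega)
    calc g * d + g = g * (d + 1) := by ring
      _ ≤ g * c := Nat.mul_le_mul_left g this
  rw [hUP, Finset.card_union_of_disjoint hdisj]
  refine ⟨dvd_add hge hB1, ?_⟩
  have : P.card = A.card + B.card + 1 := by omega
  rw [this]
  calc g * (A.card + B.card + 1) = g * A.card + g * B.card + g := by ring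
    _ ≤ UA.card + UB.card + g := by omega
    _ ≤ _ := by omega

theorem gcd_bound (K : Finset (ℕ × ℕ)) (u W g : ℕ)
    (hK : ∀ e ∈ K, u ≤ e.1 ∧ e.1 + 2 ≤ e.2 ∧ e.2 < u + W)
    (hd : ∀ e ∈ K, ∀ f ∈ K, e ≠ f → e.1 ≠ f.1 ∧ e.1 ≠ f.2 ∧ e.2 ≠ f.1 ∧ e.2 ≠ f.2)
    (hg : ∀ x ∈ remSet K, g ∣ x) : g * K.card ≤ 3 * W := by
  rcases Nat.lt_or_ge g 3 with hg3 | hg3
  · -- small g
    have hKW : K.card ≤ W := by
      have : (K.image (fun e => e.1)).card = K.card := by
        apply Finset.card_image_of_injOn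
        intro e he f hf hef
        by_contra hne
        exact (hd e he f hf hne).1 hef
      rw [← this]
      have hsub : K.image (fun e => e.1) ⊆ Finset.Ico u (u + W) := by
        intro x hx
        obtain ⟨e, he, rfl⟩ := mem_image.1 hx
        have := hK e he
        rw [mem_Ico]
        omega
      calc _ ≤ (Finset.Ico u (u + W)).card := card_le_card hsub
        _ = W := by rw [Nat.card_Ico]; omega
    calc g * K.card ≤ 3 * K.card := Nat.mul_le_mul_right _ hg3.le
      _ ≤ 3 * W := Nat.mul_le_mul_left _ hKW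
  -- the single gaps
  have hsingle : ∀ e ∈ K, g ∣ e.2 - e.1 - 1 := by
    intro e he
    apply hg
    unfold remSet
    rw [mem_insert, mem_union]
    exact Or.inr (Or.inl (mem_image_of_mem _ he))
  -- modulus
  obtain ⟨g', hg'2, hg'⟩ : ∃ g' : ℕ, 2 ≤ g' ∧ ∀ x : ℕ, g ∣ 2 * x → g' ∣ x := by
    rcases Nat.even_or_odd' g with ⟨c, hc | hc⟩
    · refine ⟨c, by omega, ?_⟩
      intro x hx
      rw [hc] at hx
      exact Nat.dvd_of_mul_dvd_mul_left (by norm_num) hx
    · refine ⟨g, by omega, ?_⟩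
      intro x hx
      have hcop : Nat.Coprime g 2 := by
        rw [hc]
        rw [mul_comm 2 c]
        exact (Nat.coprime_mul_right_add_left 1 2 c).2 (by norm_num)
      exact hcop.dvd_of_dvd_mul_left hx
  have hcross : ∀ e ∈ K, ∀ f ∈ K, e.1 < f.1 → f.1 < e.2 → e.2 < f.2 → g' ∣ f.1 - e.1 - 1 := by
    intro e he f hf h1 h2 h3
    apply hg'
    have hsum : g ∣ (f.1 - e.1 - 1) + (f.2 - e.2 - 1) := by
      apply hg
      unfold remSet
      rw [mem_insert, mem_union]
      right; right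
      rw [mem_image]
      exact ⟨(e, f), mem_filter.2 ⟨mem_product.2 ⟨he, hf⟩, h1, h2, h3⟩, rfl⟩
    have hse := hsingle e he
    have hsf := hsingle f hf
    have hKe := hK e he
    have hKf := hK f hf
    -- (f.2 - f.1 - 1) + (f.1 - e.1 - 1) = (e.2 - e.1 - 1) + (f.2 - e.2 - 1)
    -- hence f.2 - e.2 - 1 + (e.2 - e.1 - 1) - ... ≡ 0
    have hid : (f.1 - e.1 - 1) + (f.2 - f.1 - 1) = (e.2 - e.1 - 1) + (f.2 - e.2 - 1) := by omega
    have h5 : g ∣ (f.1 - e.1 - 1) + ((f.1 - e.1 - 1) + (f.2 - f.1 - 1)) := by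
      rw [hid]
      have : (f.1 - e.1 - 1) + ((e.2 - e.1 - 1) + (f.2 - e.2 - 1)) =
        ((f.1 - e.1 - 1) + (f.2 - e.2 - 1)) + (e.2 - e.1 - 1) := by ring
      rw [this]
      exact dvd_add hsum hse
    have h6 : (f.1 - e.1 - 1) + ((f.1 - e.1 - 1) + (f.2 - f.1 - 1)) =
        2 * (f.1 - e.1 - 1) + (f.2 - f.1 - 1) := by ring
    rw [h6] at h5
    exact (Nat.dvd_add_left hsf).1 h5
  -- colouring
  set col : ℕ × ℕ → ℕ := fun e => if e.1 % g' = g' - 1 then 2 else (e.1 % g') % 2 with hcol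
  have hcol3 : ∀ e ∈ K, col e ∈ Finset.range 3 := by
    intro e _
    rw [mem_range]
    simp only [hcol]
    split_ifs <;> omega
  have hclass : ∀ c ∈ Finset.range 3, g * (K.filter (fun e => col e = c)).card ≤ W := by
    intro c _
    set P := K.filter (fun e => col e = c) with hP
    have hPK : ∀ e ∈ P, e ∈ K := fun e he => (mem_filter.1 he).1
    have hlam := laminar_card g P.card P rfl (fun e he => (hK e (hPK e he)).2.1)
      (fun e he f hf => hd e (hPK e he) f (hPK f hf)) (by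
        rintro e he f hf ⟨h1, h2, h3⟩
        have h4 := hcross e (hPK e he) f (hPK f hf) h1 h2 h3
        have hce : col e = c := (mem_filter.1 he).2
        have hcf : col f = c := (mem_filter.1 hf).2
        obtain ⟨d, hd'⟩ := h4
        have hf1 : f.1 = e.1 + 1 + g' * d := by omega
        have hmod : f.1 % g' = (e.1 + 1) % g' := by
          rw [hf1, Nat.add_mul_mod_self_left]
        have hlt : e.1 % g' < g' := Nat.mod_lt _ (by omega)
        have hmod2 : (e.1 + 1) % g' = if e.1 % g' = g' - 1 then 0 else e.1 % g' + 1 := by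
          rw [Nat.add_mod]
          have h1m : 1 % g' = 1 := Nat.mod_eq_of_lt (by omega)
          rw [h1m]
          split_ifs with h
          · rw [h]
            have : g' - 1 + 1 = g' := by omega
            rw [this, Nat.mod_self]
          · exact Nat.mod_eq_of_lt (by omega)
        rw [hmod2] at hmod
        rw [← hcf] at hce
        simp only [hcol] at hce
        rw [hmod] at hce
        split_ifs at hce <;> omega) (fun e he => hsingle e (hPK e he))
    refine hlam.2.trans ?_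
    have hsub : (P.biUnion fun e => Finset.Ioo e.1 e.2) ⊆ Finset.Ico u (u + W) := by
      intro x hx
      obtain ⟨e, he, hx⟩ := mem_biUnion.1 hx
      have := hK e (hPK e he)
      rw [mem_Ioo] at hx
      rw [mem_Ico]
      omega
    calc _ ≤ (Finset.Ico u (u + W)).card := card_le_card hsub
      _ = W := by rw [Nat.card_Ico]; omega
  rw [Finset.card_eq_sum_card_fiberwise hcol3, Finset.mul_sum]
  calc ∑ c ∈ Finset.range 3, g * (K.filter (fun e => col e = c)).card
      ≤ ∑ _c ∈ Finset.range 3, W := Finset.sum_le_sum hclass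
    _ = 3 * W := by simp

end Pool.Agent.Helper36.CL
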