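import Pool.Agent.Helper36.CL.Defs

/-!
# CL-LAM: lists as cycles, and shortcutting along a laminar family of chords (MP_c54260_co)
-/

set_option autoImplicit false

namespace Pool.Agent.Helper36.CL

open Finset

theorem hasF_of_list {G : SimpleGraph ℕ} (l : List ℕ) (h3 : 3 ≤ l.length) (hnd : l.Nodup)
    (hc : l.IsChain G.Adj) (hw : ∀ x ∈ l.getLast?, ∀ y ∈ l.head?, G.Adj x y) :
    HasF G l.length := by
  refine ⟨h3, fun i => l.getD i 0, ?_, ?_, ?_⟩
  · intro i hi j hj h
    simp only [List.getD_eq_getElem _ _ hi, List.getD_eq_getElem _ _ hj] at h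
    exact (hnd.getElem_inj_iff).1 h
  · intro i hi
    show G.Adj (l.getD i 0) (l.getD (i + 1) 0)
    rw [List.getD_eq_getElem _ _ (by omega : i < l.length), List.getD_eq_getElem _ _ hi]
    exact List.isChain_iff_getElem.1 hc i hi
  · have h1 : l.length - 1 < l.length := by omega
    have h2 : 0 < l.length := by omega
    show G.Adj (l.getD (l.length - 1) 0) (l.getD 0 0)
    rw [List.getD_eq_getElem _ _ h1, List.getD_eq_getElem _ _ h2]
    apply hw
    · rw [List.getLast?_eq_getElem?, List.getElem?_eq_getElem h1]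
      rfl
    · rw [List.head?_eq_getElem?, List.getElem?_eq_getElem h2]
      rfl

/-- Consecutive kept vertices are adjacent. -/
private theorem kept_adj (P : Finset (ℕ × ℕ))
    (hd : ∀ e ∈ P, ∀ f ∈ P, e ≠ f → e.1 ≠ f.1 ∧ ¬ (e.1 < f.1 ∧ f.1 < e.2 ∧ e.2 < f.2))
    (u v : ℕ) (huv : u < v)
    (hu' : ∀ e ∈ P, ¬ (e.1 < u ∧ u < e.2)) (hv' : ∀ e ∈ P, ¬ (e.1 < v ∧ v < e.2))
    (hno : ∀ w, u < w → w < v → ∃ e ∈ P, e.1 < w ∧ w < e.2) :
    v = u + 1 ∨ (u, v) ∈ P := by
  by_cases h : v = u + 1
  · exact Or.inl h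
  right
  obtain ⟨e, he, h1, h2⟩ := hno (u + 1) (by omega) (by omega)
  have hu1 := hu' e he
  have hv1 := hv' e he
  have he1 : e.1 = u := by omega
  have he2 : e.2 ≤ v := by omega
  rcases Nat.lt_or_ge e.2 v with h3 | h3
  · exfalso
    obtain ⟨f, hf, h4, h5⟩ := hno e.2 (by omega) h3
    have hu2 := hu' f hf
    have hv2 := hv' f hf
    have hne : e ≠ f := by
      rintro rfl
      omega
    have h6 := hd e he f hf hne
    omega
  · have : e = (u, v) := Prod.ext he1 (le_antisymm he2 h3)
    rwa [← this]

/-- A laminar family of chords: shortcutting along all maximal ones. -/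
theorem lam {G : SimpleGraph ℕ} {n : ℕ} (hG : Ham G n) (P : Finset (ℕ × ℕ))
    (hP : ∀ e ∈ P, IsChord G n e.1 e.2)
    (hd : ∀ e ∈ P, ∀ f ∈ P, e ≠ f → e.1 ≠ f.1 ∧ ¬ (e.1 < f.1 ∧ f.1 < e.2 ∧ e.2 < f.2)) :
    HasF G (n - (P.biUnion fun e => Finset.Ioo e.1 e.2).card) := by
  classical
  obtain ⟨hn3, hstep, hwrap⟩ := hG
  set kept : ℕ → Prop := fun v => ∀ e ∈ P, ¬ (e.1 < v ∧ v < e.2) with hkept
  set l := (List.range n).filter (fun v => decide (kept v)) with hl
  have hmem : ∀ v, v ∈ l ↔ v < n ∧ kept v := by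
    intro v
    rw [hl, List.mem_filter, List.mem_range, decide_eq_true_iff]
  have hsort : l.Pairwise (· < ·) := List.pairwise_lt_range.filter _
  have hnd : l.Nodup := hsort.imp (fun h => ne_of_lt h)
  have hlf : l.toFinset = (Finset.range n) \ (P.biUnion fun e => Finset.Ioo e.1 e.2) := by
    ext v
    rw [List.mem_toFinset, hmem, mem_sdiff, mem_range, mem_biUnion]
    constructor
    · rintro ⟨h1, h2⟩
      refine ⟨h1, ?_⟩
      rintro ⟨e, he, h3⟩
      exact h2 e he (mem_Ioo.1 h3)
    · rintro ⟨h1, h2⟩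
      refine ⟨h1, fun e he h3 => h2 ⟨e, he, mem_Ioo.2 h3⟩⟩
  have hlen : l.length = n - (P.biUnion fun e => Finset.Ioo e.1 e.2).card := by
    rw [← List.toFinset_card_of_nodup hnd, hlf, Finset.card_sdiff_of_subset, Finset.card_range]
    intro v hv
    obtain ⟨e, he, h3⟩ := mem_biUnion.1 hv
    have := (hP e he).2.1
    rw [mem_Ioo] at h3
    rw [mem_range]
    omega
  have h0 : kept 0 := fun e _ h => by omega
  have hlast : kept (n - 1) := fun e he h => by
    have := (hP e he).2.1
    omega
  have hadj : ∀ u v, u < v → v < n → kept u → kept v →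
      (∀ w, u < w → w < v → ¬ kept w) → G.Adj u v := by
    intro u v huv hv hu' hv' hno
    rcases kept_adj P hd u v huv hu' hv' (fun w h1 h2 => by
      have := hno w h1 h2
      simp only [hkept] at this
      push Not at this
      obtain ⟨e, he, h3⟩ := this
      exact ⟨e, he, h3⟩) with h | h
    · subst h
      exact hstep u hv
    · exact (hP _ h).2.2.2
  have h3 : 3 ≤ l.length := by
    obtain ⟨w, hw1, hw2, hw3⟩ : ∃ w, 0 < w ∧ w < n - 1 ∧ kept w := by
      by_contra hcon
      push Not at hcon
      rcases kept_adj P hd 0 (n - 1) (by omega) h0 hlast (fun w h1 h2 => by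
        have := hcon w h1 h2
        simp only [hkept] at this
        push Not at this
        obtain ⟨e, he, h3⟩ := this
        exact ⟨e, he, h3⟩) with h | h
      · omega
      · exact (hP _ h).2.2.1 ⟨rfl, rfl⟩
    rw [← List.toFinset_card_of_nodup hnd]
    have hsub : ({0, w, n - 1} : Finset ℕ) ⊆ l.toFinset := by
      intro x hx
      rw [List.mem_toFinset, hmem]
      simp only [mem_insert, mem_singleton] at hx
      rcases hx with rfl | rfl | rfl
      · exact ⟨by omega, h0⟩
      · exact ⟨by omega, hw3⟩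
      · exact ⟨by omega, hlast⟩
    have hcard : ({0, w, n - 1} : Finset ℕ).card = 3 := by
      rw [Finset.card_eq_three]
      exact ⟨0, w, n - 1, by omega, by omega, by omega, rfl⟩
    rw [← hcard]
    exact card_le_card hsub
  have hchain : l.IsChain G.Adj := by
    rw [List.isChain_iff_getElem]
    intro i hi
    have hmono : ∀ a b (ha : a < l.length) (hb : b < l.length), a < b → l[a] < l[b] := by
      intro a b ha hb hab
      exact List.pairwise_iff_getElem.1 hsort a b ha hb hab
    have hu := (hmem l[i]).1 (List.getElem_mem (by omega))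
    have hv := (hmem l[i + 1]).1 (List.getElem_mem hi)
    refine hadj _ _ (hmono i (i + 1) (by omega) hi (by omega)) hv.1 hu.2 hv.2 ?_
    intro w hw1 hw2 hw3
    have hwl : w ∈ l := (hmem w).2 ⟨hw2.trans hv.1, hw3⟩
    obtain ⟨j, hj, rfl⟩ := List.getElem_of_mem hwl
    rcases lt_trichotomy i j with h | h | h
    · rcases Nat.lt_or_ge (i + 1) j with h' | h'
      · exact absurd (hmono (i + 1) j hi hj h') (by omega)
      · have : j = i + 1 := by omega
        subst this
        exact lt_irrefl _ hw2
    · subst h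
      exact lt_irrefl _ hw1
    · exact absurd (hmono j i hj (by omega) h) (by omega)
  rw [← hlen]
  apply hasF_of_list l h3 hnd hchain
  intro x hx y hy
  -- the last element is `n - 1`, the first one is `0`
  have hne : l ≠ [] := by
    intro h
    rw [h] at h3
    simp at h3
  have hx' : x = n - 1 := by
    have h5 : (n - 1) ∈ l := (hmem _).2 ⟨by omega, hlast⟩
    obtain ⟨j, hj, hje⟩ := List.getElem_of_mem h5
    rw [List.getLast?_eq_getElem?, List.getElem?_eq_getElem (by omega)] at hx
    have hxe : l[l.length - 1] = x := by simpa using hx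
    have hxn := ((hmem x).1 (hxe ▸ List.getElem_mem (by omega))).1
    rcases Nat.lt_or_ge j (l.length - 1) with h | h
    · have := List.pairwise_iff_getElem.1 hsort j (l.length - 1) hj (by omega) h
      omega
    · have : j = l.length - 1 := by omega
      subst this
      omega
  have hy' : y = 0 := by
    have h5 : 0 ∈ l := (hmem _).2 ⟨by omega, h0⟩
    obtain ⟨j, hj, hje⟩ := List.getElem_of_mem h5
    rw [List.head?_eq_getElem?, List.getElem?_eq_getElem (by omega)] at hy
    have hye : l[0] = y := by simpa using hy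
    rcases Nat.eq_zero_or_pos j with h | h
    · subst h
      omega
    · have := List.pairwise_iff_getElem.1 hsort 0 j (by omega) hj h
      omega
  rw [hx', hy']
  exact hwrap

end Pool.Agent.Helper36.CL
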