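import Pool.Agent.Helper36.CL.Defs
import Pool.Agent.Helper36.CL.Gcd
import Pool.Agent.Helper36.CL.Lam

/-!
# CL-BLK: independent removals in disjoint blocks (MP_c54260_co)
-/

set_option autoImplicit false

namespace Pool.Agent.Helper36.CL

open Finset

/-- A path from `x` to `y` with `len` vertices, all in `[lo, hi]`. -/
private def Seg (G : SimpleGraph ℕ) (lo hi x y len : ℕ) : Prop :=
  ∃ l : List ℕ, l.length = len ∧ l.Nodup ∧ l.IsChain G.Adj ∧ l.head? = some x ∧
    l.getLast? = some y ∧ ∀ v ∈ l, lo ≤ v ∧ v ≤ hi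

private theorem Seg.append {G : SimpleGraph ℕ} {lo hi x y len lo' hi' x' y' len' : ℕ}
    (h : Seg G lo hi x y len) (h' : Seg G lo' hi' x' y' len') (h1 : lo ≤ hi) (h1' : lo' ≤ hi')
    (hlt : hi < lo') (hadj : G.Adj y x') : Seg G lo hi' x y' (len + len') := by
  obtain ⟨l, hl1, hl2, hl3, hl4, hl5, hl6⟩ := h
  obtain ⟨m, hm1, hm2, hm3, hm4, hm5, hm6⟩ := h'
  refine ⟨l ++ m, ?_, ?_, ?_, ?_, ?_, ?_⟩
  · rw [List.length_append, hl1, hm1]
  · rw [List.nodup_append]
    refine ⟨hl2, hm2, ?_⟩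
    intro a ha b hb hab
    have := hl6 a ha
    have := hm6 b hb
    omega
  · rw [List.isChain_append]
    refine ⟨hl3, hm3, ?_⟩
    intro a ha b hb
    rw [hl5] at ha
    rw [hm4] at hb
    simp only [Option.mem_def, Option.some.injEq] at ha hb
    rw [← ha, ← hb]
    exact hadj
  · rw [List.head?_append, hl4]
    rfl
  · rw [List.getLast?_append, hm5]
    rfl
  · intro v hv
    rcases List.mem_append.1 hv with h | h
    · have := hl6 v h
      omega
    · have := hm6 v h
      omega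

private theorem seg_up {G : SimpleGraph ℕ} {n : ℕ} (hs : ∀ i, i + 1 < n → G.Adj i (i + 1))
    (a : ℕ) : ∀ k, a + k < n → Seg G a (a + k) a (a + k) (k + 1) := by
  intro k
  induction k with
  | zero =>
    intro _
    exact ⟨[a], rfl, List.nodup_singleton a, List.isChain_singleton a, rfl, rfl,
      by simp⟩
  | succ k ih =>
    intro h
    have h1 := ih (by omega)
    have h2 : Seg G (a + k + 1) (a + k + 1) (a + k + 1) (a + k + 1) 1 :=
      ⟨[a + k + 1], rfl, List.nodup_singleton _, List.isChain_singleton _, rfl, rfl, by simp⟩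
    exact h1.append h2 (by omega) (by omega) (by omega) (hs (a + k) h)

private theorem Seg.rev {G : SimpleGraph ℕ} {lo hi x y len : ℕ} (h : Seg G lo hi x y len) :
    Seg G lo hi y x len := by
  obtain ⟨l, hl1, hl2, hl3, hl4, hl5, hl6⟩ := h
  refine ⟨l.reverse, by simpa using hl1, List.nodup_reverse.2 hl2, ?_, ?_, ?_, ?_⟩
  · rw [List.isChain_reverse]
    exact hl3.imp (fun a b hab => hab.symm)
  · rw [List.head?_reverse]; exact hl5
  · rw [List.getLast?_reverse]; exact hl4
  · intro v hv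
    exact hl6 v (List.mem_reverse.1 hv)

/-- the full interval -/
private theorem seg_iv {G : SimpleGraph ℕ} {n : ℕ} (hs : ∀ i, i + 1 < n → G.Adj i (i + 1))
    {a b : ℕ} (hab : a ≤ b) (hb : b < n) : Seg G a b a b (b - a + 1) := by
  have := seg_up hs a (b - a) (by omega)
  have h : a + (b - a) = b := by omega
  rwa [h] at this

private theorem Seg.congr {G : SimpleGraph ℕ} {lo hi x y len len' : ℕ}
    (h : Seg G lo hi x y len) (hl : len = len') : Seg G lo hi x y len' := hl ▸ h

/-- A block with an achievable removal. -/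
private theorem seg_block {G : SimpleGraph ℕ} {n : ℕ} (hs : ∀ i, i + 1 < n → G.Adj i (i + 1))
    {A B : ℕ} (hAB : A < B) (hB : B < n) (K : Finset (ℕ × ℕ))
    (hK : ∀ e ∈ K, A ≤ e.1 ∧ e.2 ≤ B ∧ IsChord G n e.1 e.2) {x : ℕ} (hx : x ∈ remSet K) :
    ∃ len, len + x = B - A + 1 ∧ Seg G A B A B len := by
  unfold remSet at hx
  rw [mem_insert, mem_union, mem_image, mem_image] at hx
  rcases hx with h | ⟨e, he, h⟩ | ⟨p, hp, h⟩
  · subst h
    exact ⟨B - A + 1, by omega, seg_iv hs hAB.le hB⟩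
  · have h1 := hK e he
    have h2 := h1.2.2
    have h3 := h2.1
    refine ⟨(e.1 - A + 1) + (B - e.2 + 1), by omega, ?_⟩
    exact (seg_iv hs h1.1 (by omega)).append (seg_iv hs h1.2.1 hB) h1.1 h1.2.1 (by omega) h2.2.2.2
  · rw [mem_filter, mem_product] at hp
    obtain ⟨⟨hp1, hp2⟩, h5, h6, h7⟩ := hp
    have h1 := hK _ hp1
    have h2 := hK _ hp2
    have h3 := h1.2.2.1
    have h4 := h2.2.2.1
    -- A .. a, b .. c (descending), d .. B
    refine ⟨((p.1.1 - A + 1) + (p.1.2 - p.2.1 + 1)) + (B - p.2.2 + 1), by omega, ?_⟩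
    have s1 : Seg G A p.1.1 A p.1.1 (p.1.1 - A + 1) := seg_iv hs h1.1 (by omega)
    have s2 : Seg G p.2.1 p.1.2 p.1.2 p.2.1 (p.1.2 - p.2.1 + 1) :=
      (seg_iv hs h6.le (by omega)).rev
    have s3 : Seg G p.2.2 B p.2.2 B (B - p.2.2 + 1) := seg_iv hs h2.2.1 hB
    have s12 := s1.append s2 h1.1 h6.le h5 h1.2.2.2.2.2
    exact s12.append s3 (by omega) h2.2.1 h7 h2.2.2.2.2.2

theorem blocks_hasF {G : SimpleGraph ℕ} {n : ℕ} (hG : Ham G n) (W N : ℕ) (hW : 2 ≤ W)
    (hN2 : 2 ≤ N) (hN : N * W ≤ n) (K : ℕ → Finset (ℕ × ℕ))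
    (hK : ∀ t < N, ∀ e ∈ K t, t * W ≤ e.1 ∧ e.2 < (t + 1) * W ∧ IsChord G n e.1 e.2)
    (T : Finset ℕ) (hT : ∀ t ∈ T, t < N) (c : ℕ → ℕ) (hc : ∀ t ∈ T, c t ∈ remSet (K t)) :
    ∑ t ∈ T, c t ≤ n ∧ HasF G (n - ∑ t ∈ T, c t) := by
  classical
  obtain ⟨hn3, hs, hwrap⟩ := hG
  -- normalise the choice
  set c' : ℕ → ℕ := fun t => if t ∈ T then c t else 0 with hc'
  have hc'mem : ∀ t < N, c' t ∈ remSet (K t) := by
    intro t _
    simp only [hc']
    split_ifs with h
    · exact hc t h
    · unfold remSet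
      exact mem_insert_self _ _
  have hsum : ∑ t ∈ T, c t = ∑ t ∈ Finset.range N, c' t := by
    have hsub : T ⊆ Finset.range N := fun t ht => mem_range.2 (hT t ht)
    simp only [hc']
    rw [← Finset.sum_filter, Finset.filter_mem_eq_inter, Finset.inter_eq_right.2 hsub]
  -- blocks
  have hblk : ∀ t < N, ∃ len, len + c' t = W ∧ 2 ≤ len ∧
      Seg G (t * W) ((t + 1) * W - 1) (t * W) ((t + 1) * W - 1) len := by
    intro t ht
    have h1 : (t + 1) * W = t * W + W := by ring
    have h2 : (t + 1) * W ≤ N * W := Nat.mul_le_mul_right W ht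
    obtain ⟨len, hlen, hseg⟩ := seg_block hs (A := t * W) (B := (t + 1) * W - 1) (by omega)
      (by omega) (K t) (fun e he => by
        have := hK t ht e he
        exact ⟨this.1, by omega, this.2.2⟩) (hc'mem t ht)
    refine ⟨len, by omega, ?_, hseg⟩
    obtain ⟨l, hl1, _, _, hl4, hl5, _⟩ := hseg
    rcases l with _ | ⟨a, _ | ⟨b, l⟩⟩
    · simp at hl4
    · simp only [List.head?_cons, Option.some.injEq, List.getLast?_singleton] at hl4 hl5
      omega
    · simp only [List.length_cons] at hl1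
      omega
  have hacc : ∀ M, 1 ≤ M → M ≤ N → ∃ len, len + ∑ t ∈ Finset.range M, c' t = M * W ∧
      2 * M ≤ len ∧ Seg G 0 (M * W - 1) 0 (M * W - 1) len := by
    intro M
    induction M with
    | zero => intro h; omega
    | succ M ih =>
      intro _ hM
      rcases Nat.eq_zero_or_pos M with rfl | hM0
      · obtain ⟨len, h1, h2, h3⟩ := hblk 0 (by omega)
        refine ⟨len, ?_, by omega, ?_⟩
        · rw [Finset.sum_range_one]
          simpa using h1
        · simpa using h3
      · obtain ⟨len, h1, h2, h3⟩ := ih hM0 (by omega)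
        obtain ⟨len', h1', h2', h3'⟩ := hblk M (by omega)
        have e1 : (M + 1) * W = M * W + W := by ring
        have e2 : W ≤ M * W := Nat.le_mul_of_pos_left W hM0
        have e3 : (M + 1) * W ≤ N * W := Nat.mul_le_mul_right W hM
        refine ⟨len + len', ?_, by omega, ?_⟩
        · rw [Finset.sum_range_succ]
          omega
        · refine h3.append h3' (by omega) (by omega) (by omega) ?_
          have := hs (M * W - 1) (by omega)
          have e4 : M * W - 1 + 1 = M * W := by omega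
          rwa [e4] at this
  obtain ⟨len, h1, h2, h3⟩ := hacc N (by omega) le_rfl
  have hNW : 2 * W ≤ N * W := Nat.mul_le_mul_right W hN2
  -- add the rest
  obtain ⟨len', h1', h2', h3'⟩ : ∃ len', len' + ∑ t ∈ Finset.range N, c' t = n ∧ len ≤ len' ∧
      Seg G 0 (n - 1) 0 (n - 1) len' := by
    rcases Nat.lt_or_ge (N * W) n with hlt | hge
    · refine ⟨len + (n - 1 - N * W + 1), by omega, by omega, ?_⟩
      refine h3.append (seg_iv hs (by omega) (by omega)) (by omega) (by omega) (by omega) ?_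
      have := hs (N * W - 1) (by omega)
      have e4 : N * W - 1 + 1 = N * W := by omega
      rwa [e4] at this
    · have : N * W = n := le_antisymm hN hge
      rw [this] at h1 h3
      exact ⟨len, h1, le_rfl, h3⟩
  rw [hsum]
  refine ⟨by omega, ?_⟩
  obtain ⟨l, hl1, hl2, hl3, hl4, hl5, _⟩ := h3'
  have hlen : l.length = n - ∑ t ∈ Finset.range N, c' t := by omega
  rw [← hlen]
  apply hasF_of_list l (by omega) hl2 hl3
  intro a ha b hb
  rw [hl5] at ha
  rw [hl4] at hb
  simp only [Option.mem_def, Option.some.injEq] at ha hb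
  rw [← ha, ← hb]
  exact hwrap

end Pool.Agent.Helper36.CL
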