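import Pool.Agent.Helper36.CL.Defs

/-!
# CL-CLU: many removals in a short window from a nonsingular family (MP_c54260_co)
-/

set_option autoImplicit false

namespace Pool.Agent.Helper36.CL

open Finset

private theorem card_fib {ι : Type*} [DecidableEq ι] (I D : Finset ι) (α : ι → ℕ) (hD : D ⊆ I) :
    D.card = ∑ v ∈ I.image α, (D.filter (fun i => α i = v)).card :=
  Finset.card_eq_sum_card_fiberwise (fun _ hi => mem_image_of_mem α (hD hi))

private theorem sum_fib {ι : Type*} [DecidableEq ι] (I D : Finset ι) (α : ι → ℕ) (hD : D ⊆ I) :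
    ∑ i ∈ D, α i = ∑ v ∈ I.image α, (D.filter (fun i => α i = v)).card * v := by
  rw [← Finset.sum_fiberwise_of_maps_to (g := α) (t := I.image α)
    (fun i hi => mem_image_of_mem α (hD hi))]
  apply Finset.sum_congr rfl
  intro v _
  rw [Finset.sum_congr rfl (g := fun _ => v) (fun i hi => (mem_filter.1 hi).2)]
  simp

/-- The compensated family: removing `D` from `I` while switching on as many elements of each
class. -/
private theorem value {ι : Type*} [DecidableEq ι] (I Es D : Finset ι) (α β : ι → ℕ)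
    (hα : ∀ i ∈ I, 2 ≤ α i) (hβ : ∀ i ∈ I, 2 ≤ β i) (hE : Es ⊆ I) (hD : D ⊆ I \ Es)
    (hcl : ∀ v, (D.filter (fun i => α i = v)).card ≤ (Es.filter (fun i => α i = v)).card) :
    ∃ ρ : ι → ℕ, (∀ i ∈ I \ D, ρ i = α i ∨ ρ i = β i ∨ ρ i = α i + β i) ∧
      (∑ i ∈ I \ Es, (α i - 2) + ∑ i ∈ Es, (β i - 2)) + 2 * D.card = ∑ i ∈ I \ D, (ρ i - 2) := by
  choose C hCs hCc using fun v => Finset.exists_subset_card_eq (hcl v)
  set Cs := Es.filter (fun i => i ∈ C (α i)) with hCs'
  have hCf : ∀ v, Cs.filter (fun i => α i = v) = C v := by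
    intro v
    ext i
    simp only [hCs', mem_filter]
    constructor
    · rintro ⟨⟨_, h⟩, rfl⟩; exact h
    · intro h
      have h1 := mem_filter.1 (hCs v h)
      exact ⟨⟨h1.1, by rw [h1.2]; exact h⟩, h1.2⟩
  have hCI : Cs ⊆ I := fun i hi => hE (mem_filter.1 hi).1
  have hDI : D ⊆ I := fun i hi => (mem_sdiff.1 (hD hi)).1
  have hsumC : ∑ i ∈ Cs, α i = ∑ i ∈ D, α i := by
    rw [sum_fib I Cs α hCI, sum_fib I D α hDI]
    apply Finset.sum_congr rfl
    intro v _
    rw [hCf, hCc]
  refine ⟨fun i => if i ∈ Es then (if i ∈ C (α i) then α i + β i else β i) else α i, ?_, ?_⟩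
  · intro i _
    by_cases h : i ∈ Es
    · by_cases h' : i ∈ C (α i)
      · simp [h, h']
      · simp [h, h']
    · simp [h]
  have hsplit : I \ D = ((I \ Es) \ D) ∪ Es := by
    ext i
    simp only [mem_sdiff, mem_union]
    constructor
    · rintro ⟨h1, h2⟩
      by_cases h : i ∈ Es
      · exact Or.inr h
      · exact Or.inl ⟨⟨h1, h⟩, h2⟩
    · rintro (⟨⟨h1, _⟩, h2⟩ | h)
      · exact ⟨h1, h2⟩
      · refine ⟨hE h, fun h' => ?_⟩
        exact (mem_sdiff.1 (hD h')).2 h
  have hdisj : Disjoint ((I \ Es) \ D) Es := by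
    rw [Finset.disjoint_left]
    intro i hi hi'
    exact (mem_sdiff.1 (mem_sdiff.1 hi).1).2 hi'
  rw [hsplit, Finset.sum_union hdisj]
  have h1 : ∑ i ∈ (I \ Es) \ D, ((if i ∈ Es then (if i ∈ C (α i) then α i + β i else β i)
      else α i) - 2) = ∑ i ∈ (I \ Es) \ D, (α i - 2) := by
    apply Finset.sum_congr rfl
    intro i hi
    rw [if_neg (mem_sdiff.1 (mem_sdiff.1 hi).1).2]
  have h2 : ∑ i ∈ Es, ((if i ∈ Es then (if i ∈ C (α i) then α i + β i else β i)
      else α i) - 2) = ∑ i ∈ Es, (β i - 2) + ∑ i ∈ Cs, α i := by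
    rw [hCs', Finset.sum_filter, ← Finset.sum_add_distrib]
    apply Finset.sum_congr rfl
    intro i hi
    have := hβ i (hE hi)
    rw [if_pos hi]
    split_ifs <;> omega
  have h3 : ∑ i ∈ I \ Es, (α i - 2) = ∑ i ∈ (I \ Es) \ D, (α i - 2) + ∑ i ∈ D, (α i - 2) := by
    rw [add_comm, ← Finset.sum_sdiff hD, add_comm]
  have h4 : ∑ i ∈ D, α i = ∑ i ∈ D, (α i - 2) + 2 * D.card := by
    have : ∑ i ∈ D, (α i - 2) + 2 * D.card = ∑ i ∈ D, ((α i - 2) + 2) := by
      rw [Finset.sum_add_distrib]
      simp [mul_comm]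
    rw [this]
    apply Finset.sum_congr rfl
    intro i hi
    have := hα i (hDI hi)
    omega
  rw [h1, h2, hsumC, h3, h4]
  ring

theorem clu {ι : Type*} [DecidableEq ι] (P : Finset ι → Prop) (I : Finset ι) (hI : P I)
    (hdrop : ∀ J ⊆ I, P J → ∀ X ⊆ J, J.card < 2 * X.card →
      ∃ S ⊆ X, 1 ≤ S.card ∧ S.card ≤ 2 ∧ P (J \ S))
    (α β : ι → ℕ) (w : ℕ) (hα : ∀ i ∈ I, 2 ≤ α i ∧ α i ≤ 2 * w)
    (hβ : ∀ i ∈ I, 2 ≤ β i ∧ β i ≤ 2 * w) :
    ∃ (x : ℕ) (S : Finset ℕ), (∀ s ∈ S, x ≤ s ∧ s ≤ x + 2 * w) ∧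
      min (I.card / 100) (w / 2) ≤ S.card ∧
      ∀ s ∈ S, ∃ J ⊆ I, P J ∧ ∃ ρ : ι → ℕ,
        (∀ i ∈ J, ρ i = α i ∨ ρ i = β i ∨ ρ i = α i + β i) ∧ s = ∑ i ∈ J, (ρ i - 2) := by
  classical
  set r := I.card with hr
  set d := (I.image α).card with hd
  rcases Nat.lt_or_ge (100 * d) r with hdr | hdr
  · -- few values of `α`
    have hEx : ∀ v, (I.filter (fun i => α i = v)).card / 4 ≤ (I.filter (fun i => α i = v)).card :=
      fun v => Nat.div_le_self _ _
    choose E hEs hEc using fun v => Finset.exists_subset_card_eq (hEx v)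
    set Es := I.filter (fun i => i ∈ E (α i)) with hEs'
    have hEf : ∀ v, Es.filter (fun i => α i = v) = E v := by
      intro v
      ext i
      simp only [hEs', mem_filter]
      constructor
      · rintro ⟨⟨_, h⟩, rfl⟩; exact h
      · intro h
        have h1 := mem_filter.1 (hEs v h)
        exact ⟨⟨h1.1, by rw [h1.2]; exact h⟩, h1.2⟩
    have hEI : Es ⊆ I := filter_subset _ _
    have hE4 : 4 * Es.card ≤ r := by
      rw [hr, card_fib I Es α hEI, card_fib I I α (Subset.refl I), Finset.mul_sum]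
      apply Finset.sum_le_sum
      intro v _
      rw [hEf, hEc]
      exact Nat.mul_div_le _ _
    set K := min (r / 100) (w / 2) with hK
    -- achievable sizes of dropped sets
    let A : ℕ → Prop := fun n => ∃ D ⊆ I \ Es, P (I \ D) ∧ D.card = n ∧
      ∀ v, (D.filter (fun i => α i = v)).card ≤ (Es.filter (fun i => α i = v)).card
    have hstep : ∀ k < K, ∀ n ≤ 2 * k, A n → ∃ n', n < n' ∧ n' ≤ n + 2 ∧ A n' := by
      intro k hk n hn hA
      obtain ⟨D, hD, hP, hDn, hcl⟩ := hA
      have hDI : D ⊆ I := fun i hi => (mem_sdiff.1 (hD hi)).1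
      set Xav := ((I \ Es) \ D).filter (fun x =>
        (D.filter (fun i => α i = α x)).card + 2 ≤ (E (α x)).card) with hXav
      set Un := ((I \ Es) \ D).filter (fun x =>
        ¬ ((D.filter (fun i => α i = α x)).card + 2 ≤ (E (α x)).card)) with hUn
      have hXU : Xav.card + Un.card = ((I \ Es) \ D).card :=
        Finset.card_filter_add_card_filter_not _
      have hUnI : Un ⊆ I := fun i hi =>
        (mem_sdiff.1 (mem_sdiff.1 (mem_filter.1 hi).1).1).1
      have hUncard : Un.card ≤ 4 * n + 7 * d := by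
        rw [card_fib I Un α hUnI, ← hDn, card_fib I D α hDI, Finset.mul_sum, hd]
        have : 7 * (I.image α).card = ∑ v ∈ I.image α, 7 := by simp [mul_comm]
        rw [this, ← Finset.sum_add_distrib]
        apply Finset.sum_le_sum
        intro v _
        rcases (Un.filter (fun i => α i = v)).eq_empty_or_nonempty with he | ⟨x, hx⟩
        · rw [he]; simp
        · obtain ⟨hx1, hx2⟩ := mem_filter.1 hx
          have hx3 := (mem_filter.1 hx1).2
          rw [hx2, hEc] at hx3
          have hle : (Un.filter (fun i => α i = v)).card ≤ (I.filter (fun i => α i = v)).card :=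
            card_le_card (filter_subset_filter _ hUnI)
          omega
      have hcard1 : ((I \ Es) \ D).card + D.card = (I \ Es).card :=
        Finset.card_sdiff_add_card_eq_card hD
      have hcard2 : (I \ Es).card + Es.card = r := Finset.card_sdiff_add_card_eq_card hEI
      have hcard3 : (I \ D).card + D.card = r := Finset.card_sdiff_add_card_eq_card hDI
      have hkr : 100 * (k + 1) ≤ r := by
        have h1 : k + 1 ≤ r / 100 := hk.trans_le (min_le_left _ _)
        omega
      have hXsub : Xav ⊆ I \ D := by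
        intro x hx
        have h1 := mem_sdiff.1 (mem_filter.1 hx).1
        exact mem_sdiff.2 ⟨(mem_sdiff.1 h1.1).1, h1.2⟩
      obtain ⟨S, hSX, hS1, hS2, hSP⟩ := hdrop (I \ D) sdiff_subset hP Xav hXsub (by omega)
      have hSD : Disjoint D S := by
        rw [Finset.disjoint_left]
        intro x hx hx'
        exact (mem_sdiff.1 (mem_filter.1 (hSX hx')).1).2 hx
      refine ⟨(D ∪ S).card, ?_, ?_, D ∪ S, ?_, ?_, rfl, ?_⟩
      · rw [Finset.card_union_of_disjoint hSD]; omega
      · rw [Finset.card_union_of_disjoint hSD]; omega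
      · intro x hx
        rcases mem_union.1 hx with h | h
        · exact hD h
        · exact (mem_sdiff.1 (mem_filter.1 (hSX h)).1).1
      · rw [sdiff_sdiff_left] at hSP
        exact hSP
      · intro v
        rw [filter_union]
        refine (card_union_le _ _).trans ?_
        rcases (S.filter (fun i => α i = v)).eq_empty_or_nonempty with he | ⟨x, hx⟩
        · rw [he]
          simpa using hcl v
        · obtain ⟨hx1, hx2⟩ := mem_filter.1 hx
          have hx3 := (mem_filter.1 (hSX hx1)).2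
          rw [hx2] at hx3
          rw [hEf]
          have : (S.filter (fun i => α i = v)).card ≤ S.card := card_filter_le _ _
          omega
    have hA0 : A 0 := ⟨∅, empty_subset _, by simpa using hI, rfl, by simp⟩
    have hbuild : ∀ k ≤ K, ∃ n, ∃ S : Finset ℕ, S.card = k ∧ (∀ s ∈ S, A s ∧ s < n) ∧ A n ∧
        n ≤ 2 * k := by
      intro k
      induction k with
      | zero => intro _; exact ⟨0, ∅, rfl, by simp, hA0, by omega⟩
      | succ k ih =>
        intro hk
        obtain ⟨n, S, hS, hSA, hA, hn⟩ := ih (by omega)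
        obtain ⟨n', h1, h2, h3⟩ := hstep k hk n hn hA
        refine ⟨n', insert n S, ?_, ?_, h3, by omega⟩
        · rw [Finset.card_insert_of_notMem, hS]
          intro h
          exact lt_irrefl _ (hSA n h).2
        · intro s hs
          rcases mem_insert.1 hs with rfl | h
          · exact ⟨hA, h1⟩
          · exact ⟨(hSA s h).1, (hSA s h).2.trans h1⟩
    obtain ⟨n, S, hS, hSA, _, hn⟩ := hbuild K le_rfl
    refine ⟨∑ i ∈ I \ Es, (α i - 2) + ∑ i ∈ Es, (β i - 2),
      S.image (fun n => (∑ i ∈ I \ Es, (α i - 2) + ∑ i ∈ Es, (β i - 2)) + 2 * n), ?_, ?_, ?_⟩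
    · intro s hs
      obtain ⟨m, hm, rfl⟩ := mem_image.1 hs
      have h1 := (hSA m hm).2
      have h2 : K ≤ w / 2 := min_le_right _ _
      constructor <;> omega
    · rw [Finset.card_image_of_injective, hS]
      intro a b hab
      simp only at hab
      omega
    · intro s hs
      obtain ⟨m, hm, rfl⟩ := mem_image.1 hs
      obtain ⟨D, hD, hP, hDn, hcl⟩ := (hSA m hm).1
      obtain ⟨ρ, hρ1, hρ2⟩ := value I Es D α β (fun i hi => (hα i hi).1)
        (fun i hi => (hβ i hi).1) hEI hD hcl
      refine ⟨I \ D, sdiff_subset, hP, ρ, hρ1, ?_⟩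
      rw [← hρ2, hDn]
  · -- many values of `α`
    refine ⟨∑ i ∈ I, (β i - 2), (I.image α).image (fun v => ∑ i ∈ I, (β i - 2) + v), ?_, ?_, ?_⟩
    · intro s hs
      obtain ⟨v, hv, rfl⟩ := mem_image.1 hs
      obtain ⟨i, hi, rfl⟩ := mem_image.1 hv
      have := hα i hi
      constructor <;> omega
    · rw [Finset.card_image_of_injective _ (add_right_injective _)]
      refine (min_le_left _ _).trans ?_
      omega
    · intro s hs
      obtain ⟨v, hv, rfl⟩ := mem_image.1 hs
      obtain ⟨j, hj, rfl⟩ := mem_image.1 hv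
      refine ⟨I, Subset.refl I, hI, fun i => if i = j then α i + β i else β i, ?_, ?_⟩
      · intro i _
        by_cases h : i = j
        · simp [h]
        · simp [h]
      · rw [← Finset.add_sum_erase I (fun i => β i - 2) hj,
          ← Finset.add_sum_erase I (fun i => (if i = j then α i + β i else β i) - 2) hj]
        have h1 : ∑ i ∈ I.erase j, ((if i = j then α i + β i else β i) - 2) =
            ∑ i ∈ I.erase j, (β i - 2) := by
          apply Finset.sum_congr rfl
          intro i hi
          rw [if_neg (ne_of_mem_erase hi)]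
        rw [h1, if_pos rfl]
        have := hβ j hj
        omega

end Pool.Agent.Helper36.CL
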