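import Pool.Agent.Helper36.CL.Defs

set_option autoImplicit false

namespace Pool.Agent.Helper36.CL

open Finset

/-! ### CL-COUNT -/

theorem Gad.Ok.lt_n {G : SimpleGraph ℕ} {n : ℕ} {g : Gad} (h : g.Ok G n) : g.b' < n := by
  obtain ⟨-, -, -, h4⟩ := h
  rcases htw : g.tw with _ | _
  · exact (h4 g.a g.b' (Or.inr ⟨htw, Or.inl ⟨rfl, rfl⟩⟩)).2.1
  · exact (h4 g.a' g.b' (Or.inl ⟨htw, Or.inr ⟨rfl, rfl⟩⟩)).2.1

/-- The vertices strictly inside the hulls of a gadget. -/
def Gad.ins (g : Gad) : Finset ℕ := Finset.Ioo g.a g.a' ∪ Finset.Ioo g.b g.b'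

theorem Gad.mem_ins (g : Gad) (v : ℕ) :
    v ∈ g.ins ↔ (g.a < v ∧ v < g.a') ∨ (g.b < v ∧ v < g.b') := by
  simp [Gad.ins]

theorem Gad.Ok.card_ins {G : SimpleGraph ℕ} {n : ℕ} {g : Gad} (h : g.Ok G n) :
    g.ins.card = g.s - 2 := by
  obtain ⟨h1, h2, h3, -⟩ := h
  unfold Gad.ins Gad.s
  rw [Finset.card_union_of_disjoint, Nat.card_Ioo, Nat.card_Ioo]
  · omega
  · rw [Finset.disjoint_left]
    intro x hx hx'
    rw [Finset.mem_Ioo] at hx hx'
    omega

theorem ext_count {ι : Type*} {G : SimpleGraph ℕ} {n m : ℕ} {φ : ℕ → ℕ} {f : ι → Gad}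
    {I : Finset ι} (hF : Fam G n f I) (hE : Ext n f I m φ) :
    m + ∑ i ∈ I, ((f i).s - 2) = n := by
  classical
  set U := (Finset.range n).filter (fun v => Used n f I v) with hU
  have h1 : U.card = m := by
    have : U = (Finset.range m).image φ := by
      ext x
      rw [hU, Finset.mem_filter, Finset.mem_image]
      constructor
      · rintro ⟨-, hx⟩
        obtain ⟨i, hi, rfl⟩ := hE.surj x hx
        exact ⟨i, Finset.mem_range.2 hi, rfl⟩
      · rintro ⟨i, hi, rfl⟩
        have := hE.used i (Finset.mem_range.1 hi)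
        exact ⟨Finset.mem_range.2 this.1, this⟩
    rw [this, Finset.card_image_of_injOn, Finset.card_range]
    intro i hi j hj hij
    exact hE.inj i (Finset.mem_range.1 hi) j (Finset.mem_range.1 hj) hij
  have h2 : (Finset.range n).filter (fun v => ¬ Used n f I v) = I.biUnion (fun i => (f i).ins) := by
    ext x
    rw [Finset.mem_filter, Finset.mem_biUnion, Finset.mem_range]
    constructor
    · rintro ⟨hx, hnu⟩
      unfold Used at hnu
      push Not at hnu
      obtain ⟨i, hi, h⟩ := hnu hx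
      refine ⟨i, hi, ?_⟩
      rw [Gad.mem_ins]
      by_cases ha : (f i).a < x ∧ x < (f i).a'
      · exact Or.inl ha
      · refine Or.inr (h ?_)
        intro h5
        by_contra h6
        exact ha ⟨h5, by omega⟩
    · rintro ⟨i, hi, hx⟩
      rw [Gad.mem_ins] at hx
      have hok := hF.1 i hi
      have hlt := hok.lt_n
      obtain ⟨ha, hab, hb, -⟩ := hok
      refine ⟨by omega, fun hu => ?_⟩
      have := hu.2 i hi
      rcases hx with hx | hx
      · exact this.1 hx
      · exact this.2 hx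
  have h3 : (I.biUnion (fun i => (f i).ins)).card = ∑ i ∈ I, ((f i).s - 2) := by
    rw [Finset.card_biUnion]
    · exact Finset.sum_congr rfl fun i hi => (hF.1 i hi).card_ins
    · intro i hi j hj hij
      rw [Function.onFun, Finset.disjoint_left]
      intro x hx hx'
      rw [Gad.mem_ins] at hx hx'
      have := hF.2 i hi j hj hij
      unfold Gad.Dis at this
      omega
  have h4 := Finset.card_filter_add_card_filter_not (s := Finset.range n) (fun v => Used n f I v)
  rw [h2, h3, Finset.card_range] at h4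
  rw [← hU, h1] at h4
  exact h4

theorem hr_adj {ι : Type*} {G : SimpleGraph ℕ} {n : ℕ} {f : ι → Gad}
    {I : Finset ι} (hG : Ham G n) (hF : Fam G n f I) {x y : ℕ} (h : Hr n f I x y) : G.Adj x y := by
  have key : ∀ x y, Edge n f I x y → G.Adj x y := by
    intro x y h
    rcases h with ⟨rfl, h2, -⟩ | ⟨rfl, rfl⟩ | ⟨i, hi, h⟩
    · exact hG.2.1 x h2
    · exact hG.2.2
    · exact ((hF.1 i hi).2.2.2 x y h).2.2.2
  rcases h with h | h
  · exact key x y h
  · exact (key y x h).symm

theorem ext_hasF {ι : Type*} {G : SimpleGraph ℕ} {n m : ℕ} {φ : ℕ → ℕ} {f : ι → Gad}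
    {I : Finset ι} (hG : Ham G n) (hF : Fam G n f I) (hE : Ext n f I m φ) : HasF G m :=
  ⟨hE.three, φ, hE.inj, fun i hi => hr_adj hG hF (hE.step i hi), hr_adj hG hF hE.wrap⟩

end Pool.Agent.Helper36.CL
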