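import Pool.Agent.Helper36.CL.Defs

/-!
# From functions to cycles, the model of a Hamiltonian graph on `{0, ..., n-1}`, maximal families
of disjoint chords (module CL-CYC of MP_c54260_co)
-/

set_option autoImplicit false

namespace Pool.Agent.Helper36.CL

open Finset

/-- the walk `ψ 0, ψ 1, ..., ψ m` -/
private theorem cyc_exists_walk {V : Type*} (G : SimpleGraph V) (ψ : ℕ → V) (m : ℕ)
    (hs : ∀ i, i < m → G.Adj (ψ i) (ψ (i + 1))) :
    ∃ w : G.Walk (ψ 0) (ψ m), w.length = m ∧ w.support = (List.range (m + 1)).map ψ ∧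
      ∀ e ∈ w.edges, ∃ i < m, e = s(ψ i, ψ (i + 1)) := by
  induction m with
  | zero =>
    refine ⟨SimpleGraph.Walk.nil, rfl, by simp, ?_⟩
    intro e he
    simp at he
  | succ m ih =>
    obtain ⟨w, hl, hsup, hed⟩ := ih (fun i hi => hs i (by omega))
    refine ⟨w.concat (hs m (by omega)), ?_, ?_, ?_⟩
    · rw [SimpleGraph.Walk.length_concat, hl]
    · rw [SimpleGraph.Walk.support_concat, hsup, List.range_succ (n := m + 1), List.map_append]
      simp
    · intro e he
      rw [SimpleGraph.Walk.edges_concat] at he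
      simp only [List.concat_eq_append, List.mem_append, List.mem_singleton] at he
      rcases he with he | he
      · obtain ⟨i, hi, h⟩ := hed e he
        exact ⟨i, by omega, h⟩
      · exact ⟨m, by omega, he⟩

theorem hasCyc_of_adj {V : Type*} (G : SimpleGraph V) (k : ℕ) (hk : 3 ≤ k) (ψ : ℕ → V)
    (hinj : ∀ i < k, ∀ j < k, ψ i = ψ j → i = j)
    (hs : ∀ i, i + 1 < k → G.Adj (ψ i) (ψ (i + 1))) (hw : G.Adj (ψ (k - 1)) (ψ 0)) :
    HasCyc G k := by
  obtain ⟨w, hl, hsup, hed⟩ := cyc_exists_walk G ψ (k - 1) (fun i hi => hs i (by omega))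
  refine ⟨ψ (k - 1), SimpleGraph.Walk.cons hw w, ?_, ?_⟩
  · rw [SimpleGraph.Walk.cons_isCycle_iff]
    refine ⟨?_, ?_⟩
    · rw [SimpleGraph.Walk.isPath_def, hsup]
      refine List.Nodup.map_on ?_ List.nodup_range
      intro i hi j hj h
      rw [List.mem_range] at hi hj
      exact hinj i (by omega) j (by omega) h
    · intro h
      obtain ⟨i, hi, he⟩ := hed _ h
      rw [Sym2.eq_iff] at he
      rcases he with ⟨h1, h2⟩ | ⟨h1, h2⟩
      · have := hinj _ (by omega) _ (by omega) h1
        omega
      · have a1 := hinj _ (by omega) _ (by omega) h1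
        have a2 := hinj _ (by omega) _ (by omega) h2
        omega
  · rw [SimpleGraph.Walk.length_cons, hl]
    omega

theorem exists_nat_model {V : Type*} [Fintype V] [DecidableEq V] (G : SimpleGraph V)
    (hG : G.IsHamiltonian) (h3 : 3 ≤ Fintype.card V) :
    ∃ (G' : SimpleGraph ℕ) (ψ : ℕ → V), Ham G' (Fintype.card V) ∧
      (∀ i < Fintype.card V, ∀ j < Fintype.card V, ψ i = ψ j → i = j) ∧
      (∀ v, ∃ i < Fintype.card V, ψ i = v) ∧
      (∀ i j, G'.Adj i j ↔ i < Fintype.card V ∧ j < Fintype.card V ∧ G.Adj (ψ i) (ψ j)) ∧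
      ∀ k, HasF G' k → HasCyc G k := by
  obtain ⟨a, p, hp⟩ := hG (by omega)
  have hlen : p.length = Fintype.card V := hp.length_eq
  set n := Fintype.card V with hn
  let ψ : ℕ → V := p.getVert
  have hinj : ∀ i < n, ∀ j < n, ψ i = ψ j → i = j := by
    intro i hi j hj h
    refine hp.isCycle.getVert_injOn' ?_ ?_ h
    · show i ≤ p.length - 1
      omega
    · show j ≤ p.length - 1
      omega
  have hsurj : ∀ v, ∃ i < n, ψ i = v := by
    intro v
    have hv := hp.mem_support v
    rw [SimpleGraph.Walk.mem_support_iff_exists_getVert] at hv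
    obtain ⟨i, hi, hil⟩ := hv
    by_cases h : i = n
    · refine ⟨0, by omega, ?_⟩
      show p.getVert 0 = v
      rw [← hi, h, ← hlen]
      simp
    · exact ⟨i, by omega, hi⟩
  let G' : SimpleGraph ℕ :=
    { Adj := fun i j => i < n ∧ j < n ∧ G.Adj (ψ i) (ψ j)
      symm := ⟨fun i j h => ⟨h.2.1, h.1, h.2.2.symm⟩⟩
      loopless := ⟨fun i h => G.loopless.irrefl _ h.2.2⟩ }
  refine ⟨G', ψ, ⟨h3, ?_, ?_⟩, hinj, hsurj, fun i j => Iff.rfl, ?_⟩
  · intro i hi
    refine ⟨by omega, by omega, ?_⟩
    exact p.adj_getVert_succ (by omega)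
  · refine ⟨by omega, by omega, ?_⟩
    have h1 : G.Adj (p.getVert (n - 1)) (p.getVert (n - 1 + 1)) :=
      p.adj_getVert_succ (by omega)
    have h2 : p.getVert (n - 1 + 1) = p.getVert 0 := by
      rw [show n - 1 + 1 = p.length by omega]
      simp
    rw [h2] at h1
    exact h1
  · rintro k ⟨hk, φ, hφ, hs, hw⟩
    have hlt : ∀ i < k, φ i < n := by
      intro i hi
      by_cases h : i + 1 < k
      · exact (hs i h).1
      · have : i = k - 1 := by omega
        rw [this]
        exact hw.1
    refine hasCyc_of_adj G k hk (fun i => ψ (φ i)) ?_ ?_ ?_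
    · intro i hi j hj h
      exact hφ i hi j hj (hinj _ (hlt i hi) _ (hlt j hj) h)
    · intro i hi
      exact (hs i hi).2.2
    · exact hw.2.2

/-- A maximal matching of the chord graph is large if the degrees are comparable. -/
theorem exists_chords {V : Type*} [Fintype V] [DecidableEq V] (G : SimpleGraph V)
    [DecidableRel G.Adj] (D : ℕ) (h3 : 3 ≤ G.minDegree)
    (hD : G.maxDegree - 2 ≤ D * (G.minDegree - 2))
    (G' : SimpleGraph ℕ) (ψ : ℕ → V) (hH : Ham G' (Fintype.card V))
    (hinj : ∀ i < Fintype.card V, ∀ j < Fintype.card V, ψ i = ψ j → i = j)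
    (hsurj : ∀ v, ∃ i < Fintype.card V, ψ i = v)
    (hadj : ∀ i j, G'.Adj i j ↔ i < Fintype.card V ∧ j < Fintype.card V ∧ G.Adj (ψ i) (ψ j)) :
    ∃ K : Finset (ℕ × ℕ), Chords G' (Fintype.card V) K ∧
      Fintype.card V ≤ 2 * (D + 1) * K.card := by
  classical
  set n := Fintype.card V with hn
  obtain ⟨hn3, hstep, hwrap⟩ := hH
  -- the families of disjoint chords
  let 𝓕 : Finset (Finset (ℕ × ℕ)) :=
    ((Finset.range n ×ˢ Finset.range n).powerset).filter (fun K => Chords G' n K)
  have hsub : ∀ K, Chords G' n K → K ⊆ Finset.range n ×ˢ Finset.range n := by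
    intro K hK e he
    have h := hK.1 e he
    rw [Finset.mem_product, Finset.mem_range, Finset.mem_range]
    obtain ⟨h1, h2, -, -⟩ := h
    exact ⟨by omega, h2⟩
  have hne : 𝓕.Nonempty := by
    refine ⟨∅, ?_⟩
    simp only [𝓕, Finset.mem_filter, Finset.mem_powerset]
    exact ⟨by simp, by simp, by simp⟩
  obtain ⟨K, hK𝓕, hKmax⟩ := Finset.exists_max_image 𝓕 Finset.card hne
  have hK : Chords G' n K := (Finset.mem_filter.1 hK𝓕).2
  have hmax : ∀ K', Chords G' n K' → K'.card ≤ K.card := by
    intro K' hK'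
    refine hKmax K' ?_
    simp only [𝓕, Finset.mem_filter, Finset.mem_powerset]
    exact ⟨hsub K' hK', hK'⟩
  refine ⟨K, hK, ?_⟩
  -- the chord neighbours
  let r : ℕ → ℕ → Prop := fun x y => IsChord G' n x y ∨ IsChord G' n y x
  have hrsymm : ∀ x y, r x y → r y x := fun x y h => h.symm
  let C : ℕ → Finset ℕ := fun x => (Finset.range n).filter (fun y => r x y)
  let N : ℕ → Finset ℕ := fun x => (Finset.range n).filter (fun y => G'.Adj x y)
  have hNcard : ∀ x < n, (N x).card = G.degree (ψ x) := by
    intro x hx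
    rw [← SimpleGraph.card_neighborFinset_eq_degree]
    refine Finset.card_bij (fun y _ => ψ y) ?_ ?_ ?_
    · intro y hy
      rw [SimpleGraph.mem_neighborFinset]
      exact ((hadj x y).1 (Finset.mem_filter.1 hy).2).2.2
    · intro y hy z hz h
      exact hinj y (Finset.mem_range.1 (Finset.mem_filter.1 hy).1) z
        (Finset.mem_range.1 (Finset.mem_filter.1 hz).1) h
    · intro v hv
      obtain ⟨y, hy, rfl⟩ := hsurj v
      rw [SimpleGraph.mem_neighborFinset] at hv
      refine ⟨y, ?_, rfl⟩
      simp only [N, Finset.mem_filter, Finset.mem_range]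
      exact ⟨hy, (hadj x y).2 ⟨hx, hy, hv⟩⟩
  have hCcard : ∀ x < n, (C x).card = G.degree (ψ x) - 2 := by
    intro x hx
    let s := if x = n - 1 then 0 else x + 1
    let p := if x = 0 then n - 1 else x - 1
    have hs : s ∈ N x := by
      simp only [N, s, Finset.mem_filter, Finset.mem_range]
      split_ifs with h
      · refine ⟨by omega, ?_⟩
        rw [h]
        exact hwrap
      · exact ⟨by omega, hstep x (by omega)⟩
    have hp : p ∈ N x := by
      simp only [N, p, Finset.mem_filter, Finset.mem_range]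
      split_ifs with h
      · refine ⟨by omega, ?_⟩
        rw [h]
        exact hwrap.symm
      · refine ⟨by omega, ?_⟩
        have := hstep (x - 1) (by omega)
        rw [show x - 1 + 1 = x by omega] at this
        exact this.symm
    have hsp : s ≠ p := by
      simp only [s, p]
      split_ifs <;> omega
    have hCe : C x = N x \ {s, p} := by
      ext y
      have e1 : y ∈ C x ↔ y < n ∧ ((x + 2 ≤ y ∧ y < n ∧ ¬ (x = 0 ∧ y = n - 1) ∧ G'.Adj x y) ∨
          (y + 2 ≤ x ∧ x < n ∧ ¬ (y = 0 ∧ x = n - 1) ∧ G'.Adj y x)) := by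
        rw [Finset.mem_filter, Finset.mem_range]
        exact Iff.rfl
      have e2 : y ∈ N x \ {s, p} ↔ (y < n ∧ G'.Adj x y) ∧ ¬ (y = s ∨ y = p) := by
        rw [Finset.mem_sdiff, Finset.mem_filter, Finset.mem_range, Finset.mem_insert,
          Finset.mem_singleton]
      rw [e1, e2]
      constructor
      · rintro ⟨hy, h⟩
        rcases h with ⟨h1, h2, h4, h5⟩ | ⟨h1, h2, h4, h5⟩
        · refine ⟨⟨hy, h5⟩, ?_⟩
          simp only [s, p]
          split_ifs <;> omega
        · refine ⟨⟨hy, h5.symm⟩, ?_⟩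
          simp only [s, p]
          split_ifs <;> omega
      · rintro ⟨⟨hy, h⟩, h'⟩
        refine ⟨hy, ?_⟩
        have hxy : x ≠ y := h.ne
        simp only [s, p] at h'
        rcases lt_or_gt_of_ne hxy with hlt | hlt
        · left
          refine ⟨?_, hy, ?_, h⟩
          · split_ifs at h' <;> omega
          · split_ifs at h' <;> omega
        · right
          refine ⟨?_, hx, ?_, h.symm⟩
          · split_ifs at h' <;> omega
          · split_ifs at h' <;> omega
    have hsub2 : ({s, p} : Finset ℕ) ⊆ N x := by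
      intro z hz
      rw [Finset.mem_insert, Finset.mem_singleton] at hz
      rcases hz with rfl | rfl
      · exact hs
      · exact hp
    rw [hCe, Finset.card_sdiff_of_subset hsub2, Finset.card_pair hsp, hNcard x hx]
  -- matched and unmatched vertices
  let M : Finset ℕ := K.biUnion (fun e => {e.1, e.2})
  have hMcard : M.card ≤ 2 * K.card := by
    calc M.card ≤ ∑ e ∈ K, ({e.1, e.2} : Finset ℕ).card := Finset.card_biUnion_le
      _ ≤ ∑ e ∈ K, 2 := Finset.sum_le_sum (fun e _ => Finset.card_le_two)
      _ = 2 * K.card := by rw [Finset.sum_const, smul_eq_mul, mul_comm]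
  let U : Finset ℕ := Finset.range n \ M
  have hUcard : n - 2 * K.card ≤ U.card := by
    have h1 : n - M.card ≤ U.card := by
      have := Finset.le_card_sdiff M (Finset.range n)
      rwa [Finset.card_range] at this
    omega
  have hM_lt : ∀ x ∈ M, x < n := by
    intro x hx
    simp only [M, Finset.mem_biUnion, Finset.mem_insert, Finset.mem_singleton] at hx
    obtain ⟨e, he, h⟩ := hx
    obtain ⟨h1, h2, -, -⟩ := hK.1 e he
    rcases h with h | h <;> omega
  have hnotM : ∀ x ∉ M, ∀ e ∈ K, x ≠ e.1 ∧ x ≠ e.2 := by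
    intro x hx e he
    simp only [M, Finset.mem_biUnion, Finset.mem_insert, Finset.mem_singleton] at hx
    push Not at hx
    exact hx e he
  -- maximality
  have hchord : ∀ x ∉ M, ∀ y ∉ M, ¬ IsChord G' n x y := by
    intro x hx y hy hxy
    have hnew : (x, y) ∉ K := by
      intro h
      exact (hnotM x hx _ h).1 rfl
    have hcard := hmax (insert (x, y) K) ?_
    · rw [Finset.card_insert_of_notMem hnew] at hcard
      omega
    · refine ⟨?_, ?_⟩
      · intro e he
        rcases Finset.mem_insert.1 he with rfl | he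
        · exact hxy
        · exact hK.1 e he
      · intro e he f hf hef
        rcases Finset.mem_insert.1 he with he | he
        · rcases Finset.mem_insert.1 hf with hf | hf
          · exact absurd (he.trans hf.symm) hef
          · rw [he]
            exact ⟨(hnotM x hx f hf).1, (hnotM x hx f hf).2, (hnotM y hy f hf).1,
              (hnotM y hy f hf).2⟩
        · rcases Finset.mem_insert.1 hf with hf | hf
          · rw [hf]
            exact ⟨(hnotM x hx e he).1.symm, (hnotM y hy e he).1.symm,
              (hnotM x hx e he).2.symm, (hnotM y hy e he).2.symm⟩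
          · exact hK.2 e he f hf hef
  have hCM : ∀ x ∈ U, C x ⊆ M.filter (fun y => r x y) := by
    intro x hx y hy
    obtain ⟨-, hxM⟩ := Finset.mem_sdiff.1 hx
    obtain ⟨hyn, hr⟩ := Finset.mem_filter.1 hy
    refine Finset.mem_filter.2 ⟨?_, hr⟩
    by_contra hyM
    rcases hr with h | h
    · exact hchord x hxM y hyM h
    · exact hchord y hyM x hxM h
  -- double counting
  have hdc : ∑ x ∈ U, (M.filter (fun y => r x y)).card =
      ∑ y ∈ M, (U.filter (fun x => r x y)).card :=
    Finset.sum_card_bipartiteAbove_eq_sum_card_bipartiteBelow r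
  have hlow : U.card * (G.minDegree - 2) ≤ ∑ x ∈ U, (M.filter (fun y => r x y)).card := by
    rw [← smul_eq_mul, ← Finset.sum_const]
    refine Finset.sum_le_sum ?_
    intro x hx
    have hxn : x < n := Finset.mem_range.1 (Finset.mem_sdiff.1 hx).1
    calc G.minDegree - 2 ≤ G.degree (ψ x) - 2 :=
          Nat.sub_le_sub_right (G.minDegree_le_degree _) _
      _ = (C x).card := (hCcard x hxn).symm
      _ ≤ _ := Finset.card_le_card (hCM x hx)
  have hup : ∑ y ∈ M, (U.filter (fun x => r x y)).card ≤ M.card * (G.maxDegree - 2) := by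
    rw [← smul_eq_mul, ← Finset.sum_const]
    refine Finset.sum_le_sum ?_
    intro y hy
    have hyn : y < n := hM_lt y hy
    calc (U.filter (fun x => r x y)).card ≤ (C y).card := by
          refine Finset.card_le_card ?_
          intro x hx
          obtain ⟨hxU, hr⟩ := Finset.mem_filter.1 hx
          exact Finset.mem_filter.2 ⟨(Finset.mem_sdiff.1 hxU).1, hrsymm _ _ hr⟩
      _ = G.degree (ψ y) - 2 := hCcard y hyn
      _ ≤ G.maxDegree - 2 := Nat.sub_le_sub_right (G.degree_le_maxDegree _) _
  set d := G.minDegree - 2 with hd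
  have hd1 : 1 ≤ d := by omega
  have hfin : (n - 2 * K.card) * d ≤ (2 * K.card * D) * d := by
    calc (n - 2 * K.card) * d ≤ U.card * d := Nat.mul_le_mul_right _ hUcard
      _ ≤ M.card * (G.maxDegree - 2) := by
          rw [hdc] at hlow
          exact hlow.trans hup
      _ ≤ (2 * K.card) * (D * d) := Nat.mul_le_mul hMcard hD
      _ = (2 * K.card * D) * d := by ring
  have hle : n - 2 * K.card ≤ 2 * K.card * D := Nat.le_of_mul_le_mul_right hfin (by omega)
  calc n ≤ 2 * K.card * D + 2 * K.card := by omega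
    _ = 2 * (D + 1) * K.card := by ring

end Pool.Agent.Helper36.CL
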