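import Pool.Agent.Helper36.CL.Defs

set_option autoImplicit false
set_option linter.unusedSectionVars false

/-! Dropping at most two indices from a nonsingular symmetric matrix over the field with two
elements. -/

namespace Pool.Agent.Helper36.CL

open Finset Matrix

section drop

variable {ι : Type*} [DecidableEq ι]

/-- the `I × I` part of the matrix -/
def dropM (A : ι → ι → ZMod 2) (I : Finset ι) : Matrix {x // x ∈ I} {x // x ∈ I} (ZMod 2) :=
  Matrix.of fun i j => A i.1 j.1

theorem drop_mulVec (A : ι → ι → ZMod 2) (I : Finset ι) (z : ι → ZMod 2) (i : {x // x ∈ I}) :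
    (dropM A I *ᵥ fun j => z j.1) i = ∑ j ∈ I, A i.1 j * z j := by
  rw [Matrix.mulVec, dotProduct, ← Finset.sum_coe_sort I (fun j => A i.1 j * z j)]
  rfl

theorem drop_isUnit (A : ι → ι → ZMod 2) (I : Finset ι) (hN : NonsM A I) :
    IsUnit (dropM A I) := by
  rw [← Matrix.mulVec_injective_iff_isUnit]
  intro z w h
  have h1 : dropM A I *ᵥ (z - w) = 0 := by
    rw [Matrix.mulVec_sub]
    exact sub_eq_zero.2 h
  let u : ι → ZMod 2 := fun i => if hi : i ∈ I then (z - w) ⟨i, hi⟩ else 0
  have hu : (fun j : {x // x ∈ I} => u j.1) = z - w := by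
    funext j
    simp only [u, dif_pos j.2]
  have h2 : ∀ i ∈ I, u i = 0 := by
    refine hN u fun i hi => ?_
    rw [← drop_mulVec A I u ⟨i, hi⟩, hu, h1]
    rfl
  rw [← sub_eq_zero, ← hu]
  funext j
  exact h2 j.1 j.2

theorem drop_key (A : ι → ι → ZMod 2) (I S : Finset ι) (hS : S ⊆ I)
    (B : Matrix {x // x ∈ I} {x // x ∈ I} (ZMod 2)) (hB : B * dropM A I = 1)
    (hBS : ∀ y : {x // x ∈ I} → ZMod 2, (∀ i : {x // x ∈ I}, i.1 ∉ S → y i = 0) →
      (∀ i : {x // x ∈ I}, i.1 ∈ S → (B *ᵥ y) i = 0) → y = 0) : NonsM A (I \ S) := by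
  intro z hz i hi
  let z' : ι → ZMod 2 := fun i => if i ∈ S then 0 else z i
  let y := dropM A I *ᵥ fun j => z' j.1
  have hsum : ∀ i, ∑ j ∈ I, A i j * z' j = ∑ j ∈ I \ S, A i j * z j := by
    intro i
    rw [← Finset.sum_sdiff hS]
    have h1 : ∑ j ∈ S, A i j * z' j = 0 := by
      refine Finset.sum_eq_zero fun j hj => ?_
      simp only [z', if_pos hj, mul_zero]
    rw [h1, add_zero]
    refine Finset.sum_congr rfl fun j hj => ?_
    simp only [z', if_neg (Finset.mem_sdiff.1 hj).2]
  have hy1 : ∀ i : {x // x ∈ I}, i.1 ∉ S → y i = 0 := by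
    intro i hi
    change (dropM A I *ᵥ fun j => z' j.1) i = 0
    rw [drop_mulVec, hsum]
    exact hz i.1 (Finset.mem_sdiff.2 ⟨i.2, hi⟩)
  have hBy : B *ᵥ y = fun j => z' j.1 := by
    change B *ᵥ (dropM A I *ᵥ fun j => z' j.1) = _
    rw [Matrix.mulVec_mulVec, hB, Matrix.one_mulVec]
  have hy2 : ∀ i : {x // x ∈ I}, i.1 ∈ S → (B *ᵥ y) i = 0 := by
    intro i hi
    rw [hBy]
    simp only [z', if_pos hi]
  have hy0 := hBS y hy1 hy2
  rw [hy0, Matrix.mulVec_zero] at hBy
  have h2 := congrFun hBy ⟨i, (Finset.mem_sdiff.1 hi).1⟩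
  simp only [z', if_neg (Finset.mem_sdiff.1 hi).2] at h2
  exact h2.symm

end drop

theorem drop_matrix {ι : Type*} [DecidableEq ι] (A : ι → ι → ZMod 2) (I : Finset ι)
    (hsym : ∀ i ∈ I, ∀ j ∈ I, A i j = A j i) (hN : NonsM A I) (X : Finset ι) (hX : X ⊆ I)
    (hc : I.card < 2 * X.card) :
    ∃ S ⊆ X, 1 ≤ S.card ∧ S.card ≤ 2 ∧ NonsM A (I \ S) := by
  classical
  have hunit := drop_isUnit A I hN
  have hdet : IsUnit (dropM A I).det := (Matrix.isUnit_iff_isUnit_det _).1 hunit
  set B := (dropM A I)⁻¹ with hBdef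
  have hB1 : B * dropM A I = 1 := Matrix.nonsing_inv_mul _ hdet
  have hB2 : dropM A I * B = 1 := Matrix.mul_nonsing_inv _ hdet
  have hBsymm : ∀ i j, B i j = B j i := by
    have h1 : (dropM A I)ᵀ = dropM A I := by
      ext i j
      exact hsym j.1 j.2 i.1 i.2
    have h2 : Bᵀ = B := by
      rw [hBdef, Matrix.transpose_nonsing_inv, h1]
    intro i j
    have h3 : Bᵀ j i = B j i := by rw [h2]
    exact h3
  -- some entry of `B` with indices in `X` is nonzero
  obtain ⟨x, y, hx, hy, hxy⟩ : ∃ x y : {x // x ∈ I}, x.1 ∈ X ∧ y.1 ∈ X ∧ B x y ≠ 0 := by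
    by_contra hcon
    push Not at hcon
    let ext : ({x // x ∈ X} → ZMod 2) → ({x // x ∈ I} → ZMod 2) := fun u i =>
      if h : i.1 ∈ X then u ⟨i.1, h⟩ else 0
    let f : ({x // x ∈ X} → ZMod 2) → ({x // x ∈ I \ X} → ZMod 2) := fun u j =>
      (B *ᵥ ext u) ⟨j.1, (Finset.mem_sdiff.1 j.2).1⟩
    have hcard : Fintype.card ({x // x ∈ I \ X} → ZMod 2) < Fintype.card ({x // x ∈ X} → ZMod 2) := by
      rw [Fintype.card_fun, Fintype.card_fun, ZMod.card, Fintype.card_coe, Fintype.card_coe,
        Finset.card_sdiff_of_subset hX]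
      exact Nat.pow_lt_pow_right (by norm_num) (by omega)
    obtain ⟨u, w, huw, hfuw⟩ := Fintype.exists_ne_map_eq_of_card_lt f hcard
    apply huw
    have hzero : ∀ (u : {x // x ∈ X} → ZMod 2) (i : {x // x ∈ I}), i.1 ∈ X → (B *ᵥ ext u) i = 0 := by
      intro u i hi
      rw [Matrix.mulVec, dotProduct]
      refine Finset.sum_eq_zero fun j _ => ?_
      by_cases hj : j.1 ∈ X
      · rw [hcon i j hi hj, zero_mul]
      · simp only [ext, dif_neg hj, mul_zero]
    have h1 : B *ᵥ ext u = B *ᵥ ext w := by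
      funext i
      by_cases hi : i.1 ∈ X
      · rw [hzero u i hi, hzero w i hi]
      · exact congrFun hfuw ⟨i.1, Finset.mem_sdiff.2 ⟨i.2, hi⟩⟩
    have h2 : ext u = ext w := by
      have h3 := congrArg (fun v => dropM A I *ᵥ v) h1
      simp only [Matrix.mulVec_mulVec, hB2, Matrix.one_mulVec] at h3
      exact h3
    funext i
    have h4 := congrFun h2 ⟨i.1, hX i.2⟩
    simp only [ext, dif_pos i.2] at h4
    exact h4
  by_cases hdiag : ∃ x : {x // x ∈ I}, x.1 ∈ X ∧ B x x ≠ 0
  · obtain ⟨x, hx, hxx⟩ := hdiag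
    refine ⟨{x.1}, by simpa using hx, by simp, by simp, ?_⟩
    refine drop_key A I _ (by simp) B hB1 fun v hv1 hv2 => ?_
    have h1 : (B *ᵥ v) x = B x x * v x := by
      rw [Matrix.mulVec, dotProduct, Finset.sum_eq_single x]
      · intro j _ hj
        rw [hv1 j (by
          rw [Finset.mem_singleton]
          exact fun h => hj (Subtype.ext h)), mul_zero]
      · intro h
        exact absurd (Finset.mem_univ x) h
    have h2 := hv2 x (by simp)
    rw [h1] at h2
    have h3 : v x = 0 := (mul_eq_zero.1 h2).resolve_left hxx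
    funext j
    by_cases hj : j = x
    · rw [hj, h3]; rfl
    · exact hv1 j (by
        rw [Finset.mem_singleton]
        exact fun h => hj (Subtype.ext h))
  · push Not at hdiag
    have hne : x ≠ y := by
      rintro rfl
      exact hxy (hdiag x hx)
    have hne' : x.1 ≠ y.1 := fun h => hne (Subtype.ext h)
    refine ⟨{x.1, y.1}, ?_, ?_, ?_, ?_⟩
    · intro z hz
      rw [Finset.mem_insert, Finset.mem_singleton] at hz
      rcases hz with rfl | rfl
      · exact hx
      · exact hy
    · rw [Finset.card_pair hne']; norm_num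
    · rw [Finset.card_pair hne']
    · refine drop_key A I _ ?_ B hB1 fun v hv1 hv2 => ?_
      · intro z hz
        rw [Finset.mem_insert, Finset.mem_singleton] at hz
        rcases hz with rfl | rfl
        · exact x.2
        · exact y.2
      · have hoff : ∀ j : {x // x ∈ I}, j ≠ x → j ≠ y → v j = 0 := by
          intro j hjx hjy
          refine hv1 j ?_
          rw [Finset.mem_insert, Finset.mem_singleton]
          rintro (h | h)
          · exact hjx (Subtype.ext h)
          · exact hjy (Subtype.ext h)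
        have hsum : ∀ i, (B *ᵥ v) i = B i x * v x + B i y * v y := by
          intro i
          rw [Matrix.mulVec, dotProduct, ← Finset.sum_pair hne (f := fun j => B i j * v j)]
          symm
          refine Finset.sum_subset (Finset.subset_univ _) fun j _ hj => ?_
          rw [Finset.mem_insert, Finset.mem_singleton, not_or] at hj
          rw [hoff j hj.1 hj.2, mul_zero]
        have h1 := hv2 x (by simp)
        have h2 := hv2 y (by simp)
        rw [hsum, hdiag x hx, zero_mul, zero_add] at h1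
        rw [hsum, hdiag y hy, zero_mul, add_zero, hBsymm] at h2
        have h3 : v y = 0 := (mul_eq_zero.1 h1).resolve_left hxy
        have h4 : v x = 0 := (mul_eq_zero.1 h2).resolve_left hxy
        funext j
        by_cases hjx : j = x
        · rw [hjx, h4]; rfl
        · by_cases hjy : j = y
          · rw [hjy, h3]; rfl
          · exact hoff j hjx hjy

end Pool.Agent.Helper36.CL
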