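import Pool.Agent.Helper36.CL.Defs

/-!
# A connected `H_I` is a single cycle

The graph `H_I` is two-regular on the used vertices, hence, when connected, a single cycle.
-/

set_option autoImplicit false

namespace Pool.Agent.Helper36.CL

open Finset

/-- `x` lies in one of the two hulls of `g`. -/
def InHull (g : Gad) (x : ℕ) : Prop := (g.a ≤ x ∧ x ≤ g.a') ∨ (g.b ≤ x ∧ x ≤ g.b')

theorem hull_unique {ι : Type*} {G : SimpleGraph ℕ} {n : ℕ} {f : ι → Gad} {I : Finset ι}
    (hF : Fam G n f I) {i j : ι} (hi : i ∈ I) (hj : j ∈ I) {x : ℕ}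
    (hx : InHull (f i) x) (hy : InHull (f j) x) : i = j := by
  by_contra hne
  obtain ⟨h1, h2, h3, h4⟩ := hF.2 i hi j hj hne
  unfold InHull at hx hy
  omega

theorem Gad.ch_left {g : Gad} {x y : ℕ} (h : g.ch x y) : x = g.a ∨ x = g.a' := by
  rcases h with ⟨_, h | h⟩ | ⟨_, h | h⟩
  · exact Or.inl h.1
  · exact Or.inr h.1
  · exact Or.inl h.1
  · exact Or.inr h.1

theorem Gad.ch_right {g : Gad} {x y : ℕ} (h : g.ch x y) : y = g.b ∨ y = g.b' := by
  rcases h with ⟨_, h | h⟩ | ⟨_, h | h⟩
  · exact Or.inl h.2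
  · exact Or.inr h.2
  · exact Or.inr h.2
  · exact Or.inl h.2

theorem Hr.symm' {ι : Type*} {n : ℕ} {f : ι → Gad} {I : Finset ι} {x y : ℕ}
    (h : Hr n f I x y) : Hr n f I y x := Or.symm h

/-- The edge `{x, x+1}` for `x` in a hull of `i`. -/
theorem cut_iff {ι : Type*} {G : SimpleGraph ℕ} {n : ℕ} {f : ι → Gad} {I : Finset ι}
    (hF : Fam G n f I) {i : ι} (hi : i ∈ I) {x : ℕ} (hx : InHull (f i) x) :
    Cut f I x ↔ ((f i).a ≤ x ∧ x < (f i).a') ∨ ((f i).b ≤ x ∧ x < (f i).b') := by
  constructor
  · rintro ⟨j, hj, h⟩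
    have hh : InHull (f j) x := by
      unfold InHull
      omega
    have := hull_unique hF hi hj hx hh
    subst this
    exact h
  · intro h
    exact ⟨i, hi, h⟩

/-- The edge `{x-1, x}` for `x` in a hull of `i`. -/
theorem cut_pred_iff {ι : Type*} {G : SimpleGraph ℕ} {n : ℕ} {f : ι → Gad} {I : Finset ι}
    (hF : Fam G n f I) {i : ι} (hi : i ∈ I) {x : ℕ} (hx : InHull (f i) (x + 1)) :
    Cut f I x ↔ ((f i).a ≤ x ∧ x < (f i).a') ∨ ((f i).b ≤ x ∧ x < (f i).b') := by
  constructor
  · rintro ⟨j, hj, h⟩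
    have hh : InHull (f j) (x + 1) := by
      unfold InHull
      omega
    have := hull_unique hF hi hj hx hh
    subst this
    exact h
  · intro h
    exact ⟨i, hi, h⟩

/-- The neighbours of a used vertex in `H_I`, when it is not the end of a hull. -/
theorem two_nbrs_free {ι : Type*} {G : SimpleGraph ℕ} {n : ℕ} {f : ι → Gad} {I : Finset ι}
    (hG : Ham G n) (hF : Fam G n f I) {x : ℕ} (hx : Used n f I x)
    (hfree : ∀ i ∈ I, ¬ InHull (f i) x) :
    ∃ y z, y ≠ z ∧ y ≠ x ∧ z ≠ x ∧ ∀ w, Hr n f I x w ↔ w = y ∨ w = z := by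
  have h3 := hG.1
  have hxn := hx.1
  have hc1 : ¬ Cut f I x := by
    rintro ⟨j, hj, h⟩
    apply hfree j hj
    unfold InHull
    omega
  have hc2 : ∀ y, y + 1 = x → ¬ Cut f I y := by
    rintro y hy ⟨j, hj, h⟩
    apply hfree j hj
    unfold InHull
    omega
  have hch : ∀ i ∈ I, ∀ w, ¬ (f i).ch x w := by
    intro i hi w h
    obtain ⟨o1, o2, o3, _⟩ := hF.1 i hi
    apply hfree i hi
    have := Gad.ch_left h
    unfold InHull
    omega
  have hch' : ∀ i ∈ I, ∀ w, ¬ (f i).ch w x := by
    intro i hi w h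
    obtain ⟨o1, o2, o3, _⟩ := hF.1 i hi
    apply hfree i hi
    have := Gad.ch_right h
    unfold InHull
    omega
  refine ⟨if x + 1 = n then 0 else x + 1, if x = 0 then n - 1 else x - 1, ?_, ?_, ?_, ?_⟩
  · split_ifs <;> omega
  · split_ifs <;> omega
  · split_ifs <;> omega
  · intro w
    constructor
    · rintro ((⟨h1, h2, h4⟩ | ⟨h1, h2⟩ | ⟨i, hi, h⟩) | (⟨h1, h2, h4⟩ | ⟨h1, h2⟩ | ⟨i, hi, h⟩))
      · left
        rw [if_neg (by omega)]
        exact h1
      · left
        rw [if_pos (by omega)]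
        exact h2
      · exact absurd h (hch i hi w)
      · right
        rw [if_neg (by omega)]
        omega
      · right
        rw [if_pos (by omega)]
        exact h1
      · exact absurd h (hch' i hi w)
    · rintro (h | h)
      · by_cases hn : x + 1 = n
        · rw [if_pos hn] at h
          exact Or.inl (Or.inr (Or.inl ⟨by omega, h⟩))
        · rw [if_neg hn] at h
          exact Or.inl (Or.inl ⟨h, by omega, hc1⟩)
      · by_cases h0 : x = 0
        · rw [if_pos h0] at h
          exact Or.inr (Or.inr (Or.inl ⟨h, h0⟩))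
        · rw [if_neg h0] at h
          exact Or.inr (Or.inl ⟨by omega, by omega, hc2 w (by omega)⟩)

/-- The neighbours of a used vertex in `H_I`, when it is the end of a hull. -/
theorem two_nbrs_end {ι : Type*} {G : SimpleGraph ℕ} {n : ℕ} {f : ι → Gad} {I : Finset ι}
    (hG : Ham G n) (hF : Fam G n f I) {x : ℕ} (hx : Used n f I x) {i : ι} (hi : i ∈ I)
    (hin : InHull (f i) x) :
    ∃ y z, y ≠ z ∧ y ≠ x ∧ z ≠ x ∧ ∀ w, Hr n f I x w ↔ w = y ∨ w = z := by
  have h3 := hG.1
  have hxn := hx.1
  have hxu := hx.2 i hi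
  obtain ⟨o1, o2, o3, o4⟩ := hF.1 i hi
  -- the partner
  have key : ∃ p, (∀ w, (f i).ch x w ∨ (f i).ch w x ↔ w = p) ∧
      (x + 2 ≤ p ∧ p < n ∧ ¬ (x = 0 ∧ p = n - 1) ∨ p + 2 ≤ x ∧ x < n ∧ ¬ (p = 0 ∧ x = n - 1)) := by
    have hends : x = (f i).a ∨ x = (f i).a' ∨ x = (f i).b ∨ x = (f i).b' := by
      unfold InHull at hin
      omega
    unfold Gad.ch at *
    cases htw : (f i).tw
    · have c1 := o4 (f i).a (f i).b' (Or.inr ⟨htw, Or.inl ⟨rfl, rfl⟩⟩)
      have c2 := o4 (f i).a' (f i).b (Or.inr ⟨htw, Or.inr ⟨rfl, rfl⟩⟩)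
      have c1' := c1.1
      have c1'' := c1.2.1
      have c1''' := c1.2.2.1
      have c2' := c2.1
      have c2'' := c2.2.1
      have c2''' := c2.2.2.1
      rcases hends with h | h | h | h
      · refine ⟨(f i).b', fun w => ?_, ?_⟩
        · simp only [reduceCtorEq, false_and, false_or, true_and]
          omega
        · omega
      · refine ⟨(f i).b, fun w => ?_, ?_⟩
        · simp only [reduceCtorEq, false_and, false_or, true_and]
          omega
        · omega
      · refine ⟨(f i).a', fun w => ?_, ?_⟩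
        · simp only [reduceCtorEq, false_and, false_or, true_and]
          omega
        · omega
      · refine ⟨(f i).a, fun w => ?_, ?_⟩
        · simp only [reduceCtorEq, false_and, false_or, true_and]
          omega
        · omega
    · have c1 := o4 (f i).a (f i).b (Or.inl ⟨htw, Or.inl ⟨rfl, rfl⟩⟩)
      have c2 := o4 (f i).a' (f i).b' (Or.inl ⟨htw, Or.inr ⟨rfl, rfl⟩⟩)
      have c1' := c1.1
      have c1'' := c1.2.1
      have c1''' := c1.2.2.1
      have c2' := c2.1
      have c2'' := c2.2.1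
      have c2''' := c2.2.2.1
      rcases hends with h | h | h | h
      · refine ⟨(f i).b, fun w => ?_, ?_⟩
        · simp only [reduceCtorEq, false_and, or_false, true_and]
          omega
        · omega
      · refine ⟨(f i).b', fun w => ?_, ?_⟩
        · simp only [reduceCtorEq, false_and, or_false, true_and]
          omega
        · omega
      · refine ⟨(f i).a, fun w => ?_, ?_⟩
        · simp only [reduceCtorEq, false_and, or_false, true_and]
          omega
        · omega
      · refine ⟨(f i).a', fun w => ?_, ?_⟩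
        · simp only [reduceCtorEq, false_and, or_false, true_and]
          omega
        · omega
  obtain ⟨p, hp, hpx⟩ := key
  -- chords at `x`
  have hch : ∀ w, ((∃ j ∈ I, (f j).ch x w) ∨ (∃ j ∈ I, (f j).ch w x)) ↔ w = p := by
    intro w
    rw [← hp w]
    constructor
    · rintro (⟨j, hj, h⟩ | ⟨j, hj, h⟩)
      · have hl := Gad.ch_left h
        obtain ⟨q1, q2, q3, _⟩ := hF.1 j hj
        have : i = j := hull_unique hF hi hj hin (by unfold InHull; omega)
        subst this
        exact Or.inl h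
      · have hl := Gad.ch_right h
        obtain ⟨q1, q2, q3, _⟩ := hF.1 j hj
        have : i = j := hull_unique hF hi hj hin (by unfold InHull; omega)
        subst this
        exact Or.inr h
    · rintro (h | h)
      · exact Or.inl ⟨i, hi, h⟩
      · exact Or.inr ⟨i, hi, h⟩
  have hbn : (f i).b' < n := by
    cases htw : (f i).tw
    · exact (o4 (f i).a (f i).b' (Or.inr ⟨htw, Or.inl ⟨rfl, rfl⟩⟩)).2.1
    · exact (o4 (f i).a' (f i).b' (Or.inl ⟨htw, Or.inr ⟨rfl, rfl⟩⟩)).2.1
  have hcut := cut_iff hF hi hin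
  by_cases hleft : x = (f i).a ∨ x = (f i).b
  · -- left end: neighbours `x - 1` and `p`
    have hc1 : Cut f I x := by
      rw [hcut]
      omega
    have hc2 : ∀ y, y + 1 = x → ¬ Cut f I y := by
      intro y hy
      subst hy
      rw [cut_pred_iff hF hi hin]
      omega
    refine ⟨p, if x = 0 then n - 1 else x - 1, ?_, ?_, ?_, ?_⟩
    · split_ifs <;> omega
    · omega
    · split_ifs <;> omega
    · intro w
      constructor
      · rintro ((⟨h1, h2, h4⟩ | ⟨h1, h2⟩ | h) | (⟨h1, h2, h4⟩ | ⟨h1, h2⟩ | h))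
        · exact absurd hc1 h4
        · exfalso
          rw [hcut] at hc1
          omega
        · exact Or.inl ((hch w).1 (Or.inl h))
        · right
          rw [if_neg (by omega)]
          omega
        · right
          rw [if_pos (by omega)]
          exact h1
        · exact Or.inl ((hch w).1 (Or.inr h))
      · rintro (h | h)
        · rcases (hch w).2 h with h' | h'
          · exact Or.inl (Or.inr (Or.inr h'))
          · exact Or.inr (Or.inr (Or.inr h'))
        · by_cases h0 : x = 0
          · rw [if_pos h0] at h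
            exact Or.inr (Or.inr (Or.inl ⟨h, h0⟩))
          · rw [if_neg h0] at h
            exact Or.inr (Or.inl ⟨by omega, by omega, hc2 w (by omega)⟩)
  · -- right end: neighbours `x + 1` and `p`
    have hright : x = (f i).a' ∨ x = (f i).b' := by
      unfold InHull at hin
      omega
    have hc1 : ¬ Cut f I x := by
      rw [hcut]
      omega
    have hc2 : ∀ y, y + 1 = x → Cut f I y := by
      intro y hy
      subst hy
      rw [cut_pred_iff hF hi hin]
      omega
    refine ⟨p, if x + 1 = n then 0 else x + 1, ?_, ?_, ?_, ?_⟩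
    · split_ifs <;> omega
    · omega
    · split_ifs <;> omega
    · intro w
      constructor
      · rintro ((⟨h1, h2, h4⟩ | ⟨h1, h2⟩ | h) | (⟨h1, h2, h4⟩ | ⟨h1, h2⟩ | h))
        · right
          rw [if_neg (by omega)]
          exact h1
        · right
          rw [if_pos (by omega)]
          exact h2
        · exact Or.inl ((hch w).1 (Or.inl h))
        · exact absurd (hc2 w h1.symm) h4
        · exfalso
          omega
        · exact Or.inl ((hch w).1 (Or.inr h))
      · rintro (h | h)
        · rcases (hch w).2 h with h' | h'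
          · exact Or.inl (Or.inr (Or.inr h'))
          · exact Or.inr (Or.inr (Or.inr h'))
        · by_cases hn : x + 1 = n
          · rw [if_pos hn] at h
            exact Or.inl (Or.inr (Or.inl ⟨by omega, h⟩))
          · rw [if_neg hn] at h
            exact Or.inl (Or.inl ⟨h, by omega, hc1⟩)

theorem two_nbrs {ι : Type*} {G : SimpleGraph ℕ} {n : ℕ} {f : ι → Gad} {I : Finset ι}
    (hG : Ham G n) (hF : Fam G n f I) {x : ℕ} (hx : Used n f I x) :
    ∃ y z, y ≠ z ∧ y ≠ x ∧ z ≠ x ∧ ∀ w, Hr n f I x w ↔ w = y ∨ w = z := by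
  by_cases h : ∃ i ∈ I, InHull (f i) x
  · obtain ⟨i, hi, hin⟩ := h
    exact two_nbrs_end hG hF hx hi hin
  · push Not at h
    exact two_nbrs_free hG hF hx h

/-- The end of a hull is used. -/
theorem used_of_end {ι : Type*} {G : SimpleGraph ℕ} {n : ℕ} {f : ι → Gad} {I : Finset ι}
    (hF : Fam G n f I) {i : ι} (hi : i ∈ I) {x : ℕ}
    (h : x = (f i).a ∨ x = (f i).a' ∨ x = (f i).b ∨ x = (f i).b') : Used n f I x := by
  obtain ⟨o1, o2, o3, o4⟩ := hF.1 i hi
  have hbn : (f i).b' < n := by
    cases htw : (f i).tw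
    · exact (o4 (f i).a (f i).b' (Or.inr ⟨htw, Or.inl ⟨rfl, rfl⟩⟩)).2.1
    · exact (o4 (f i).a' (f i).b' (Or.inl ⟨htw, Or.inr ⟨rfl, rfl⟩⟩)).2.1
  refine ⟨by omega, fun j hj => ?_⟩
  have hin : InHull (f i) x := by
    unfold InHull
    omega
  by_contra hcon
  have hin' : InHull (f j) x := by
    unfold InHull
    omega
  have := hull_unique hF hi hj hin hin'
  subst this
  omega

theorem used_of_edge {ι : Type*} {G : SimpleGraph ℕ} {n : ℕ} {f : ι → Gad} {I : Finset ι}
    (hG : Ham G n) (hF : Fam G n f I) {x y : ℕ} (h : Edge n f I x y) :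
    Used n f I x ∧ Used n f I y := by
  have h3 := hG.1
  have hbn : ∀ j ∈ I, (f j).b' < n := by
    intro j hj
    obtain ⟨o1, o2, o3, o4⟩ := hF.1 j hj
    cases htw : (f j).tw
    · exact (o4 (f j).a (f j).b' (Or.inr ⟨htw, Or.inl ⟨rfl, rfl⟩⟩)).2.1
    · exact (o4 (f j).a' (f j).b' (Or.inl ⟨htw, Or.inr ⟨rfl, rfl⟩⟩)).2.1
  rcases h with ⟨h1, h2, h4⟩ | ⟨h1, h2⟩ | ⟨i, hi, h⟩
  · constructor
    · refine ⟨by omega, fun j hj => ?_⟩
      by_contra hcon
      exact h4 ⟨j, hj, by omega⟩
    · refine ⟨by omega, fun j hj => ?_⟩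
      by_contra hcon
      exact h4 ⟨j, hj, by omega⟩
  · constructor
    · refine ⟨by omega, fun j hj => ?_⟩
      have := hbn j hj
      obtain ⟨o1, o2, o3, o4⟩ := hF.1 j hj
      omega
    · refine ⟨by omega, fun j hj => ?_⟩
      omega
  · constructor
    · apply used_of_end hF hi
      have := Gad.ch_left h
      tauto
    · apply used_of_end hF hi
      have := Gad.ch_right h
      tauto

theorem used_of_Hr {ι : Type*} {G : SimpleGraph ℕ} {n : ℕ} {f : ι → Gad} {I : Finset ι}
    (hG : Ham G n) (hF : Fam G n f I) {x y : ℕ} (h : Hr n f I x y) :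
    Used n f I x ∧ Used n f I y := by
  rcases h with h | h
  · exact used_of_edge hG hF h
  · exact (used_of_edge hG hF h).symm

/-- The graph `H_I` on the used vertices. -/
def Hgr {ι : Type*} {G : SimpleGraph ℕ} {n : ℕ} {f : ι → Gad} {I : Finset ι}
    (hG : Ham G n) (hF : Fam G n f I) : SimpleGraph {x : ℕ // Used n f I x} where
  Adj x y := Hr n f I x.1 y.1
  symm := ⟨fun _ _ h => Or.symm h⟩
  loopless := ⟨by
    rintro ⟨x, hx⟩ h
    obtain ⟨y, z, _, h1, h2, h4⟩ := two_nbrs hG hF hx
    rcases (h4 x).1 h with h5 | h5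
    · exact h1 h5.symm
    · exact h2 h5.symm⟩

theorem exists_ext {ι : Type*} {G : SimpleGraph ℕ} {n : ℕ} {f : ι → Gad} {I : Finset ι}
    (hG : Ham G n) (hF : Fam G n f I) (hC : Conn n f I) : ∃ m φ, Ext n f I m φ := by
  classical
  have h3 := hG.1
  let H := Hgr hG hF
  have hadj : ∀ x y, H.Adj x y ↔ Hr n f I x.1 y.1 := fun x y => Iff.rfl
  have : Finite {x : ℕ // Used n f I x} := by
    apply Set.Finite.to_subtype
    exact (Set.finite_lt_nat n).subset fun x hx => hx.1
  have hcyc : H.IsCycles := by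
    intro v _
    obtain ⟨y, z, hyz, h1, h2, h4⟩ := two_nbrs hG hF v.2
    have hy : Hr n f I v.1 y := (h4 y).2 (Or.inl rfl)
    have hz : Hr n f I v.1 z := (h4 z).2 (Or.inr rfl)
    have : H.neighborSet v =
        {⟨y, (used_of_Hr hG hF hy).2⟩, ⟨z, (used_of_Hr hG hF hz).2⟩} := by
      ext w
      simp only [SimpleGraph.mem_neighborSet, Set.mem_insert_iff, Set.mem_singleton_iff, hadj]
      rw [h4 w.1, Subtype.ext_iff, Subtype.ext_iff]
    rw [this, Set.ncard_pair]
    intro h
    exact hyz (congrArg Subtype.val h)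
  have hu0 : Used n f I 0 := (used_of_edge hG hF (x := n - 1) (y := 0) (Or.inr (Or.inl ⟨rfl, rfl⟩))).2
  let v0 : {x : ℕ // Used n f I x} := ⟨0, hu0⟩
  have hne : (H.neighborSet v0).Nonempty := by
    obtain ⟨y, z, hyz, h1, h2, h4⟩ := two_nbrs hG hF hu0
    have hy : Hr n f I 0 y := (h4 y).2 (Or.inl rfl)
    exact ⟨⟨y, (used_of_Hr hG hF hy).2⟩, hy⟩
  obtain ⟨p, hp, hps⟩ := hcyc.exists_cycle_toSubgraph_verts_eq_connectedComponentSupp
    (c := H.connectedComponentMk v0) (v := v0) rfl hne
  have hconn : ∀ x : {x : ℕ // Used n f I x}, x ∈ p.support := by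
    intro x
    have hx : x ∈ (H.connectedComponentMk v0).supp := by
      rw [SimpleGraph.ConnectedComponent.mem_supp_iff, SimpleGraph.ConnectedComponent.eq]
      have hr := hC 0 x.1 hu0 x.2
      have : ∀ y, Relation.ReflTransGen (Hr n f I) 0 y → ∀ hy : Used n f I y,
          H.Reachable v0 ⟨y, hy⟩ := by
        intro y hy
        induction hy with
        | refl => intro _; exact SimpleGraph.Reachable.refl _
        | tail h1 h2 ih =>
          intro hy
          have hu := (used_of_Hr hG hF h2).1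
          exact (ih hu).trans (SimpleGraph.Adj.reachable (G := H) h2)
      exact (this x.1 hr x.2).symm
    rw [← hps] at hx
    exact (SimpleGraph.Walk.mem_verts_toSubgraph p).1 hx
  have hlen := hp.three_le_length
  have h0 : p.getVert 0 = v0 := p.getVert_zero
  have hl : p.getVert p.length = v0 := p.getVert_length
  have hinj := hp.getVert_injOn'
  have hstep : ∀ i, i < p.length → Hr n f I (p.getVert i).1 (p.getVert (i + 1)).1 := by
    intro i hi
    exact p.adj_getVert_succ hi
  have hwrap : Hr n f I (p.getVert (p.length - 1)).1 (p.getVert 0).1 := by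
    have := hstep (p.length - 1) (by omega)
    rw [show p.length - 1 + 1 = p.length by omega] at this
    have h00 : (p.getVert p.length).1 = (p.getVert 0).1 := congrArg Subtype.val (hl.trans h0.symm)
    rwa [h00] at this
  have hinj' : ∀ i < p.length, ∀ j < p.length, (p.getVert i).1 = (p.getVert j).1 → i = j := by
    intro i hi j hj h
    exact hinj (show i ≤ p.length - 1 by omega) (show j ≤ p.length - 1 by omega)
      (Subtype.ext h)
  have hsurj : ∀ x, Used n f I x → ∃ i < p.length, (p.getVert i).1 = x := by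
    intro x hx
    have := hconn ⟨x, hx⟩
    rw [SimpleGraph.Walk.mem_support_iff_exists_getVert] at this
    obtain ⟨i, hi, hil⟩ := this
    rcases Nat.lt_or_ge i p.length with h | h
    · exact ⟨i, h, by rw [hi]⟩
    · have : i = p.length := by omega
      subst this
      refine ⟨0, by omega, ?_⟩
      rw [h0, ← hl, hi]
  refine ⟨p.length, fun i => (p.getVert i).1, hlen, fun i _ => (p.getVert i).2, hsurj, hinj',
    fun i hi => hstep i (by omega), hwrap, ?_⟩
  intro x y hx hxy
  obtain ⟨i, hi, rfl⟩ := hsurj x hx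
  obtain ⟨u, w, huw, h1, h2, h4⟩ := two_nbrs hG hF hx
  -- the two neighbours on the cycle
  have hpair : ∀ s t, Hr n f I (p.getVert i).1 s → Hr n f I (p.getVert i).1 t → s ≠ t →
      y = s ∨ y = t := by
    intro s t hs ht hst
    have hs' := (h4 s).1 hs
    have ht' := (h4 t).1 ht
    have hy' := (h4 y).1 hxy
    rcases hs' with hs' | hs' <;> rcases ht' with ht' | ht' <;> rcases hy' with hy' | hy'
    · exact absurd (hs'.trans ht'.symm) hst
    · exact absurd (hs'.trans ht'.symm) hst
    · exact Or.inl (hy'.trans hs'.symm)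
    · exact Or.inr (hy'.trans ht'.symm)
    · exact Or.inr (hy'.trans ht'.symm)
    · exact Or.inl (hy'.trans hs'.symm)
    · exact absurd (hs'.trans ht'.symm) hst
    · exact absurd (hs'.trans ht'.symm) hst
  rcases Nat.eq_zero_or_pos i with hi0 | hi0
  · subst hi0
    have hs : Hr n f I (p.getVert 0).1 (p.getVert 1).1 := hstep 0 (by omega)
    have ht : Hr n f I (p.getVert 0).1 (p.getVert (p.length - 1)).1 := Or.symm hwrap
    rcases hpair _ _ hs ht (fun h => by
      have := hinj' 1 (by omega) (p.length - 1) (by omega) h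
      omega) with h | h
    · exact Or.inl ⟨0, by omega, Or.inl ⟨rfl, h.symm⟩⟩
    · exact Or.inr (Or.inr ⟨rfl, h⟩)
  · have ht : Hr n f I (p.getVert i).1 (p.getVert (i - 1)).1 := by
      have := hstep (i - 1) (by omega)
      rw [show i - 1 + 1 = i by omega] at this
      exact Or.symm this
    rcases Nat.lt_or_ge (i + 1) p.length with hil | hil
    · have hs := hstep i hi
      rcases hpair _ _ hs ht (fun h => by
        have := hinj' (i + 1) hil (i - 1) (by omega) h
        omega) with h | h
      · exact Or.inl ⟨i, hil, Or.inl ⟨rfl, h.symm⟩⟩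
      · refine Or.inl ⟨i - 1, by omega, Or.inr ⟨h.symm, ?_⟩⟩
        show (p.getVert (i - 1 + 1)).1 = _
        rw [show i - 1 + 1 = i by omega]
    · have hil' : i = p.length - 1 := by omega
      subst hil'
      rcases hpair _ _ hwrap ht (fun h => by
        have := hinj' 0 (by omega) (p.length - 1 - 1) (by omega) h
        omega) with h | h
      · exact Or.inr (Or.inl ⟨rfl, h⟩)
      · refine Or.inl ⟨p.length - 1 - 1, by omega, Or.inr ⟨h.symm, ?_⟩⟩
        show (p.getVert (p.length - 1 - 1 + 1)).1 = _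
        rw [show p.length - 1 - 1 + 1 = p.length - 1 by omega]

end Pool.Agent.Helper36.CL
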