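import Pool.Agent.Helper36.CL.Defs

set_option autoImplicit false

namespace Pool.Agent.Helper36.CL

open Finset

/-- the cell of a chord, given labels of positions -/
def cellOf (lab : ℕ → ℕ) (e : ℕ × ℕ) : ℕ × ℕ := (lab e.1, lab e.2)

/-- Pairwise nested subfamily of at least half the size. -/
theorem Planar.exists_nested (K : Finset (ℕ × ℕ))
    (hmat : ∀ e ∈ K, ∀ f ∈ K, e ≠ f → e.1 ≠ f.1 ∧ e.2 ≠ f.2)
    (P1 : ∀ e₁ ∈ K, ∀ e₂ ∈ K, ∀ e₃ ∈ K, e₁.1 < e₂.1 → e₂.1 < e₃.1 → e₁.2 < e₂.2 →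
      e₂.2 < e₃.2 → False) :
    ∃ Q ⊆ K, (∀ e ∈ Q, ∀ f ∈ Q, e.1 < f.1 → f.2 < e.2) ∧ K.card ≤ 2 * Q.card := by
  classical
  set Mi := K.filter (fun e => ∀ f ∈ K, ¬ (f.1 < e.1 ∧ f.2 < e.2)) with hMi
  set No := K.filter (fun e => ¬ ∀ f ∈ K, ¬ (f.1 < e.1 ∧ f.2 < e.2)) with hNo
  have hsum : Mi.card + No.card = K.card := by
    rw [hMi, hNo]; exact Finset.card_filter_add_card_filter_not _
  have h1 : ∀ e ∈ Mi, ∀ f ∈ Mi, e.1 < f.1 → f.2 < e.2 := by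
    intro e he f hf hlt
    rw [hMi, Finset.mem_filter] at he hf
    have hne : e ≠ f := by rintro rfl; exact lt_irrefl _ hlt
    have h2 := (hmat e he.1 f hf.1 hne).2
    have h3 := hf.2 e he.1
    by_contra hcon
    exact h3 ⟨hlt, by omega⟩
  have h2 : ∀ e ∈ No, ∀ f ∈ No, e.1 < f.1 → f.2 < e.2 := by
    intro e he f hf hlt
    rw [hNo, Finset.mem_filter] at he hf
    have hne : e ≠ f := by rintro rfl; exact lt_irrefl _ hlt
    have h2 := (hmat e he.1 f hf.1 hne).2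
    obtain ⟨hek, hen⟩ := he
    push Not at hen
    obtain ⟨g, hg, hg1, hg2⟩ := hen
    by_contra hcon
    exact P1 g hg e hek f hf.1 hg1 hlt hg2 (by omega)
  rcases le_total Mi.card No.card with h | h
  · exact ⟨No, Finset.filter_subset _ _, h2, by omega⟩
  · exact ⟨Mi, Finset.filter_subset _ _, h1, by omega⟩

/-- A nested family with at least three members contains a nested triple. -/
theorem Planar.exists_triple (Q : Finset (ℕ × ℕ)) (h3 : 3 ≤ Q.card)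
    (hinj : ∀ e ∈ Q, ∀ f ∈ Q, e ≠ f → e.1 ≠ f.1) :
    ∃ e₁ ∈ Q, ∃ e₂ ∈ Q, ∃ e₃ ∈ Q, e₁.1 < e₂.1 ∧ e₂.1 < e₃.1 := by
  classical
  have hne : Q.Nonempty := Finset.card_pos.1 (by omega)
  obtain ⟨a, ha, hamin⟩ := Finset.exists_min_image Q (fun e => e.1) hne
  obtain ⟨b, hb, hbmax⟩ := Finset.exists_max_image Q (fun e => e.1) hne
  have hcard : 0 < ((Q.erase a).erase b).card := by
    have h1 : (Q.erase a).card = Q.card - 1 := Finset.card_erase_of_mem ha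
    have h2 : (Q.erase a).card - 1 ≤ ((Q.erase a).erase b).card := Finset.pred_card_le_card_erase
    omega
  obtain ⟨c, hc⟩ := Finset.card_pos.1 hcard
  have hcb : c ≠ b := Finset.ne_of_mem_erase hc
  have hca : c ≠ a := Finset.ne_of_mem_erase (Finset.mem_of_mem_erase hc)
  have hcQ : c ∈ Q := Finset.mem_of_mem_erase (Finset.mem_of_mem_erase hc)
  have e1 := hinj c hcQ a ha hca
  have e2 := hinj c hcQ b hb hcb
  have e3 := hamin c hcQ
  have e4 := hbmax c hcQ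
  exact ⟨a, ha, c, hcQ, b, hb, by omega, by omega⟩

theorem planar (lab : ℕ → ℕ) (L : Finset ℕ) (K : Finset (ℕ × ℕ)) (C0 : ℕ)
    (hlab : ∀ e ∈ K, lab e.1 ∈ L ∧ lab e.2 ∈ L ∧ lab e.1 < lab e.2)
    (hmat : ∀ e ∈ K, ∀ f ∈ K, e ≠ f → e.1 ≠ f.1 ∧ e.2 ≠ f.2)
    (hC0 : (K.image (cellOf lab)).card ≤ C0)
    (P1 : ∀ e₁ ∈ K, ∀ e₂ ∈ K, ∀ e₃ ∈ K, cellOf lab e₁ = cellOf lab e₂ →
      cellOf lab e₂ = cellOf lab e₃ → e₁.1 < e₂.1 → e₂.1 < e₃.1 → e₁.2 < e₂.2 → e₂.2 < e₃.2 →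
      False)
    (P2 : ∀ e₁ ∈ K, ∀ e₂ ∈ K, ∀ e₃ ∈ K, ∀ f₁ ∈ K, ∀ f₂ ∈ K, ∀ f₃ ∈ K,
      cellOf lab e₁ = cellOf lab e₂ → cellOf lab e₂ = cellOf lab e₃ →
      cellOf lab f₁ = cellOf lab f₂ → cellOf lab f₂ = cellOf lab f₃ →
      e₁.1 < e₂.1 → e₂.1 < e₃.1 → e₃.2 < e₂.2 → e₂.2 < e₁.2 →
      f₁.1 < f₂.1 → f₂.1 < f₃.1 → f₃.2 < f₂.2 → f₂.2 < f₁.2 →
      lab e₁.1 < lab f₁.1 → lab f₁.1 < lab e₁.2 → lab e₁.2 < lab f₁.2 → False) :
    ∃ Q ⊆ K, (∀ e ∈ Q, ∀ f ∈ Q, cellOf lab e = cellOf lab f) ∧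
      (∀ e ∈ Q, ∀ f ∈ Q, e.1 < f.1 → f.2 < e.2) ∧
      K.card ≤ 4 * C0 + 4 * L.card * Q.card := by
  classical
  let Kc : ℕ × ℕ → Finset (ℕ × ℕ) := fun c => K.filter (fun e => cellOf lab e = c)
  have hKc : ∀ c e, e ∈ Kc c ↔ e ∈ K ∧ cellOf lab e = c := fun c e => by
    simp only [Kc, Finset.mem_filter]
  -- nested half of each cell
  have hnest : ∀ c, ∃ Q ⊆ Kc c, (∀ e ∈ Q, ∀ f ∈ Q, e.1 < f.1 → f.2 < e.2) ∧
      (Kc c).card ≤ 2 * Q.card := by
    intro c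
    apply Planar.exists_nested
    · intro e he f hf hne
      exact hmat e ((hKc c e).1 he).1 f ((hKc c f).1 hf).1 hne
    · intro e₁ h1 e₂ h2 e₃ h3 a b a' b'
      obtain ⟨h1, c1⟩ := (hKc c e₁).1 h1
      obtain ⟨h2, c2⟩ := (hKc c e₂).1 h2
      obtain ⟨h3, c3⟩ := (hKc c e₃).1 h3
      exact P1 e₁ h1 e₂ h2 e₃ h3 (c1.trans c2.symm) (c2.trans c3.symm) a b a' b'
  set R := (K.image (cellOf lab)).filter (fun c => 5 ≤ (Kc c).card) with hR
  -- triples in rich cells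
  have htri : ∀ c ∈ R, ∃ e₁ ∈ K, ∃ e₂ ∈ K, ∃ e₃ ∈ K, cellOf lab e₁ = c ∧ cellOf lab e₂ = c ∧
      cellOf lab e₃ = c ∧ e₁.1 < e₂.1 ∧ e₂.1 < e₃.1 ∧ e₃.2 < e₂.2 ∧ e₂.2 < e₁.2 := by
    intro c hc
    obtain ⟨Q, hQ, hQ2, hQ3⟩ := hnest c
    have h5 := (Finset.mem_filter.1 hc).2
    obtain ⟨e₁, h1, e₂, h2, e₃, h3, l1, l2⟩ := Planar.exists_triple Q (by omega) (by
      intro e he f hf hne
      exact (hmat e ((hKc c e).1 (hQ he)).1 f ((hKc c f).1 (hQ hf)).1 hne).1)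
    obtain ⟨k1, c1⟩ := (hKc c e₁).1 (hQ h1)
    obtain ⟨k2, c2⟩ := (hKc c e₂).1 (hQ h2)
    obtain ⟨k3, c3⟩ := (hKc c e₃).1 (hQ h3)
    exact ⟨e₁, k1, e₂, k2, e₃, k3, c1, c2, c3, l1, l2, hQ2 e₂ h2 e₃ h3 l2, hQ2 e₁ h1 e₂ h2 l1⟩
  have hcross : ∀ c ∈ R, ∀ d ∈ R, ¬ (c.1 < d.1 ∧ d.1 < c.2 ∧ c.2 < d.2) := by
    rintro c hc d hd ⟨x1, x2, x3⟩
    obtain ⟨e₁, h1, e₂, h2, e₃, h3, c1, c2, c3, a1, a2, a3, a4⟩ := htri c hc
    obtain ⟨f₁, g1, f₂, g2, f₃, g3, d1, d2, d3, b1, b2, b3, b4⟩ := htri d hd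
    have c1a : lab e₁.1 = c.1 := congrArg Prod.fst c1
    have c1b : lab e₁.2 = c.2 := congrArg Prod.snd c1
    have d1a : lab f₁.1 = d.1 := congrArg Prod.fst d1
    have d1b : lab f₁.2 = d.2 := congrArg Prod.snd d1
    exact P2 e₁ h1 e₂ h2 e₃ h3 f₁ g1 f₂ g2 f₃ g3 (c1.trans c2.symm) (c2.trans c3.symm)
      (d1.trans d2.symm) (d2.trans d3.symm) a1 a2 a3 a4 b1 b2 b3 b4
      (by rw [c1a, d1a]; exact x1) (by rw [d1a, c1b]; exact x2) (by rw [c1b, d1b]; exact x3)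
  have hRL : ∀ c ∈ R, c.1 ∈ L ∧ c.2 ∈ L ∧ c.1 < c.2 := by
    intro c hc
    obtain ⟨e, he, rfl⟩ := Finset.mem_image.1 (Finset.mem_filter.1 hc).1
    exact hlab e he
  have hRcard : R.card ≤ 2 * L.card := by
    set R1 := R.filter (fun c => ∀ d ∈ R, d.1 = c.1 → d.2 ≤ c.2) with hR1
    set R2 := R.filter (fun c => ¬ ∀ d ∈ R, d.1 = c.1 → d.2 ≤ c.2) with hR2
    have hsum : R1.card + R2.card = R.card := by
      rw [hR1, hR2]; exact Finset.card_filter_add_card_filter_not _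
    have hc1 : R1.card ≤ L.card := by
      apply Finset.card_le_card_of_injOn (fun c => c.1)
      · intro c hc
        exact (hRL c (Finset.mem_filter.1 hc).1).1
      · intro c hc d hd hcd
        have hc' := Finset.mem_filter.1 hc
        have hd' := Finset.mem_filter.1 hd
        simp only at hcd
        have h1 := hc'.2 d hd'.1 hcd.symm
        have h2 := hd'.2 c hc'.1 hcd
        exact Prod.ext hcd (le_antisymm h2 h1)
    have hc2 : R2.card ≤ L.card := by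
      apply Finset.card_le_card_of_injOn (fun c => c.2)
      · intro c hc
        exact (hRL c (Finset.mem_filter.1 hc).1).2.1
      · have key : ∀ c ∈ R2, ∀ d ∈ R2, c.2 = d.2 → ¬ c.1 < d.1 := by
          intro c hc d hd hcd hlt
          have hc' := Finset.mem_filter.1 hc
          have hd' := Finset.mem_filter.1 hd
          have hdn := hd'.2
          push Not at hdn
          obtain ⟨x, hx, hx1, hx2⟩ := hdn
          apply hcross c hc'.1 x hx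
          have := (hRL d hd'.1).2.2
          refine ⟨by omega, by omega, by omega⟩
        intro c hc d hd hcd
        have hc'' : c ∈ R2 := hc
        have hd'' : d ∈ R2 := hd
        simp only at hcd
        have h1 := key c hc'' d hd'' hcd
        have h2 := key d hd'' c hc'' hcd.symm
        exact Prod.ext (by omega) hcd
    omega
  have hKsum : K.card = ∑ c ∈ K.image (cellOf lab), (Kc c).card := by
    exact Finset.card_eq_sum_card_image (cellOf lab) K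
  rcases R.eq_empty_or_nonempty with hemp | hne
  · refine ⟨∅, Finset.empty_subset _, by simp, by simp, ?_⟩
    have : ∀ c ∈ K.image (cellOf lab), (Kc c).card ≤ 4 := by
      intro c hc
      by_contra hcon
      have : c ∈ R := Finset.mem_filter.2 ⟨hc, by omega⟩
      rw [hemp] at this
      exact absurd this (Finset.notMem_empty c)
    have h2 := Finset.sum_le_card_nsmul _ _ 4 this
    rw [← hKsum, smul_eq_mul] at h2
    have h3 : (K.image (cellOf lab)).card * 4 ≤ C0 * 4 := Nat.mul_le_mul_right 4 hC0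
    omega
  · obtain ⟨c, hcR, hcmax⟩ := Finset.exists_max_image R (fun c => (Kc c).card) hne
    obtain ⟨Q, hQ, hQ2, hQ3⟩ := hnest c
    refine ⟨Q, fun e he => ((hKc c e).1 (hQ he)).1, ?_, hQ2, ?_⟩
    · intro e he f hf
      exact ((hKc c e).1 (hQ he)).2.trans ((hKc c f).1 (hQ hf)).2.symm
    · have hsplit : ∑ d ∈ K.image (cellOf lab), (Kc d).card =
          ∑ d ∈ R, (Kc d).card +
            ∑ d ∈ (K.image (cellOf lab)).filter (fun d => ¬ 5 ≤ (Kc d).card), (Kc d).card := by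
        rw [hR]; exact (Finset.sum_filter_add_sum_filter_not _ _ _).symm
      have hb1 : ∑ d ∈ R, (Kc d).card ≤ R.card • (Kc c).card :=
        Finset.sum_le_card_nsmul _ _ _ (fun d hd => hcmax d hd)
      have hb2 : ∑ d ∈ (K.image (cellOf lab)).filter (fun d => ¬ 5 ≤ (Kc d).card), (Kc d).card ≤
          ((K.image (cellOf lab)).filter (fun d => ¬ 5 ≤ (Kc d).card)).card • 4 :=
        Finset.sum_le_card_nsmul _ _ _ (fun d hd => by
          have := (Finset.mem_filter.1 hd).2; omega)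
      have hb3 : ((K.image (cellOf lab)).filter (fun d => ¬ 5 ≤ (Kc d).card)).card ≤ C0 :=
        (Finset.card_filter_le _ _).trans hC0
      rw [smul_eq_mul] at hb1 hb2
      have hb4 : R.card * (Kc c).card ≤ (2 * L.card) * (2 * Q.card) :=
        Nat.mul_le_mul hRcard hQ3
      have hb5 : (2 * L.card) * (2 * Q.card) = 4 * L.card * Q.card := by ring
      rw [hKsum, hsplit]
      omega

end Pool.Agent.Helper36.CL
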