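import Pool.Agent.Helper36.CL.Defs

set_option autoImplicit false

namespace Pool.Agent.Helper36.CL

open Finset

/-! ### CL-SEL -/

/-- Selection of well separated values. -/
theorem sel {ι : Type*} (T : Finset ι) (u s : ι → ℕ) (B : ℕ) (hB : 1 ≤ B)
    (hs : ∀ i ∈ T, s i ≤ B)
    (hd : ∀ i ∈ T, ∀ j ∈ T, i ≠ j → u i + s i ≤ u j ∨ u j + s j ≤ u i) :
    ∃ S ⊆ T.image u, (∀ x ∈ S, ∀ y ∈ S, x < y → x + B ≤ y) ∧
      ∑ i ∈ T, s i ≤ 4 * B * S.card := by
  classical
  set kap : ι → ℕ := fun i => u i / B with hkap
  set Cs : Finset ℕ := T.image kap with hCs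
  -- the length inside one cell
  have hcell : ∀ k ∈ Cs, ∑ i ∈ T with kap i = k, s i ≤ 2 * B := by
    intro k _
    have hdis : ((T.filter (fun i => kap i = k) : Finset ι) : Set ι).PairwiseDisjoint
        (fun i => Finset.Ico (u i) (u i + s i)) := by
      intro i hi j hj hij
      rw [Finset.mem_coe, Finset.mem_filter] at hi hj
      rw [Function.onFun, Finset.disjoint_left]
      intro x hx hx'
      rw [Finset.mem_Ico] at hx hx'
      rcases hd i hi.1 j hj.1 hij with h | h <;> omega
    have h2 := Finset.card_biUnion (s := T.filter (fun i => kap i = k))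
      (t := fun i => Finset.Ico (u i) (u i + s i)) hdis
    have h3 : ∑ i ∈ T with kap i = k, s i
        = ((T.filter (fun i => kap i = k)).biUnion (fun i => Finset.Ico (u i) (u i + s i))).card := by
      rw [h2]
      refine Finset.sum_congr rfl fun i _ => ?_
      rw [Nat.card_Ico]; omega
    rw [h3]
    have h4 : (T.filter (fun i => kap i = k)).biUnion (fun i => Finset.Ico (u i) (u i + s i))
        ⊆ Finset.Ico (k * B) (k * B + 2 * B) := by
      intro x hx
      rw [Finset.mem_biUnion] at hx
      obtain ⟨i, hi, hx⟩ := hx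
      rw [Finset.mem_filter] at hi
      rw [Finset.mem_Ico] at hx ⊢
      have h5 : u i / B = k := hi.2
      have h6 := Nat.div_add_mod (u i) B
      have h7 := Nat.mod_lt (u i) (show 0 < B by omega)
      have h8 := hs i hi.1
      rw [h5, mul_comm] at h6
      constructor <;> omega
    refine le_trans (Finset.card_le_card h4) ?_
    rw [Nat.card_Ico]; omega
  have hsum : ∑ i ∈ T, s i ≤ 2 * B * Cs.card := by
    rw [← Finset.sum_fiberwise_of_maps_to (s := T) (t := Cs) (g := kap)
      (fun i hi => Finset.mem_image_of_mem _ hi) s]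
    refine le_trans (Finset.sum_le_sum hcell) ?_
    rw [Finset.sum_const, smul_eq_mul, mul_comm]
  -- the majority parity
  obtain ⟨r, hr⟩ : ∃ r, Cs.card ≤ 2 * (Cs.filter (fun k => k % 2 = r)).card := by
    by_contra hcon
    push Not at hcon
    have h0 := hcon 0
    have h1 := hcon 1
    have h2 := Finset.card_filter_add_card_filter_not (s := Cs) (fun k => k % 2 = 0)
    have h3 : Cs.filter (fun k => ¬ k % 2 = 0) = Cs.filter (fun k => k % 2 = 1) := by
      refine Finset.filter_congr fun k _ => ?_
      omega
    rw [h3] at h2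
    omega
  set D := Cs.filter (fun k => k % 2 = r) with hD
  have hch : ∀ k, ∃ x, k ∈ D → x ∈ T.image u ∧ x / B = k := by
    intro k
    by_cases hk : k ∈ D
    · rw [hD, Finset.mem_filter, hCs, Finset.mem_image] at hk
      obtain ⟨⟨i, hi, hik⟩, -⟩ := hk
      exact ⟨u i, fun _ => ⟨Finset.mem_image_of_mem _ hi, hik⟩⟩
    · exact ⟨0, fun h => absurd h hk⟩
  choose rep hrep using hch
  refine ⟨D.image rep, ?_, ?_, ?_⟩
  · intro x hx
    rw [Finset.mem_image] at hx
    obtain ⟨k, hk, rfl⟩ := hx
    exact (hrep k hk).1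
  · intro x hx y hy hxy
    rw [Finset.mem_image] at hx hy
    obtain ⟨k, hk, rfl⟩ := hx
    obtain ⟨l, hl, rfl⟩ := hy
    have hk2 := (hrep k hk).2
    have hl2 := (hrep l hl).2
    have hkl : k ≠ l := by
      rintro rfl
      exact lt_irrefl _ hxy
    have hkl2 : k ≤ l := by
      rw [← hk2, ← hl2]
      exact Nat.div_le_div_right hxy.le
    rw [hD, Finset.mem_filter] at hk hl
    have hkl3 : k + 2 ≤ l := by
      have := hk.2
      have := hl.2
      omega
    have h6 := Nat.div_add_mod (rep k) B
    have h7 := Nat.mod_lt (rep k) (show 0 < B by omega)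
    have h8 := Nat.div_add_mod (rep l) B
    rw [hk2] at h6
    rw [hl2] at h8
    have h9 : B * (k + 2) ≤ B * l := Nat.mul_le_mul_left _ hkl3
    rw [mul_add] at h9
    omega
  · rw [Finset.card_image_of_injOn]
    · have : 2 * B * Cs.card ≤ 2 * B * (2 * D.card) := Nat.mul_le_mul_left _ hr
      calc ∑ i ∈ T, s i ≤ 2 * B * Cs.card := hsum
        _ ≤ 2 * B * (2 * D.card) := this
        _ = 4 * B * D.card := by ring
    · intro k hk l hl hkl
      rw [← (hrep k hk).2, ← (hrep l hl).2, hkl]

/-- Vitali covering: greedy choice by decreasing weight. -/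
theorem vitali {ι : Type*} [DecidableEq ι] (K : Finset ι) (s : ι → ℕ) (C : ℕ)
    (conf : ι → ι → Prop) [DecidableRel conf]
    (h : ∀ e ∈ K, (K.filter (fun f => conf e f ∧ s f ≤ s e)).card ≤ C * s e)
    (hself : ∀ e ∈ K, conf e e) :
    ∃ F ⊆ K, (∀ e ∈ F, ∀ f ∈ F, e ≠ f → ¬ conf e f ∨ ¬ conf f e) ∧
      K.card ≤ C * ∑ e ∈ F, s e := by
  induction hn : K.card using Nat.strong_induction_on generalizing K with
  | _ n ih =>
    subst hn
    rcases K.eq_empty_or_nonempty with rfl | hne
    · exact ⟨∅, by simp, by simp, by simp⟩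
    obtain ⟨e, he, hmax⟩ := Finset.exists_max_image K s hne
    set K' := K.filter (fun f => ¬ conf e f) with hK'
    have hsub : K' ⊆ K := Finset.filter_subset _ _
    have heK' : e ∉ K' := by
      rw [hK', Finset.mem_filter]
      exact fun h => h.2 (hself e he)
    have hcard : (K.filter (fun f => conf e f)).card + K'.card = K.card :=
      Finset.card_filter_add_card_filter_not _
    have hpos : 0 < (K.filter (fun f => conf e f)).card :=
      Finset.card_pos.2 ⟨e, Finset.mem_filter.2 ⟨he, hself e he⟩⟩
    have hK'h : ∀ f ∈ K', (K'.filter (fun g => conf f g ∧ s g ≤ s f)).card ≤ C * s f := by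
      intro f hf
      refine le_trans (Finset.card_le_card ?_) (h f (hsub hf))
      exact Finset.filter_subset_filter _ hsub
    obtain ⟨F, hFK, hF, hFc⟩ := ih K'.card (by omega) K' hK'h
      (fun f hf => hself f (hsub hf)) rfl
    · refine ⟨insert e F, ?_, ?_, ?_⟩
      · intro x hx
        rw [Finset.mem_insert] at hx
        rcases hx with rfl | hx
        · exact he
        · exact hsub (hFK hx)
      · intro x hx y hy hxy
        rw [Finset.mem_insert] at hx hy
        rcases hx with rfl | hx
        · rcases hy with rfl | hy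
          · exact absurd rfl hxy
          · exact Or.inl (Finset.mem_filter.1 (hFK hy)).2
        · rcases hy with rfl | hy
          · exact Or.inr (Finset.mem_filter.1 (hFK hx)).2
          · exact hF x hx y hy hxy
      · rw [Finset.sum_insert (fun h => heK' (hFK h)), mul_add]
        have h1 : (K.filter (fun f => conf e f)).card ≤ C * s e := by
          refine le_trans (le_of_eq ?_) (h e he)
          congr 1
          refine Finset.filter_congr fun f hf => ?_
          exact ⟨fun h => ⟨h, hmax f hf⟩, fun h => h.1⟩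
        omega

end Pool.Agent.Helper36.CL
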