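import Pool.Agent.Helper36.CL.Defs

/-!
# CL-WIN: many achievable sums in a short window (MP_c54260_co)

More than `2 * W` finite sets `X t ∋ 0` of removals `≤ W`, each with greatest common divisor at
most `γ`: the set of all sums has about `2 * W / γ` elements in some window of length `2 * W`.
-/

set_option autoImplicit false

namespace Pool.Agent.Helper36.CL

open Finset

private def IsSum {ι : Type*} (X : ι → Finset ℕ) (T : Finset ι) (s : ℕ) : Prop :=
  ∃ c : ι → ℕ, (∀ t ∈ T, c t ∈ X t) ∧ s = ∑ t ∈ T, c t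

open Classical in
private noncomputable def Wd {ι : Type*} (X : ι → Finset ℕ) (T : Finset ι) (W u : ℕ) :
    Finset ℕ := (Finset.Ico u (u + 2 * W)).filter (fun s => IsSum X T s)

private theorem mem_Wd {ι : Type*} {X : ι → Finset ℕ} {T : Finset ι} {W u s : ℕ} :
    s ∈ Wd X T W u ↔ (u ≤ s ∧ s < u + 2 * W) ∧ IsSum X T s := by
  classical
  unfold Wd
  rw [mem_filter, mem_Ico]

private theorem Wd_card {ι : Type*} (X : ι → Finset ℕ) (T : Finset ι) (W u : ℕ) :
    (Wd X T W u).card ≤ 2 * W := by
  classical
  unfold Wd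
  calc _ ≤ (Finset.Ico u (u + 2 * W)).card := card_filter_le _ _
    _ = 2 * W := by rw [Nat.card_Ico]; omega

private theorem IsSum.insert {ι : Type*} [DecidableEq ι] {X : ι → Finset ℕ} {T : Finset ι}
    {t : ι} (ht : t ∉ T) {s x : ℕ} (hs : IsSum X T s) (hx : x ∈ X t) :
    IsSum X (insert t T) (s + x) := by
  obtain ⟨c, hc, rfl⟩ := hs
  refine ⟨Function.update c t x, ?_, ?_⟩
  · intro t' ht'
    rcases mem_insert.1 ht' with rfl | h
    · simpa using hx
    · have hne : t' ≠ t := fun h' => ht (h' ▸ h)
      rw [Function.update_of_ne hne]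
      exact hc t' h
  · rw [Finset.sum_insert ht]
    have : ∑ i ∈ T, Function.update c t x i = ∑ i ∈ T, c i := by
      apply Finset.sum_congr rfl
      intro i hi
      have hne : i ≠ t := fun h' => ht (h' ▸ hi)
      rw [Function.update_of_ne hne]
    rw [this]
    simp [add_comm]

private theorem IsSum.mono {ι : Type*} [DecidableEq ι] {X : ι → Finset ℕ} {T T' : Finset ι}
    (hT : T' ⊆ T) (h0 : ∀ t ∈ T, 0 ∈ X t) {s : ℕ} (hs : IsSum X T' s) : IsSum X T s := by
  obtain ⟨c, hc, rfl⟩ := hs
  refine ⟨fun t => if t ∈ T' then c t else 0, ?_, ?_⟩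
  · intro t ht
    by_cases h : t ∈ T'
    · simpa [h] using hc t h
    · simpa [h] using h0 t ht
  · rw [← Finset.sum_filter, Finset.filter_mem_eq_inter, Finset.inter_eq_right.2 hT]

/-- `x` is a period of the word `P` on `[u, u + 2 W)`. -/
private def Per (P : ℕ → Prop) (u W x : ℕ) : Prop :=
  x ≤ W ∧ ∀ y, u ≤ y → y + x < u + 2 * W → (P y ↔ P (y + x))

private theorem Per.sub {P : ℕ → Prop} {u W x y : ℕ} (hx : Per P u W x) (hy : Per P u W y)
    (hyx : y ≤ x) : Per P u W (x - y) := by
  refine ⟨by have := hx.1; omega, ?_⟩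
  intro z hz hz'
  by_cases h : z + x < u + 2 * W
  · have h1 := hx.2 z hz h
    have h2 := hy.2 (z + (x - y)) (by omega) (by omega)
    have h3 : z + (x - y) + y = z + x := by omega
    rw [h3] at h2
    exact h1.trans h2.symm
  · have hxW := hx.1
    have hyW := hy.1
    have h2 := hy.2 (z - y) (by omega) (by omega)
    have h1 := hx.2 (z - y) (by omega) (by omega)
    have h3 : z - y + y = z := by omega
    have h4 : z - y + x = z + (x - y) := by omega
    rw [h3] at h2
    rw [h4] at h1
    exact h2.symm.trans h1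

private theorem Per.gcd {P : ℕ → Prop} {u W : ℕ} : ∀ (k x y : ℕ), x + y ≤ k →
    Per P u W x → Per P u W y → Per P u W (Nat.gcd x y) := by
  intro k
  induction k with
  | zero =>
    intro x y h hx _
    have : x = 0 := by omega
    have : y = 0 := by omega
    subst_vars
    simpa using hx
  | succ k ih =>
    intro x y h hx hy
    rcases Nat.eq_zero_or_pos x with rfl | hx0
    · simpa using hy
    rcases Nat.eq_zero_or_pos y with rfl | hy0
    · simpa using hx
    rcases le_total y x with h1 | h1
    · have h2 := ih (x - y) y (by omega) (hx.sub hy h1) hy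
      rwa [Nat.gcd_sub_self_left h1] at h2
    · have h2 := ih x (y - x) (by omega) hx (hy.sub hx h1)
      rwa [Nat.gcd_sub_self_right h1] at h2

private theorem Per.finset_gcd {P : ℕ → Prop} {u W : ℕ} (X : Finset ℕ)
    (hX : ∀ x ∈ X, Per P u W x) : Per P u W (X.gcd id) := by
  induction X using Finset.induction_on with
  | empty => simp [Per]
  | insert a s ha ih =>
    rw [Finset.gcd_insert]
    exact Per.gcd _ _ _ le_rfl (hX a (mem_insert_self a s))
      (ih fun x hx => hX x (mem_insert_of_mem hx))

/-- The conclusion from a stationary step. -/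
private theorem win_step {P : ℕ → Prop} {u W p : ℕ} (hp : Per P u W p) (hp0 : 0 < p)
    (S : Finset ℕ) (hS : ∀ s, u ≤ s → s < u + 2 * W → P s → s ∈ S)
    (s0 : ℕ) (h1 : u ≤ s0) (h2 : s0 < u + 2 * W) (h3 : P s0) :
    2 * W ≤ p * (S.card + 1) := by
  set r := u + (s0 - u) % p with hr
  have hall : ∀ i, r + i * p < u + 2 * W → (P r ↔ P (r + i * p)) := by
    intro i
    induction i with
    | zero => intro _; simp
    | succ i ih =>
      intro hi
      have hi' : r + i * p + p = r + (i + 1) * p := by ring
      have h5 := ih (by omega)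
      have h6 := hp.2 (r + i * p) (by omega) (by omega)
      rw [hi'] at h6
      exact h5.trans h6
  have hs0 : r + (s0 - u) / p * p = s0 := by
    have := Nat.mod_add_div' (s0 - u) p
    omega
  have hPr : P r := by
    have := hall ((s0 - u) / p) (by omega)
    rw [hs0] at this
    exact this.2 h3
  have hrlt : (s0 - u) % p < p := Nat.mod_lt _ hp0
  have hdiv : 2 * W / p * p ≤ 2 * W := Nat.div_mul_le_self _ _
  have hsub : (Finset.range (2 * W / p)).image (fun i => r + i * p) ⊆ S := by
    intro s hs
    obtain ⟨i, hi, rfl⟩ := mem_image.1 hs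
    rw [mem_range] at hi
    have h7 : (i + 1) * p ≤ 2 * W / p * p := Nat.mul_le_mul_right p hi
    have h8 : (i + 1) * p = i * p + p := by ring
    have h9 : r + i * p < u + 2 * W := by omega
    exact hS _ (by omega) h9 ((hall i h9).1 hPr)
  have hcard : 2 * W / p ≤ S.card := by
    have h9 := card_le_card hsub
    rw [Finset.card_image_of_injective, Finset.card_range] at h9
    · exact h9
    · intro i j hij
      simp only at hij
      have : i * p = j * p := by omega
      exact Nat.eq_of_mul_eq_mul_right hp0 this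
  have h10 : 2 * W < p * (2 * W / p + 1) := Nat.lt_mul_div_succ _ hp0
  calc 2 * W ≤ p * (2 * W / p + 1) := h10.le
    _ ≤ p * (S.card + 1) := Nat.mul_le_mul_left _ (by omega)

theorem win {ι : Type*} [DecidableEq ι] (T : Finset ι) (W γ : ℕ) (X : ι → Finset ℕ)
    (hm : 2 * W < T.card) (h0 : ∀ t ∈ T, 0 ∈ X t) (hW : ∀ t ∈ T, ∀ x ∈ X t, x ≤ W)
    (hg : ∀ t ∈ T, ∀ p, (∀ x ∈ X t, p ∣ x) → p ≤ γ) :
    ∃ (u : ℕ) (S : Finset ℕ), (∀ s ∈ S, u ≤ s ∧ s < u + 2 * W) ∧
      2 * W ≤ γ * (S.card + 1) ∧
      ∀ s ∈ S, ∃ c : ι → ℕ, (∀ t ∈ T, c t ∈ X t) ∧ s = ∑ t ∈ T, c t := by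
  classical
  rcases Nat.eq_zero_or_pos W with rfl | hWpos
  · exact ⟨0, ∅, by simp, by simp, by simp⟩
  by_contra hcon
  -- every `T'` of size `k` has a window with at least `k + 1` sums
  have key : ∀ k, ∀ T' ⊆ T, T'.card = k → ∃ u, k + 1 ≤ (Wd X T' W u).card := by
    intro k
    induction k with
    | zero =>
      intro T' _ hc
      rw [Finset.card_eq_zero] at hc
      subst hc
      refine ⟨0, ?_⟩
      rw [zero_add, Nat.one_le_iff_ne_zero, Finset.card_ne_zero]
      exact ⟨0, mem_Wd.2 ⟨⟨le_rfl, by omega⟩, fun _ => 0, by simp, by simp⟩⟩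
    | succ k ih =>
      intro T' hT' hc
      obtain ⟨t, T'', htT'', hins, hc''⟩ := Finset.card_eq_succ.1 hc
      have htT : t ∈ T := hT' (hins ▸ mem_insert_self t T'')
      have hT''T : T'' ⊆ T := fun x hx => hT' (hins ▸ mem_insert_of_mem hx)
      obtain ⟨u₁, hu₁⟩ := ih T'' hT''T hc''
      -- an optimal window
      obtain ⟨D, u, hu, hmax⟩ : ∃ D u, (Wd X T'' W u).card = D ∧
          ∀ u', (Wd X T'' W u').card ≤ D := by
        have hbd : ∀ u', (Wd X T'' W u').card ≤ 2 * W := Wd_card X T'' W
        obtain ⟨D, hD⟩ : ∃ D, D = Nat.findGreatest (fun d => ∃ u, d ≤ (Wd X T'' W u).card) (2 * W) :=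
          ⟨_, rfl⟩
        have hspec : ∃ u, D ≤ (Wd X T'' W u).card := by
          rw [hD]
          exact Nat.findGreatest_spec (P := fun d => ∃ u, d ≤ (Wd X T'' W u).card)
            (m := 0) (Nat.zero_le _) ⟨0, Nat.zero_le _⟩
        have hle : ∀ u', (Wd X T'' W u').card ≤ D := by
          intro u'
          rw [hD]
          exact Nat.le_findGreatest (hbd u') ⟨u', le_rfl⟩
        obtain ⟨u, hu⟩ := hspec
        exact ⟨D, u, le_antisymm (hle u) hu, hle⟩
      by_cases hbig : ∃ u', D + 1 ≤ (Wd X T' W u').card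
      · obtain ⟨u', hu'⟩ := hbig
        have := hmax u₁
        exact ⟨u', by omega⟩
      push Not at hbig
      exfalso
      apply hcon
      have hle' : ∀ u', (Wd X T' W u').card ≤ D := fun u' => by
        have := hbig u'
        omega
      have hsum : ∀ s x, IsSum X T'' s → x ∈ X t → IsSum X T' (s + x) := by
        intro s x hs hx
        rw [← hins]
        exact hs.insert htT'' hx
      have hT''T' : T'' ⊆ T' := fun x hx => hins ▸ mem_insert_of_mem hx
      have hmono : ∀ s, IsSum X T'' s → IsSum X T' s := fun s hs =>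
        hs.mono hT''T' (fun t ht => h0 t (hT' ht))
      -- equality of the sets of sums in the window
      have heq : Wd X T'' W u = Wd X T' W u := by
        apply Finset.eq_of_subset_of_card_le
        · intro s hs
          rw [mem_Wd] at hs ⊢
          exact ⟨hs.1, hmono s hs.2⟩
        · rw [hu]
          exact hle' u
      have heq2 : ∀ x ∈ X t, (Wd X T'' W u).image (fun s => s + x) = Wd X T' W (u + x) := by
        intro x hx
        apply Finset.eq_of_subset_of_card_le
        · intro s hs
          obtain ⟨s', hs', rfl⟩ := mem_image.1 hs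
          rw [mem_Wd] at hs' ⊢
          exact ⟨by omega, hsum s' x hs'.2 hx⟩
        · rw [Finset.card_image_of_injective _ (add_left_injective x), hu]
          exact hle' (u + x)
      have hper : ∀ x ∈ X t, Per (IsSum X T'') u W x := by
        intro x hx
        refine ⟨hW t htT x hx, ?_⟩
        intro y hy hyx
        constructor
        · intro h
          have h5 : y + x ∈ Wd X T' W u := mem_Wd.2 ⟨⟨by omega, hyx⟩, hsum y x h hx⟩
          rw [← heq, mem_Wd] at h5
          exact h5.2
        · intro h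
          have h5 : y + x ∈ Wd X T' W (u + x) := mem_Wd.2 ⟨⟨by omega, by omega⟩, hmono _ h⟩
          rw [← heq2 x hx, mem_image] at h5
          obtain ⟨s', hs', he⟩ := h5
          have : s' = y := by omega
          subst this
          exact (mem_Wd.1 hs').2
      have hgcd := Per.finset_gcd (X t) hper
      set p := (X t).gcd id with hp
      have hpdvd : ∀ x ∈ X t, p ∣ x := fun x hx => Finset.gcd_dvd hx
      have hpγ : p ≤ γ := hg t htT p hpdvd
      have hp0 : 0 < p := by
        rw [Nat.pos_iff_ne_zero]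
        intro hp0
        rw [hp0] at hpdvd
        have := hg t htT (γ + 1) (fun x hx => by
          have h9 := hpdvd x hx
          rw [Nat.zero_dvd.1 h9]
          exact dvd_zero _)
        omega
      have hne : (Wd X T'' W u).Nonempty := by
        rw [← Finset.card_pos, hu]
        have := hmax u₁
        omega
      obtain ⟨s0, hs0⟩ := hne
      rw [mem_Wd] at hs0
      refine ⟨u, Wd X T'' W u, fun s hs => (mem_Wd.1 hs).1, ?_, ?_⟩
      · refine (win_step hgcd hp0 (Wd X T'' W u) (fun s h1 h2 h3 => mem_Wd.2 ⟨⟨h1, h2⟩, h3⟩)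
          s0 hs0.1.1 hs0.1.2 hs0.2).trans ?_
        exact Nat.mul_le_mul_right _ hpγ
      · intro s hs
        exact (mem_Wd.1 hs).2.mono hT''T h0
  obtain ⟨T', hT', hc⟩ := Finset.exists_subset_card_eq hm.le
  obtain ⟨u, hu⟩ := key (2 * W) T' hT' hc
  have := Wd_card X T' W u
  omega

end Pool.Agent.Helper36.CL
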