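import Pool.Agent.Helper36.CL.Gf2
import Pool.Agent.Helper36.CL.Drop
import Pool.Agent.Helper36.CL.Ext
import Pool.Agent.Helper36.CL.Count
import Pool.Agent.Helper36.CL.Lam
import Pool.Agent.Helper36.CL.Cyc
import Pool.Agent.Helper36.CL.Clu
import Pool.Agent.Helper36.CL.Planar
import Pool.Agent.Helper36.CL.Win
import Pool.Agent.Helper36.CL.Gcd
import Pool.Agent.Helper36.CL.Blk
import Pool.Agent.Helper36.CL.Sel

/-!
# The modules of the CL library
-/
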