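import Pool.Agent.Helper36.CL.Gad2
import Pool.Agent.Helper36.CL.Mods

/-!
# Many gadgets: clustered lengths from a large nonsingular family
-/

set_option autoImplicit false

namespace Pool.Agent.Helper36.CL

open Finset

variable {G : SimpleGraph ℕ} {n : ℕ} {K : Finset (ℕ × ℕ)} {w : ℕ}

theorem same_block_sub {x y w i : ℕ} (hw : 1 ≤ w) (hx : x / w = i) (hy : y / w = i) :
    x - y < w := by
  have h1 := Nat.div_add_mod x w
  have h2 := Nat.div_add_mod y w
  have h3 := Nat.mod_lt x (show w > 0 by omega)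
  rw [hx] at h1
  rw [hy] at h2
  omega

theorem cell_lt (hK : Chords G n K) (hblk : ∀ e ∈ K, e.1 / w ≠ e.2 / w) {e : ℕ × ℕ} (he : e ∈ K) :
    e.1 / w < e.2 / w := by
  have h1 := (hK.1 e he).1
  exact lt_of_le_of_ne (Nat.div_le_div_right (by omega)) (hblk e he)

theorem gad2_ok_cell (hK : Chords G n K) (hblk : ∀ e ∈ K, e.1 / w ≠ e.2 / w) {c e f : ℕ × ℕ}
    (he : e ∈ K) (hf : f ∈ K) (he1 : e.1 / w = c.1) (he2 : e.2 / w = c.2)
    (hf1 : f.1 / w = c.1) (hf2 : f.2 / w = c.2) (h1 : e.1 ≠ f.1) (h2 : e.2 ≠ f.2) :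
    (gad2 e f).Ok G n := by
  have h3 := cell_lt hK hblk he
  rw [he1, he2] at h3
  refine gad2_ok (hK.1 e he) (hK.1 f hf) h1 h2 ?_ ?_
  · apply lt_of_div_lt (w := w); rw [he1, hf2]; exact h3
  · apply lt_of_div_lt (w := w); rw [hf1, he2]; exact h3

theorem gad2_s (e f : ℕ × ℕ) :
    (gad2 e f).s = (max e.1 f.1 - min e.1 f.1) + (max e.2 f.2 - min e.2 f.2) := rfl

/-- Replacing gadgets in a nonsingular family keeps the family good. -/
theorem hasF_of_family {ι : Type*} [DecidableEq ι] (hG : Ham G n) {f : ι → Gad} {J : Finset ι}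
    (hF : Fam G n f J) (hN : Nons f J) :
    ∑ i ∈ J, ((f i).s - 2) ≤ n ∧ HasF G (n - ∑ i ∈ J, ((f i).s - 2)) := by
  have hC := (nons_iff_conn hG.1 hF).mp hN
  obtain ⟨m, φ, hE⟩ := exists_ext hG hF hC
  have h1 := ext_count hF hE
  have h2 := ext_hasF hG hF hE
  have h3 : n - ∑ i ∈ J, ((f i).s - 2) = m := by omega
  rw [h3]
  exact ⟨by omega, h2⟩

theorem caseA (hG : Ham G n) (hK : Chords G n K) (hw : 1 ≤ w)
    (hblk : ∀ e ∈ K, e.1 / w ≠ e.2 / w) {I : Finset (ℕ × ℕ)}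
    {τ : ℕ × ℕ → (ℕ × ℕ) × (ℕ × ℕ) × (ℕ × ℕ)} (hSt : St K w I τ) :
    ∃ (x : ℕ) (S : Finset ℕ), (∀ s ∈ S, x ≤ s ∧ s ≤ x + 2 * w ∧ HasF G s) ∧
      min (I.card / 100) (w / 2) ≤ S.card := by
  classical
  obtain ⟨hT, hD, hN⟩ := hSt
  set f : ℕ × ℕ → Gad := fun c => og (τ c) with hf
  set α : ℕ × ℕ → ℕ := fun c => (gad2 (τ c).1 (τ c).2.1).s with hα
  set β : ℕ × ℕ → ℕ := fun c => (gad2 (τ c).2.1 (τ c).2.2).s with hβ
  -- basic facts about the three gadgets
  have hok : ∀ c ∈ I, (f c).Ok G n ∧ (gad2 (τ c).1 (τ c).2.1).Ok G n ∧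
      (gad2 (τ c).2.1 (τ c).2.2).Ok G n := by
    intro c hc
    obtain ⟨⟨a1, a2, a3⟩, ⟨b1, b2, b3⟩, ⟨c1, c2, c3⟩, h1, h2⟩ := hT c hc
    unfold Btw at h1 h2
    refine ⟨gad2_ok_cell hK hblk a1 c1 a2 a3 c2 c3 (by omega) (by omega),
      gad2_ok_cell hK hblk a1 b1 a2 a3 b2 b3 (by omega) (by omega),
      gad2_ok_cell hK hblk b1 c1 b2 b3 c2 c3 (by omega) (by omega)⟩
  have hin : ∀ c ∈ I, InCell w c (f c) ∧ InCell w c (gad2 (τ c).1 (τ c).2.1) ∧
      InCell w c (gad2 (τ c).2.1 (τ c).2.2) := by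
    intro c hc
    obtain ⟨⟨a1, a2, a3⟩, ⟨b1, b2, b3⟩, ⟨c1, c2, c3⟩, h1, h2⟩ := hT c hc
    exact ⟨gad2_inCell a2 a3 c2 c3, gad2_inCell a2 a3 b2 b3, gad2_inCell b2 b3 c2 c3⟩
  have htw : ∀ c ∈ I, (f c).tw = (gad2 (τ c).1 (τ c).2.1).tw ∧
      (f c).tw = (gad2 (τ c).2.1 (τ c).2.2).tw := by
    intro c hc
    obtain ⟨_, _, _, h1, h2⟩ := hT c hc
    unfold Btw at h1 h2
    simp only [hf, og, gad2, decide_eq_decide]
    constructor <;> constructor <;> intro h3 <;> constructor <;> intro h4 <;> omega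
  have hsum : ∀ c ∈ I, (f c).s = α c + β c := by
    intro c hc
    obtain ⟨_, _, _, h1, h2⟩ := hT c hc
    unfold Btw at h1 h2
    simp only [hf, og, hα, hβ, gad2_s]
    omega
  have hα2 : ∀ c ∈ I, 2 ≤ α c ∧ α c ≤ 2 * w := by
    intro c hc
    obtain ⟨⟨a1, a2, a3⟩, ⟨b1, b2, b3⟩, ⟨c1, c2, c3⟩, h1, h2⟩ := hT c hc
    unfold Btw at h1 h2
    have k1 := same_block_sub hw a2 b2
    have k2 := same_block_sub hw b2 a2
    have k3 := same_block_sub hw a3 b3
    have k4 := same_block_sub hw b3 a3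
    simp only [hα, gad2_s]
    omega
  have hβ2 : ∀ c ∈ I, 2 ≤ β c ∧ β c ≤ 2 * w := by
    intro c hc
    obtain ⟨⟨a1, a2, a3⟩, ⟨b1, b2, b3⟩, ⟨c1, c2, c3⟩, h1, h2⟩ := hT c hc
    unfold Btw at h1 h2
    have k1 := same_block_sub hw c2 b2
    have k2 := same_block_sub hw b2 c2
    have k3 := same_block_sub hw c3 b3
    have k4 := same_block_sub hw b3 c3
    simp only [hβ, gad2_s]
    omega
  have hFam : ∀ J ⊆ I, Fam G n f J := by
    intro J hJ
    refine ⟨fun c hc => (hok c (hJ hc)).1, fun c hc d hd hcd => ?_⟩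
    exact (hin c (hJ hc)).1.dis (hin d (hJ hd)).1 (hD c (hJ hc) d (hJ hd) hcd)
  obtain ⟨x, S, hS, hcard, hrem⟩ := clu (fun J => Nons f J) I hN
    (fun J hJ hPJ X hX hc => drop_matrix (Amat f) J
      (fun i hi j hj => Amat_symm (hFam J hJ) hi hj) hPJ X hX hc) α β w hα2 hβ2
  -- every removal in `S` is realised
  have key : ∀ s ∈ S, s ≤ n ∧ HasF G (n - s) := by
    intro s hs
    obtain ⟨J, hJ, hPJ, ρ, hρ, rfl⟩ := hrem s hs
    set f' : ℕ × ℕ → Gad := fun c => if ρ c = α c then gad2 (τ c).1 (τ c).2.1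
      else if ρ c = β c then gad2 (τ c).2.1 (τ c).2.2 else f c with hf'
    have hcase : ∀ c ∈ J, (f' c).Ok G n ∧ InCell w c (f' c) ∧ (f c).tw = (f' c).tw ∧
        (f' c).s = ρ c := by
      intro c hc
      have hcI := hJ hc
      by_cases h1 : ρ c = α c
      · have : f' c = gad2 (τ c).1 (τ c).2.1 := by simp only [hf', h1, if_true]
        rw [this]
        exact ⟨(hok c hcI).2.1, (hin c hcI).2.1, (htw c hcI).1, h1.symm⟩
      · by_cases h2 : ρ c = β c
        · have : f' c = gad2 (τ c).2.1 (τ c).2.2 := by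
            simp only [hf', if_neg h1, if_pos h2]
          rw [this]
          exact ⟨(hok c hcI).2.2, (hin c hcI).2.2, (htw c hcI).2, h2.symm⟩
        · have : f' c = f c := by simp only [hf', if_neg h1, if_neg h2]
          rw [this]
          refine ⟨(hok c hcI).1, (hin c hcI).1, rfl, ?_⟩
          rw [hsum c hcI]
          rcases hρ c hc with h3 | h3 | h3
          · exact absurd h3 h1
          · exact absurd h3 h2
          · exact h3.symm
    have hF' : Fam G n f' J := by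
      refine ⟨fun c hc => (hcase c hc).1, fun c hc d hd hcd => ?_⟩
      exact (hcase c hc).2.1.dis (hcase d hd).2.1 (hD c (hJ hc) d (hJ hd) hcd)
    have hN' : Nons f' J := by
      refine Nons_congr (f := f) ?_ hPJ
      refine Amat_congr w id (fun c hc => (hin c (hJ hc)).1) (fun c hc => (hcase c hc).2.1)
        (fun c hc => (hcase c hc).2.2.1) (fun c hc => ?_) (fun c hc => ?_)
        (fun c hc d hd hcd => hD c (hJ hc) d (hJ hd) hcd)
      · have := (hok c (hJ hc)).1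
        exact ⟨this.1, this.2.1, this.2.2.1⟩
      · have := (hcase c hc).1
        exact ⟨this.1, this.2.1, this.2.2.1⟩
    have h3 := hasF_of_family hG hF' hN'
    have h4 : ∑ c ∈ J, ((f' c).s - 2) = ∑ c ∈ J, (ρ c - 2) :=
      Finset.sum_congr rfl fun c hc => by rw [(hcase c hc).2.2.2]
    rw [h4] at h3
    exact h3
  refine ⟨n - x - 2 * w, S.image (fun s => n - s), ?_, ?_⟩
  · intro s hs
    obtain ⟨t, ht, rfl⟩ := Finset.mem_image.mp hs
    have h1 := hS t ht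
    have h2 := key t ht
    exact ⟨by omega, by omega, h2.2⟩
  · rw [Finset.card_image_of_injOn]
    · exact hcard
    · intro a ha b hb hab
      have h1 := (key a ha).1
      have h2 := (key b hb).1
      simp only at hab
      omega

end Pool.Agent.Helper36.CL
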