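import Pool.Agent.Helper36.CL.PosGraph
import Pool.Agent.Helper36.CL.CaseA
import Pool.Agent.Helper36.CL.Mods

/-!
# Few gadgets: the remaining chords are planar relative to the cycle of a maximal family
-/

set_option autoImplicit false

namespace Pool.Agent.Helper36.CL

open Finset

variable {G : SimpleGraph ℕ} {n m : ℕ} {K : Finset (ℕ × ℕ)} {w : ℕ} {φ : ℕ → ℕ}
  {I J : Finset (ℕ × ℕ)} {τ : ℕ × ℕ → (ℕ × ℕ) × (ℕ × ℕ) × (ℕ × ℕ)}

theorem fam_of (hK : Chords G n K) (hblk : ∀ e ∈ K, e.1 / w ≠ e.2 / w)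
    (hT : ∀ c ∈ J, Tri K w c (τ c)) (hD : ∀ c ∈ J, ∀ d ∈ J, c ≠ d → Dj c d) :
    Fam G n (fun c => og (τ c)) J := by
  refine ⟨fun c hc => ?_, fun c hc d hd hcd => ?_⟩
  · obtain ⟨⟨a1, a2, a3⟩, ⟨b1, b2, b3⟩, ⟨c1, c2, c3⟩, h1, h2⟩ := hT c hc
    unfold Btw at h1 h2
    exact gad2_ok_cell hK hblk a1 c1 a2 a3 c2 c3 (by omega) (by omega)
  · obtain ⟨⟨a1, a2, a3⟩, ⟨b1, b2, b3⟩, ⟨c1, c2, c3⟩, h1, h2⟩ := hT c hc
    obtain ⟨⟨a1', a2', a3'⟩, ⟨b1', b2', b3'⟩, ⟨c1', c2', c3'⟩, h1', h2'⟩ := hT d hd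
    exact (gad2_inCell a2 a3 c2 c3).dis (gad2_inCell a2' a3' c2' c3') (hD c hc d hd hcd)

/-- The untouched blocks. -/
noncomputable def unt (N w : ℕ) (I : Finset (ℕ × ℕ)) (x0 : ℕ) : Finset ℕ := by
  classical
  exact (Finset.range N).filter (fun t => (∀ c ∈ I, t ≠ c.1 ∧ t ≠ c.2) ∧ t ≠ x0 / w)

theorem mem_unt {N w x0 t : ℕ} {I : Finset (ℕ × ℕ)} :
    t ∈ unt N w I x0 ↔ t < N ∧ (∀ c ∈ I, t ≠ c.1 ∧ t ≠ c.2) ∧ t ≠ x0 / w := by
  unfold unt
  simp only [Finset.mem_filter, Finset.mem_range]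

theorem og_ends {c : ℕ × ℕ} {t : (ℕ × ℕ) × (ℕ × ℕ) × (ℕ × ℕ)} (h : Tri K w c t) :
    InCell w c (og t) := by
  obtain ⟨⟨a1, a2, a3⟩, ⟨b1, b2, b3⟩, ⟨c1, c2, c3⟩, h1, h2⟩ := h
  exact gad2_inCell a2 a3 c2 c3

theorem div_of_between {a y b w i : ℕ} (ha : a / w = i) (hb : b / w = i) (h1 : a ≤ y)
    (h2 : y ≤ b) : y / w = i := by
  have h3 := Nat.div_le_div_right (c := w) h1
  have h4 := Nat.div_le_div_right (c := w) h2
  omega

theorem unt_used {N x0 : ℕ} (hT : ∀ c ∈ I, Tri K w c (τ c)) {x : ℕ} (hx : x < n)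
    (hU : x / w ∈ unt N w I x0) : Used n (fun c => og (τ c)) I x := by
  refine ⟨hx, fun c hc => ?_⟩
  obtain ⟨h1, h2, h3, h4⟩ := og_ends (hT c hc)
  have hU' := (mem_unt.mp hU).2.1 c hc
  constructor
  · rintro ⟨h5, h6⟩
    exact hU'.1 (div_of_between h1 h2 h5.le h6.le)
  · rintro ⟨h5, h6⟩
    exact hU'.2 (div_of_between h3 h4 h5.le h6.le)

theorem unt_uncut {N x0 : ℕ} (hT : ∀ c ∈ I, Tri K w c (τ c)) {x : ℕ}
    (hU : x / w ∈ unt N w I x0) : ¬ Cut (fun c => og (τ c)) I x := by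
  rintro ⟨c, hc, h⟩
  obtain ⟨h1, h2, h3, h4⟩ := og_ends (hT c hc)
  have hU' := (mem_unt.mp hU).2.1 c hc
  rcases h with ⟨h5, h6⟩ | ⟨h5, h6⟩
  · exact hU'.1 (div_of_between h1 h2 h5 h6.le)
  · exact hU'.2 (div_of_between h3 h4 h5 h6.le)

theorem unt_run {N : ℕ} (hw : 1 ≤ w) (hT : ∀ c ∈ I, Tri K w c (τ c))
    (hE : Ext n (fun c => og (τ c)) I m φ) {t : ℕ} (ht : t ∈ unt N w I (φ 0)) (htn : t * w < n) :
    ∃ p p', 0 < p ∧ p' < m ∧ Run φ p p' (t * w) (min (t * w + w) n - 1) := by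
  have hdiv : ∀ y, t * w ≤ y → y ≤ min (t * w + w) n - 1 → y / w = t := by
    intro y h1 h2
    have h3 : y < t * w + w := by omega
    rw [Nat.div_eq_iff (by omega)]
    constructor
    · linarith
    · omega
  refine exists_run hE _ _ (by omega) (by omega) ?_ ?_ ?_
  · intro y h1 h2
    exact unt_used hT (N := N) (x0 := φ 0) (by omega) (by rw [hdiv y h1 h2]; exact ht)
  · intro y h1 h2
    exact unt_uncut hT (N := N) (x0 := φ 0) (by rw [hdiv y h1 (by omega)]; exact ht)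
  · intro y h1 h2 h3
    apply (mem_unt.mp ht).2.2
    rw [h3]
    exact (hdiv y h1 h2).symm

/-- Number of chords lost by restricting to untouched blocks. -/
theorem card_unt {N x0 : ℕ} (hK : Chords G n K) (hw : 1 ≤ w) (hN : n ≤ N * w) :
    K.card ≤ (K.filter (fun e => e.1 / w ∈ unt N w I x0 ∧ e.2 / w ∈ unt N w I x0)).card +
      (2 * I.card + 1) * w := by
  classical
  set U := unt N w I x0 with hU
  set B : Finset ℕ := (Finset.range N) \ U with hB
  have hBcard : B.card ≤ 2 * I.card + 1 := by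
    have hsub : B ⊆ (I.image Prod.fst ∪ I.image Prod.snd) ∪ {x0 / w} := by
      intro t ht
      rw [hB, Finset.mem_sdiff, Finset.mem_range, hU, mem_unt] at ht
      obtain ⟨h1, h2⟩ := ht
      by_contra h3
      apply h2
      simp only [Finset.mem_union, Finset.mem_image, Finset.mem_singleton, not_or, not_exists,
        not_and] at h3
      refine ⟨h1, fun c hc => ⟨fun h4 => ?_, fun h4 => ?_⟩, h3.2⟩
      · exact h3.1.1 c hc h4.symm
      · exact h3.1.2 c hc h4.symm
    refine (Finset.card_le_card hsub).trans ?_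
    refine (Finset.card_union_le _ _).trans ?_
    have h1 := Finset.card_union_le (I.image Prod.fst) (I.image Prod.snd)
    have h2 : (I.image Prod.fst).card ≤ I.card := Finset.card_image_le
    have h3 : (I.image Prod.snd).card ≤ I.card := Finset.card_image_le
    rw [Finset.card_singleton]
    omega
  have hlost : (K.filter (fun e => ¬ (e.1 / w ∈ U ∧ e.2 / w ∈ U))).card ≤ B.card * w := by
    have h1 : (B.biUnion (fun t => Finset.Ico (t * w) (t * w + w))).card ≤ B.card * w := by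
      refine Finset.card_biUnion_le_card_mul _ _ _ fun t _ => ?_
      rw [Nat.card_Ico]; omega
    refine le_trans ?_ h1
    refine Finset.card_le_card_of_injOn (fun e => if e.1 / w ∈ U then e.2 else e.1) ?_ ?_
    · intro e he
      have he' := Finset.mem_filter.mp he
      have hch := hK.1 e he'.1
      have hblock : ∀ x, x < n → x / w ∉ U →
          x ∈ B.biUnion (fun t => Finset.Ico (t * w) (t * w + w)) := by
        intro x hx hxU
        refine Finset.mem_biUnion.mpr ⟨x / w, ?_, ?_⟩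
        · rw [hB, Finset.mem_sdiff, Finset.mem_range]
          refine ⟨?_, hxU⟩
          rw [Nat.div_lt_iff_lt_mul (by omega)]
          omega
        · rw [Finset.mem_Ico]
          have h2 := Nat.div_add_mod x w
          have h3 := Nat.mod_lt x (show w > 0 by omega)
          have h4 : w * (x / w) = x / w * w := Nat.mul_comm _ _
          omega
      by_cases h2 : e.1 / w ∈ U
      · simp only [h2, if_true]
        refine hblock e.2 hch.2.1 fun h3 => he'.2 ⟨h2, h3⟩
      · simp only [h2, if_false]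
        refine hblock e.1 ?_ h2
        have := hch.1
        have := hch.2.1
        omega
    · intro e he e' he' hee
      by_contra hne
      have h3 := hK.2 e (Finset.mem_filter.mp he).1 e' (Finset.mem_filter.mp he').1 hne
      simp only at hee
      split_ifs at hee
      · exact h3.2.2.2 hee
      · exact h3.2.2.1 hee
      · exact h3.2.1 hee
      · exact h3.1 hee
  have hsplit := Finset.card_filter_add_card_filter_not (s := K)
    (fun e => e.1 / w ∈ U ∧ e.2 / w ∈ U)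
  have h5 : B.card * w ≤ (2 * I.card + 1) * w := Nat.mul_le_mul_right w hBcard
  omega

end Pool.Agent.Helper36.CL
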