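import Pool.Agent.Helper36.CL.CaseB
import Pool.Agent.Helper36.CL.Mods

/-!
# Few gadgets: the main argument
-/

set_option autoImplicit false

namespace Pool.Agent.Helper36.CL

open Finset

variable {G : SimpleGraph ℕ} {n m : ℕ} {K : Finset (ℕ × ℕ)} {w : ℕ} {φ : ℕ → ℕ}
  {I J : Finset (ℕ × ℕ)} {τ : ℕ × ℕ → (ℕ × ℕ) × (ℕ × ℕ) × (ℕ × ℕ)}

/-- Maximality excludes adding one crossing triple. -/
theorem no_add_one (hG : Ham G n) (hK : Chords G n K) (hblk : ∀ e ∈ K, e.1 / w ≠ e.2 / w)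
    (hSt : St K w I τ) (hmax : ∀ I' τ', St K w I' τ' → I'.card ≤ I.card)
    (hE : Ext n (fun c => og (τ c)) I m φ) {c : ℕ × ℕ} {T : (ℕ × ℕ) × (ℕ × ℕ) × (ℕ × ℕ)}
    (hT : Tri K w c T) (hD : ∀ d ∈ I, Dj c d) {p p' q q' : ℕ}
    (hP : PosGad φ (og T) p p' q q') (hq : q' < m)
    (h1 : (og T).ch (φ p) (φ q) ∨ (og T).ch (φ q) (φ p))
    (h2 : (og T).ch (φ p') (φ q') ∨ (og T).ch (φ q') (φ p')) : False := by
  classical
  have hcI : c ∉ I := fun h => (hD c h).1 rfl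
  set τ' := Function.update τ c T with hτ'
  have hτc : τ' c = T := Function.update_self _ _ _
  have hτi : ∀ i ∈ I, τ' i = τ i := by
    intro i hi
    have hic : i ≠ c := fun h => hcI (h ▸ hi)
    exact Function.update_of_ne hic _ _
  have hT' : ∀ d ∈ insert c I, Tri K w d (τ' d) := by
    intro d hd
    rcases Finset.mem_insert.mp hd with h | h
    · subst h
      rw [hτc]
      exact hT
    · rw [hτi d h]
      exact hSt.1 d h
  have hD' : ∀ d ∈ insert c I, ∀ e ∈ insert c I, d ≠ e → Dj d e := by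
    intro d hd e he hde
    rcases Finset.mem_insert.mp hd with h | h <;> rcases Finset.mem_insert.mp he with h' | h'
    · exact absurd (h.trans h'.symm) hde
    · rw [h]; exact hD e h'
    · rw [h']; exact (hD d h).symm'
    · exact hSt.2.1 d h e h' hde
  have hedge : ∀ x y, ((og T).ch x y ∨ (og T).ch y x) →
      Hr n (fun c => og (τ' c)) (insert c I) x y := by
    rintro x y (h | h)
    · exact Or.inl (Or.inr (Or.inr ⟨c, Finset.mem_insert_self _ _, by
        show (og (τ' c)).ch _ _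
        rw [hτc]
        exact h⟩))
    · exact Or.inr (Or.inr (Or.inr ⟨c, Finset.mem_insert_self _ _, by
        show (og (τ' c)).ch _ _
        rw [hτc]
        exact h⟩))
  have hC : Conn n (fun c => og (τ' c)) (insert c I) :=
    conn_add_one (f' := fun c => og (τ' c)) hE (fun i hi => by rw [hτi i hi])
      (p := p) (p' := p') (q := q) (q' := q') (by rw [hτc]; exact hP) hq (hedge _ _ h1)
      (hedge _ _ h2)
  have hN := (nons_iff_conn hG.1 (fam_of hK hblk hT' hD')).mpr hC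
  have h3 := hmax (insert c I) τ' ⟨hT', hD', hN⟩
  rw [Finset.card_insert_of_notMem hcI] at h3
  omega

/-- Maximality excludes adding two crossing nested triples. -/
theorem no_add_two (hG : Ham G n) (hK : Chords G n K) (hblk : ∀ e ∈ K, e.1 / w ≠ e.2 / w)
    (hSt : St K w I τ) (hmax : ∀ I' τ', St K w I' τ' → I'.card ≤ I.card)
    (hE : Ext n (fun c => og (τ c)) I m φ) {c d : ℕ × ℕ}
    {T T2 : (ℕ × ℕ) × (ℕ × ℕ) × (ℕ × ℕ)}
    (hT : Tri K w c T) (hD : ∀ e ∈ I, Dj c e) (hT2 : Tri K w d T2) (hD2 : ∀ e ∈ I, Dj d e)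
    (hcd : Dj c d) {p p' q q' r r' t t' : ℕ}
    (hP : PosGad φ (og T) p p' q q') (hQ : PosGad φ (og T2) r r' t t')
    (hpr : p' < r) (hrq : r' < q) (hqt : q' < t) (ht : t' < m)
    (h1 : (og T).ch (φ p) (φ q') ∨ (og T).ch (φ q') (φ p))
    (h2 : (og T).ch (φ p') (φ q) ∨ (og T).ch (φ q) (φ p'))
    (h3 : (og T2).ch (φ r) (φ t') ∨ (og T2).ch (φ t') (φ r))
    (h4 : (og T2).ch (φ r') (φ t) ∨ (og T2).ch (φ t) (φ r')) : False := by
  classical
  have hcI : c ∉ I := fun h => (hD c h).1 rfl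
  have hdI : d ∉ I := fun h => (hD2 d h).1 rfl
  have hcd' : c ≠ d := fun h => hcd.1 (by rw [h])
  set τ' := Function.update (Function.update τ d T2) c T with hτ'
  have hτc : τ' c = T := Function.update_self _ _ _
  have hτd : τ' d = T2 := by
    rw [hτ', Function.update_of_ne hcd'.symm, Function.update_self]
  have hτi : ∀ i ∈ I, τ' i = τ i := by
    intro i hi
    have hic : i ≠ c := fun h => hcI (h ▸ hi)
    have hid : i ≠ d := fun h => hdI (h ▸ hi)
    rw [hτ', Function.update_of_ne hic, Function.update_of_ne hid]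
  set J := insert c (insert d I) with hJ
  have hcJ : c ∈ J := Finset.mem_insert_self _ _
  have hdJ : d ∈ J := Finset.mem_insert_of_mem (Finset.mem_insert_self _ _)
  have hcases : ∀ e ∈ J, e = c ∨ e = d ∨ e ∈ I := by
    intro e he
    rcases Finset.mem_insert.mp he with h | h
    · exact Or.inl h
    · rcases Finset.mem_insert.mp h with h | h
      · exact Or.inr (Or.inl h)
      · exact Or.inr (Or.inr h)
  have hT' : ∀ e ∈ J, Tri K w e (τ' e) := by
    intro e he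
    rcases hcases e he with h | h | h
    · rw [h, hτc]; exact hT
    · rw [h, hτd]; exact hT2
    · rw [hτi e h]; exact hSt.1 e h
  have hD' : ∀ e ∈ J, ∀ g ∈ J, e ≠ g → Dj e g := by
    intro e he g hg heg
    rcases hcases e he with h | h | h <;> rcases hcases g hg with h' | h' | h'
    · exact absurd (h.trans h'.symm) heg
    · rw [h, h']; exact hcd
    · rw [h]; exact hD g h'
    · rw [h, h']; exact hcd.symm'
    · exact absurd (h.trans h'.symm) heg
    · rw [h]; exact hD2 g h'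
    · rw [h']; exact (hD e h).symm'
    · rw [h']; exact (hD2 e h).symm'
    · exact hSt.2.1 e h g h' heg
  have hedge : ∀ x y, ((og T).ch x y ∨ (og T).ch y x) →
      Hr n (fun c => og (τ' c)) J x y := by
    rintro x y (h | h)
    · exact Or.inl (Or.inr (Or.inr ⟨c, hcJ, by
        show (og (τ' c)).ch _ _
        rw [hτc]
        exact h⟩))
    · exact Or.inr (Or.inr (Or.inr ⟨c, hcJ, by
        show (og (τ' c)).ch _ _
        rw [hτc]
        exact h⟩))
  have hedge2 : ∀ x y, ((og T2).ch x y ∨ (og T2).ch y x) →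
      Hr n (fun c => og (τ' c)) J x y := by
    rintro x y (h | h)
    · exact Or.inl (Or.inr (Or.inr ⟨d, hdJ, by
        show (og (τ' d)).ch _ _
        rw [hτd]
        exact h⟩))
    · exact Or.inr (Or.inr (Or.inr ⟨d, hdJ, by
        show (og (τ' d)).ch _ _
        rw [hτd]
        exact h⟩))
  have hC : Conn n (fun c => og (τ' c)) J :=
    conn_add_two (f' := fun c => og (τ' c)) hE (fun i hi => by rw [hτi i hi])
      (p := p) (p' := p') (q := q) (q' := q') (r := r) (r' := r') (t := t) (t' := t')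
      (by rw [hτc]; exact hP) (by rw [hτd]; exact hQ) hpr hrq hqt ht (hedge _ _ h1)
      (hedge _ _ h2) (hedge2 _ _ h3) (hedge2 _ _ h4)
  have hN := (nons_iff_conn hG.1 (fam_of hK hblk hT' hD')).mpr hC
  have h5 := hmax J τ' ⟨hT', hD', hN⟩
  rw [hJ, Finset.card_insert_of_notMem, Finset.card_insert_of_notMem hdI] at h5
  · omega
  · intro h
    rcases Finset.mem_insert.mp h with h | h
    · exact hcd' h
    · exact hcI h

/-- the chord, in position order -/
noncomputable def pch (m : ℕ) (φ : ℕ → ℕ) (e : ℕ × ℕ) : ℕ × ℕ :=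
  (min (pos m φ e.1) (pos m φ e.2), max (pos m φ e.1) (pos m φ e.2))

theorem caseB (hG : Ham G n) (hK : Chords G n K) (hw : 1 ≤ w)
    (hblk : ∀ e ∈ K, e.1 / w ≠ e.2 / w) (hSt : St K w I τ)
    (hmax : ∀ I' τ', St K w I' τ' → I'.card ≤ I.card) (N : ℕ) (hN : n ≤ N * w) (C0 : ℕ)
    (hC0 : (K.image (fun e => (e.1 / w, e.2 / w))).card ≤ C0) :
    ∃ (x : ℕ) (S : Finset ℕ), (∀ s ∈ S, x ≤ s ∧ s ≤ x + 2 * w ∧ HasF G s) ∧
      K.card ≤ (2 * I.card + 1) * w + 4 * C0 + 4 * N * S.card := by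
  classical
  have hFam := fam_of hK hblk hSt.1 hSt.2.1
  have hConn := (nons_iff_conn hG.1 hFam).mp hSt.2.2
  obtain ⟨m, φ, hE⟩ := exists_ext hG hFam hConn
  have hm3 := hE.three
  set U := unt N w I (φ 0) with hU
  set KU := K.filter (fun e => e.1 / w ∈ U ∧ e.2 / w ∈ U) with hKU
  have hcardU : K.card ≤ KU.card + (2 * I.card + 1) * w := card_unt hK hw hN
  -- runs of the untouched blocks
  have hex : ∀ t, ∃ p p', t ∈ U → t * w < n →
      (0 < p ∧ p' < m ∧ Run φ p p' (t * w) (min (t * w + w) n - 1)) := by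
    intro t
    by_cases h : t ∈ U ∧ t * w < n
    · obtain ⟨p, p', h1⟩ := unt_run hw hSt.1 hE h.1 h.2
      exact ⟨p, p', fun _ _ => h1⟩
    · exact ⟨0, 0, fun h1 h2 => absurd ⟨h1, h2⟩ h⟩
  choose st en hrun using hex
  -- block of a vertex
  have hbv : ∀ x, x < n → x / w * w < n ∧ x / w * w ≤ x ∧ x ≤ min (x / w * w + w) n - 1 := by
    intro x hx
    have h2 := Nat.div_add_mod x w
    have h3 := Nat.mod_lt x (show w > 0 by omega)
    have h4 : w * (x / w) = x / w * w := Nat.mul_comm _ _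
    omega
  have hused : ∀ x, x < n → x / w ∈ U → Used n (fun c => og (τ c)) I x :=
    fun x hx hxU => unt_used hSt.1 hx hxU
  have hposx : ∀ x, x < n → x / w ∈ U →
      st (x / w) ≤ pos m φ x ∧ pos m φ x ≤ en (x / w) := by
    intro x hx hxU
    obtain ⟨h1, h2, h3⟩ := hbv x hx
    obtain ⟨h4, h5, h6⟩ := hrun _ hxU h1
    obtain ⟨i, hi1, hi2, hi3⟩ := h6.exists_pos h2 h3
    rw [← hi3, pos_eq hE (by omega), hi3]
    exact ⟨hi1, hi2⟩
  have hlt : ∀ i < m, φ i < n := fun i hi => (hE.used i hi).1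
  have hloc : ∀ i < m, φ i / w ∈ U → st (φ i / w) ≤ i ∧ i ≤ en (φ i / w) := by
    intro i hi hiU
    have := hposx (φ i) (hlt i hi) hiU
    rw [pos_eq hE hi] at this
    exact this
  have hrb : ∀ t ∈ U, t * w < n → ∀ i, st t ≤ i → i ≤ en t → φ i / w = t := by
    intro t ht htn i h1 h2
    obtain ⟨h4, h5, h6⟩ := hrun t ht htn
    obtain ⟨h7, h8⟩ := h6.le_map h1 h2
    rw [Nat.div_eq_iff (by omega)]
    constructor
    · linarith
    · omega
  have hse : ∀ t ∈ U, t * w < n → st t ≤ en t := fun t ht htn => (hrun t ht htn).2.2.1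
  have hsten : ∀ s ∈ U, s * w < n → ∀ t ∈ U, t * w < n → st s < st t → en s < st t := by
    intro s hs hsn t ht htn hst
    by_contra h
    have h1 := hrb s hs hsn (st t) hst.le (by omega)
    have h2 := hrb t ht htn (st t) le_rfl (hse t ht htn)
    rw [h1] at h2
    rw [h2] at hst
    omega
  have hstinj : ∀ s ∈ U, s * w < n → ∀ t ∈ U, t * w < n → st s = st t → s = t := by
    intro s hs hsn t ht htn hst
    have h1 := hrb s hs hsn (st s) le_rfl (hse s hs hsn)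
    have h2 := hrb t ht htn (st t) le_rfl (hse t ht htn)
    rw [← h1, ← h2, hst]
  set KP := KU.image (pch m φ) with hKP
  set lab : ℕ → ℕ := fun i => st (φ i / w) with hlab
  -- facts about position chords
  have hPE : ∀ e' ∈ KP, e'.1 < e'.2 ∧ e'.2 < m ∧ φ e'.1 / w ∈ U ∧ φ e'.2 / w ∈ U ∧
      φ e'.1 / w ≠ φ e'.2 / w ∧
      ∃ e ∈ K, (e.1 = φ e'.1 ∧ e.2 = φ e'.2) ∨ (e.1 = φ e'.2 ∧ e.2 = φ e'.1) := by
    intro e' he'
    obtain ⟨e, he, rfl⟩ := Finset.mem_image.mp he'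
    obtain ⟨heK, heU1, heU2⟩ := Finset.mem_filter.mp he
    have hch := hK.1 e heK
    have h2n : e.2 < n := hch.2.1
    have h1n : e.1 < n := by have := hch.1; omega
    have s1 := pos_spec hE (hused e.1 h1n heU1)
    have s2 := pos_spec hE (hused e.2 h2n heU2)
    have hne : pos m φ e.1 ≠ pos m φ e.2 := by
      intro h
      rw [h, s2.2] at s1
      have := hch.1
      omega
    have hb := hblk e heK
    unfold pch
    simp only
    rcases Nat.lt_or_gt_of_ne hne with h | h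
    · rw [min_eq_left h.le, max_eq_right h.le, s1.2, s2.2]
      exact ⟨h, s2.1, heU1, heU2, hb, e, heK, Or.inl ⟨rfl, rfl⟩⟩
    · rw [min_eq_right h.le, max_eq_left h.le, s1.2, s2.2]
      exact ⟨h, s1.1, heU2, heU1, hb.symm, e, heK, Or.inr ⟨rfl, rfl⟩⟩
  have hbn : ∀ i < m, φ i / w * w < n := fun i hi => (hbv (φ i) (hlt i hi)).1
  have hlablt : ∀ e' ∈ KP, lab e'.1 < lab e'.2 := by
    intro e' he'
    obtain ⟨h1, h2, h3, h4, h5, _⟩ := hPE e' he'
    have l1 := hloc e'.1 (by omega) h3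
    have l2 := hloc e'.2 h2 h4
    rcases lt_trichotomy (lab e'.1) (lab e'.2) with h | h | h
    · exact h
    · exact absurd (hstinj _ h3 (hbn _ (by omega)) _ h4 (hbn _ h2) h) h5
    · have h6 := hsten _ h4 (hbn _ h2) _ h3 (hbn _ (by omega)) h
      omega
  -- a position chord is determined by either of its ends
  have huniq : ∀ e' ∈ KP, ∀ f' ∈ KP, (e'.1 = f'.1 ∨ e'.2 = f'.2) → e' = f' := by
    intro e' he' f' hf' hef
    obtain ⟨a1, a2, a3, a4, a5, e, heK, he⟩ := hPE e' he'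
    obtain ⟨b1, b2, b3, b4, b5, f, hfK, hf⟩ := hPE f' hf'
    have h1 : e = f := by
      by_contra hne
      obtain ⟨k1, k2, k3, k4⟩ := hK.2 e heK f hfK hne
      rcases hef with h | h <;> rcases he with ⟨e1, e2⟩ | ⟨e1, e2⟩ <;>
        rcases hf with ⟨f1, f2⟩ | ⟨f1, f2⟩
      · exact k1 (by rw [e1, f1, h])
      · exact k2 (by rw [e1, f2, h])
      · exact k3 (by rw [e2, f1, h])
      · exact k4 (by rw [e2, f2, h])
      · exact k4 (by rw [e2, f2, h])
      · exact k3 (by rw [e2, f1, h])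
      · exact k2 (by rw [e1, f2, h])
      · exact k1 (by rw [e1, f1, h])
    subst h1
    have hinj := hE.inj
    rcases he with ⟨e1, e2⟩ | ⟨e1, e2⟩ <;> rcases hf with ⟨f1, f2⟩ | ⟨f1, f2⟩
    · have k1 := hinj e'.1 (by omega) f'.1 (by omega) (e1.symm.trans f1)
      have k2 := hinj e'.2 (by omega) f'.2 (by omega) (e2.symm.trans f2)
      exact Prod.ext k1 k2
    · have k1 := hinj e'.1 (by omega) f'.2 (by omega) (e1.symm.trans f1)
      have k2 := hinj e'.2 (by omega) f'.1 (by omega) (e2.symm.trans f2)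
      omega
    · have k1 := hinj e'.2 (by omega) f'.1 (by omega) (e1.symm.trans f1)
      have k2 := hinj e'.1 (by omega) f'.2 (by omega) (e2.symm.trans f2)
      omega
    · have k1 := hinj e'.2 (by omega) f'.2 (by omega) (e1.symm.trans f1)
      have k2 := hinj e'.1 (by omega) f'.1 (by omega) (e2.symm.trans f2)
      exact Prod.ext k2 k1
  have hKPcard : KP.card = KU.card := by
    rw [hKP]
    refine Finset.card_image_of_injOn ?_
    intro e he f hf hef
    have he1 := Finset.mem_filter.mp he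
    have hf1 := Finset.mem_filter.mp hf
    have hche := hK.1 e he1.1
    have hchf := hK.1 f hf1.1
    have se1 := pos_spec hE (hused e.1 (by have := hche.1; have := hche.2.1; omega) he1.2.1)
    have se2 := pos_spec hE (hused e.2 hche.2.1 he1.2.2)
    have sf1 := pos_spec hE (hused f.1 (by have := hchf.1; have := hchf.2.1; omega) hf1.2.1)
    have sf2 := pos_spec hE (hused f.2 hchf.2.1 hf1.2.2)
    by_contra hne
    obtain ⟨k1, k2, k3, k4⟩ := hK.2 e he1.1 f hf1.1 hne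
    have hpair := Prod.ext_iff.mp hef
    unfold pch at hpair
    simp only at hpair
    have c1 : pos m φ e.1 = pos m φ f.1 ∨ pos m φ e.1 = pos m φ f.2 := by omega
    rcases c1 with c1 | c1
    · exact k1 (by rw [← se1.2, ← sf1.2, c1])
    · exact k2 (by rw [← se1.2, ← sf2.2, c1])
  -- building triples
  have hmk : ∀ e₁ ∈ KP, ∀ e₂ ∈ KP, ∀ e₃ ∈ KP, cellOf lab e₁ = cellOf lab e₂ →
      cellOf lab e₂ = cellOf lab e₃ → e₁.1 < e₂.1 → e₂.1 < e₃.1 →
      ((e₁.2 < e₂.2 ∧ e₂.2 < e₃.2) ∨ (e₃.2 < e₂.2 ∧ e₂.2 < e₁.2)) →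
      ∃ c T, Tri K w c T ∧
        (c = (φ e₁.1 / w, φ e₁.2 / w) ∨ c = (φ e₁.2 / w, φ e₁.1 / w)) ∧
        PosGad φ (og T) e₁.1 e₃.1 (min e₁.2 e₃.2) (max e₁.2 e₃.2) ∧
        ((og T).ch (φ e₁.1) (φ e₁.2) ∨ (og T).ch (φ e₁.2) (φ e₁.1)) ∧
        ((og T).ch (φ e₃.1) (φ e₃.2) ∨ (og T).ch (φ e₃.2) (φ e₃.1)) := by
    intro e₁ he₁ e₂ he₂ e₃ he₃ h12 h23 hlt12 hlt23 hsec
    obtain ⟨a1, a2, a3, a4, a5, E₁, hE₁, hc₁⟩ := hPE e₁ he₁
    obtain ⟨b1, b2, b3, b4, b5, E₂, hE₂, hc₂⟩ := hPE e₂ he₂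
    obtain ⟨d1, d2, d3, d4, d5, E₃, hE₃, hc₃⟩ := hPE e₃ he₃
    unfold cellOf at h12 h23
    obtain ⟨g1, g2⟩ := Prod.ext_iff.mp h12
    obtain ⟨g3, g4⟩ := Prod.ext_iff.mp h23
    simp only at g1 g2 g3 g4
    -- same blocks
    have s12 : φ e₂.1 / w = φ e₁.1 / w :=
      (hstinj _ a3 (hbn _ (by omega)) _ b3 (hbn _ (by omega)) g1).symm
    have t12 : φ e₂.2 / w = φ e₁.2 / w :=
      (hstinj _ a4 (hbn _ (by omega)) _ b4 (hbn _ (by omega)) g2).symm
    have s13 : φ e₃.1 / w = φ e₁.1 / w := by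
      rw [← s12]
      exact (hstinj _ b3 (hbn _ (by omega)) _ d3 (hbn _ (by omega)) g3).symm
    have t13 : φ e₃.2 / w = φ e₁.2 / w := by
      rw [← t12]
      exact (hstinj _ b4 (hbn _ (by omega)) _ d4 (hbn _ (by omega)) g4).symm
    obtain ⟨ra, rb, rS⟩ := hrun _ a3 (hbn _ (by omega))
    obtain ⟨ra', rb', rT⟩ := hrun _ a4 (hbn _ (by omega))
    have l1 := hloc e₁.1 (by omega) a3
    have l2 := hloc e₃.1 (by omega) d3
    have l3 := hloc e₁.2 (by omega) a4
    have l4 := hloc e₃.2 (by omega) d4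
    rw [s13] at l2
    rw [t13] at l4
    have bx : Btw (φ e₁.1) (φ e₂.1) (φ e₃.1) := rS.btw l1.1 l2.2 hlt12 hlt23
    have by' : Btw (φ e₁.2) (φ e₂.2) (φ e₃.2) := by
      rcases hsec with h | h
      · exact rT.btw l3.1 l4.2 h.1 h.2
      · exact (rT.btw l4.1 l3.2 h.1 h.2).symm'
    have runX : Run φ e₁.1 e₃.1 (min (φ e₁.1) (φ e₃.1)) (max (φ e₁.1) (φ e₃.1)) :=
      rS.between l1.1 (by omega) l2.2
    have runY : Run φ (min e₁.2 e₃.2) (max e₁.2 e₃.2) (min (φ e₁.2) (φ e₃.2))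
        (max (φ e₁.2) (φ e₃.2)) := by
      rcases hsec with h | h
      · rw [min_eq_left (by omega : e₁.2 ≤ e₃.2), max_eq_right (by omega : e₁.2 ≤ e₃.2)]
        exact rT.between l3.1 (by omega) l4.2
      · rw [min_eq_right (by omega : e₃.2 ≤ e₁.2), max_eq_left (by omega : e₃.2 ≤ e₁.2),
          min_comm, max_comm]
        exact rT.between l4.1 (by omega) l3.2
    have hord : e₁.1 < e₃.1 ∧ e₃.1 < min e₁.2 e₃.2 ∧ min e₁.2 e₃.2 < max e₁.2 e₃.2 := by
      refine ⟨by omega, ?_, by omega⟩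
      have h6 := hlablt e₁ he₁
      have h7 := hsten _ a3 (hbn _ (by omega)) _ a4 (hbn _ (by omega)) h6
      omega
    have hx13 : φ e₁.1 ≠ φ e₃.1 := by unfold Btw at bx; omega
    have hy13 : φ e₁.2 ≠ φ e₃.2 := by unfold Btw at by'; omega
    -- orientation of the chords is the same for the three
    have horient : ∀ e' ∈ KP, ∀ E ∈ K, (E.1 = φ e'.1 ∧ E.2 = φ e'.2) ∨
        (E.1 = φ e'.2 ∧ E.2 = φ e'.1) → (φ e'.1 / w < φ e'.2 / w → E = (φ e'.1, φ e'.2)) ∧
        (φ e'.2 / w < φ e'.1 / w → E = (φ e'.2, φ e'.1)) := by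
      intro e' _ E hEK hc
      have hE12 := cell_lt hK hblk hEK
      rcases hc with ⟨c1, c2⟩ | ⟨c1, c2⟩
      · refine ⟨fun _ => Prod.ext c1 c2, fun h => ?_⟩
        rw [c1, c2] at hE12
        omega
      · refine ⟨fun h => ?_, fun _ => Prod.ext c1 c2⟩
        rw [c1, c2] at hE12
        omega
    have o1 := horient e₁ he₁ E₁ hE₁ hc₁
    have o2 := horient e₂ he₂ E₂ hE₂ hc₂
    have o3 := horient e₃ he₃ E₃ hE₃ hc₃
    rw [s12, t12] at o2
    rw [s13, t13] at o3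
    rcases Nat.lt_or_gt_of_ne a5 with hst | hst
    · have q1 := o1.1 hst
      have q2 := o2.1 hst
      have q3 := o3.1 hst
      subst q1 q2 q3
      refine ⟨(φ e₁.1 / w, φ e₁.2 / w), ((φ e₁.1, φ e₁.2), (φ e₂.1, φ e₂.2), (φ e₃.1, φ e₃.2)),
        ⟨⟨hE₁, rfl, rfl⟩, ⟨hE₂, s12, t12⟩, ⟨hE₃, s13, t13⟩, bx, by'⟩, Or.inl rfl,
        ⟨hord.1, hord.2.1, hord.2.2, Or.inl ⟨runX, runY⟩⟩, Or.inl ?_, Or.inl ?_⟩
      · exact (gad2_ch (e := (φ e₁.1, φ e₁.2)) (f := (φ e₃.1, φ e₃.2)) hx13 hy13 _ _).mpr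
          (Or.inl ⟨rfl, rfl⟩)
      · exact (gad2_ch (e := (φ e₁.1, φ e₁.2)) (f := (φ e₃.1, φ e₃.2)) hx13 hy13 _ _).mpr
          (Or.inr ⟨rfl, rfl⟩)
    · have q1 := o1.2 hst
      have q2 := o2.2 hst
      have q3 := o3.2 hst
      subst q1 q2 q3
      refine ⟨(φ e₁.2 / w, φ e₁.1 / w), ((φ e₁.2, φ e₁.1), (φ e₂.2, φ e₂.1), (φ e₃.2, φ e₃.1)),
        ⟨⟨hE₁, rfl, rfl⟩, ⟨hE₂, t12, s12⟩, ⟨hE₃, t13, s13⟩, by', bx⟩, Or.inr rfl,
        ⟨hord.1, hord.2.1, hord.2.2, Or.inr ⟨runX, runY⟩⟩, Or.inr ?_, Or.inr ?_⟩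
      · exact (gad2_ch (e := (φ e₁.2, φ e₁.1)) (f := (φ e₃.2, φ e₃.1)) hy13 hx13 _ _).mpr
          (Or.inl ⟨rfl, rfl⟩)
      · exact (gad2_ch (e := (φ e₁.2, φ e₁.1)) (f := (φ e₃.2, φ e₃.1)) hy13 hx13 _ _).mpr
          (Or.inr ⟨rfl, rfl⟩)
  have hDjI : ∀ e' ∈ KP, ∀ c, (c = (φ e'.1 / w, φ e'.2 / w) ∨ c = (φ e'.2 / w, φ e'.1 / w)) →
      ∀ d ∈ I, Dj c d := by
    intro e' he' c hc d hd
    obtain ⟨a1, a2, a3, a4, a5, _⟩ := hPE e' he'
    have h1 := (mem_unt.mp a3).2.1 d hd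
    have h2 := (mem_unt.mp a4).2.1 d hd
    rcases hc with rfl | rfl
    · exact ⟨h1.1, h1.2, h2.1, h2.2⟩
    · exact ⟨h2.1, h2.2, h1.1, h1.2⟩
  have P1 : ∀ e₁ ∈ KP, ∀ e₂ ∈ KP, ∀ e₃ ∈ KP, cellOf lab e₁ = cellOf lab e₂ →
      cellOf lab e₂ = cellOf lab e₃ → e₁.1 < e₂.1 → e₂.1 < e₃.1 → e₁.2 < e₂.2 → e₂.2 < e₃.2 →
      False := by
    intro e₁ he₁ e₂ he₂ e₃ he₃ h12 h23 k1 k2 k3 k4
    obtain ⟨c, T, hT, hc, hP, hch1, hch3⟩ := hmk e₁ he₁ e₂ he₂ e₃ he₃ h12 h23 k1 k2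
      (Or.inl ⟨k3, k4⟩)
    rw [min_eq_left (by omega : e₁.2 ≤ e₃.2), max_eq_right (by omega : e₁.2 ≤ e₃.2)] at hP
    exact no_add_one hG hK hblk hSt hmax hE hT (hDjI e₁ he₁ c hc) hP (hPE e₃ he₃).2.1 hch1 hch3
  have P2 : ∀ e₁ ∈ KP, ∀ e₂ ∈ KP, ∀ e₃ ∈ KP, ∀ f₁ ∈ KP, ∀ f₂ ∈ KP, ∀ f₃ ∈ KP,
      cellOf lab e₁ = cellOf lab e₂ → cellOf lab e₂ = cellOf lab e₃ →
      cellOf lab f₁ = cellOf lab f₂ → cellOf lab f₂ = cellOf lab f₃ →
      e₁.1 < e₂.1 → e₂.1 < e₃.1 → e₃.2 < e₂.2 → e₂.2 < e₁.2 →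
      f₁.1 < f₂.1 → f₂.1 < f₃.1 → f₃.2 < f₂.2 → f₂.2 < f₁.2 →
      lab e₁.1 < lab f₁.1 → lab f₁.1 < lab e₁.2 → lab e₁.2 < lab f₁.2 → False := by
    intro e₁ he₁ e₂ he₂ e₃ he₃ f₁ hf₁ f₂ hf₂ f₃ hf₃ h12 h23 g12 g23 k1 k2 k3 k4 k5 k6 k7 k8
      l1 l2 l3
    obtain ⟨c, T, hT, hc, hP, hch1, hch3⟩ := hmk e₁ he₁ e₂ he₂ e₃ he₃ h12 h23 k1 k2
      (Or.inr ⟨k3, k4⟩)
    obtain ⟨d, T2, hT2, hd, hQ, hdh1, hdh3⟩ := hmk f₁ hf₁ f₂ hf₂ f₃ hf₃ g12 g23 k5 k6
      (Or.inr ⟨k7, k8⟩)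
    rw [min_eq_right (by omega : e₃.2 ≤ e₁.2), max_eq_left (by omega : e₃.2 ≤ e₁.2)] at hP
    rw [min_eq_right (by omega : f₃.2 ≤ f₁.2), max_eq_left (by omega : f₃.2 ≤ f₁.2)] at hQ
    obtain ⟨a1, a2, a3, a4, a5, _⟩ := hPE e₁ he₁
    obtain ⟨b1, b2, b3, b4, b5, _⟩ := hPE e₃ he₃
    obtain ⟨c1, c2, c3, c4, c5, _⟩ := hPE f₁ hf₁
    obtain ⟨d1, d2, d3, d4, d5, _⟩ := hPE f₃ hf₃
    have e13 : cellOf lab e₁ = cellOf lab e₃ := h12.trans h23
    have f13 : cellOf lab f₁ = cellOf lab f₃ := g12.trans g23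
    have x1 : lab e₁.1 = lab e₃.1 := (Prod.ext_iff.mp e13).1
    have x2 : lab e₁.2 = lab e₃.2 := (Prod.ext_iff.mp e13).2
    have y1 : lab f₁.1 = lab f₃.1 := (Prod.ext_iff.mp f13).1
    have y2 : lab f₁.2 = lab f₃.2 := (Prod.ext_iff.mp f13).2
    -- positions in different blocks are ordered as the labels
    have hordpos : ∀ i j, i < m → j < m → φ i / w ∈ U → φ j / w ∈ U → lab i < lab j → i < j := by
      intro i j hi hj hiU hjU hij
      have q1 := hloc i hi hiU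
      have q2 := hloc j hj hjU
      have q3 := hsten _ hiU (hbn i hi) _ hjU (hbn j hj) hij
      omega
    have z1 : e₃.1 < f₁.1 := hordpos _ _ (by omega) (by omega) b3 c3 (by omega)
    have z2 : f₃.1 < e₃.2 := hordpos _ _ (by omega) (by omega) d3 b4 (by omega)
    have z3 : e₁.2 < f₃.2 := hordpos _ _ (by omega) (by omega) a4 d4 (by omega)
    have hcd : Dj c d := by
      have n1 : φ e₁.1 / w ≠ φ f₁.1 / w := fun h => by
        have : lab e₁.1 = lab f₁.1 := by simp only [hlab, h]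
        omega
      have n2 : φ e₁.1 / w ≠ φ f₁.2 / w := fun h => by
        have : lab e₁.1 = lab f₁.2 := by simp only [hlab, h]
        omega
      have n3 : φ e₁.2 / w ≠ φ f₁.1 / w := fun h => by
        have : lab e₁.2 = lab f₁.1 := by simp only [hlab, h]
        omega
      have n4 : φ e₁.2 / w ≠ φ f₁.2 / w := fun h => by
        have : lab e₁.2 = lab f₁.2 := by simp only [hlab, h]
        omega
      rcases hc with rfl | rfl <;> rcases hd with rfl | rfl
      · exact ⟨n1, n2, n3, n4⟩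
      · exact ⟨n2, n1, n4, n3⟩
      · exact ⟨n3, n4, n1, n2⟩
      · exact ⟨n4, n3, n2, n1⟩
    exact no_add_two hG hK hblk hSt hmax hE hT (hDjI e₁ he₁ c hc) hT2 (hDjI f₁ hf₁ d hd) hcd
      hP hQ z1 z2 z3 c2 hch1 hch3 hdh1 hdh3
  -- number of cells
  have hcells : (KP.image (cellOf lab)).card ≤ C0 := by
    have hsub : KP.image (cellOf lab) ⊆ (K.image (fun e => (e.1 / w, e.2 / w))).image
        (fun c => (min (st c.1) (st c.2), max (st c.1) (st c.2))) := by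
      intro z hz
      obtain ⟨e', he', rfl⟩ := Finset.mem_image.mp hz
      obtain ⟨a1, a2, a3, a4, a5, e, heK, he⟩ := hPE e' he'
      have h6 := hlablt e' he'
      refine Finset.mem_image.mpr ⟨(e.1 / w, e.2 / w), Finset.mem_image.mpr ⟨e, heK, rfl⟩, ?_⟩
      simp only [hlab] at h6
      unfold cellOf
      simp only [hlab]
      rcases he with ⟨e1, e2⟩ | ⟨e1, e2⟩
      · rw [e1, e2, min_eq_left h6.le, max_eq_right h6.le]
      · rw [e1, e2, min_eq_right h6.le, max_eq_left h6.le]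
    exact ((Finset.card_le_card hsub).trans Finset.card_image_le).trans hC0
  obtain ⟨Q, hQK, hQcell, hQnest, hQcard⟩ := planar lab (U.image st) KP C0
    (fun e' he' => ⟨Finset.mem_image_of_mem st (hPE e' he').2.2.1,
      Finset.mem_image_of_mem st (hPE e' he').2.2.2.1, hlablt e' he'⟩)
    (fun e' he' f' hf' hne => ⟨fun h => hne (huniq e' he' f' hf' (Or.inl h)),
      fun h => hne (huniq e' he' f' hf' (Or.inr h))⟩) hcells P1 P2
  have hLN : (U.image st).card ≤ N := by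
    refine Finset.card_image_le.trans ?_
    rw [hU]
    unfold unt
    refine (Finset.card_filter_le _ _).trans ?_
    rw [Finset.card_range]
  -- each chord of `Q` gives a cycle
  have hcyc : ∀ e' ∈ KP, HasF G (m - (e'.2 - e'.1 - 1)) := by
    intro e' he'
    obtain ⟨a1, a2, a3, a4, a5, e, heK, he⟩ := hPE e' he'
    have hadj : G.Adj (φ e'.1) (φ e'.2) := by
      have h1 := (hK.1 e heK).2.2.2
      rcases he with ⟨e1, e2⟩ | ⟨e1, e2⟩
      · rw [← e1, ← e2]; exact h1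
      · rw [← e1, ← e2]; exact h1.symm
    have hnot : ∀ x, x / w ∈ U → ∀ i ∈ I, x ≠ (og (τ i)).a ∧ x ≠ (og (τ i)).a' ∧
        x ≠ (og (τ i)).b ∧ x ≠ (og (τ i)).b' := by
      intro x hxU i hi
      obtain ⟨g1, g2, g3, g4⟩ := og_ends (hSt.1 i hi)
      have h1 := (mem_unt.mp hxU).2.1 i hi
      refine ⟨fun h => h1.1 (by rw [h, g1]), fun h => h1.1 (by rw [h, g2]),
        fun h => h1.2 (by rw [h, g3]), fun h => h1.2 (by rw [h, g4])⟩
    have hne : e'.1 + 1 ≠ e'.2 := by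
      intro h
      have hr := hE.step e'.1 (by omega)
      rw [h] at hr
      rcases he with ⟨e1, e2⟩ | ⟨e1, e2⟩
      · have h2 := hK.1 e heK
        rw [e1, e2] at h2
        exact not_hr_of_chord h2 (fun i hi => hnot _ a3 i hi) hr
      · have h2 := hK.1 e heK
        rw [e1, e2] at h2
        exact not_hr_of_chord h2 (fun i hi => hnot _ a4 i hi) hr.symm'
    have hpos1 : 0 < e'.1 := by
      have h1 := (hrun _ a3 (hbn _ (by omega))).1
      have h2 := (hloc e'.1 (by omega) a3).1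
      omega
    have hlam := lam (ham_posGraph hG hFam hE) {e'} (by
      intro x hx
      rw [Finset.mem_singleton.mp hx]
      exact ⟨by omega, a2, fun h => by omega, by omega, a2, hadj⟩) (by
      intro x hx y hy hxy
      rw [Finset.mem_singleton.mp hx, Finset.mem_singleton.mp hy] at hxy
      exact absurd rfl hxy)
    rw [Finset.singleton_biUnion, Nat.card_Ioo] at hlam
    exact hasF_of_posGraph hE hlam
  rcases Q.eq_empty_or_nonempty with hQe | ⟨q0, hq0⟩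
  · refine ⟨0, ∅, fun s hs => absurd hs (Finset.notMem_empty s), ?_⟩
    rw [hQe, Finset.card_empty, Nat.mul_zero] at hQcard
    rw [hKPcard] at hQcard
    rw [Finset.card_empty]
    omega
  · have hinj : ∀ e ∈ Q, ∀ f ∈ Q, m - (e.2 - e.1 - 1) = m - (f.2 - f.1 - 1) → e = f := by
      intro e he f hf hef
      by_contra hne
      have h1 := hPE e (hQK he)
      have h2 := hPE f (hQK hf)
      have h3 : e.1 ≠ f.1 := fun h => hne (huniq e (hQK he) f (hQK hf) (Or.inl h))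
      rcases Nat.lt_or_gt_of_ne h3 with h4 | h4
      · have h5 := hQnest e he f hf h4
        have h6 := hlablt f (hQK hf)
        omega
      · have h5 := hQnest f hf e he h4
        omega
    set v : ℕ × ℕ → ℕ := fun e => m - (e.2 - e.1 - 1) with hv
    refine ⟨m + 1 + st (φ q0.1 / w) - st (φ q0.2 / w) - w, Q.image v, ?_, ?_⟩
    · intro s hs
      obtain ⟨e, he, rfl⟩ := Finset.mem_image.mp hs
      have h1 := hPE e (hQK he)
      have hcell := hQcell e he q0 hq0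
      have c1 : lab e.1 = lab q0.1 := (Prod.ext_iff.mp hcell).1
      have c2 : lab e.2 = lab q0.2 := (Prod.ext_iff.mp hcell).2
      have l1 := hloc e.1 (by omega) h1.2.2.1
      have l2 := hloc e.2 (by omega) h1.2.2.2.1
      have w1 := (hrun _ h1.2.2.1 (hbn _ (by omega))).2.2
      have w2 := (hrun _ h1.2.2.2.1 (hbn _ (by omega))).2.2
      have u1 := w1.2.2.1
      have u2 := w2.2.2.1
      simp only [hlab] at c1 c2
      refine ⟨?_, ?_, hcyc e (hQK he)⟩
      · simp only [hv]; omega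
      · simp only [hv]; omega
    · rw [Finset.card_image_of_injOn (fun e he f hf h => hinj e he f hf h)]
      rw [hKPcard] at hQcard
      have h9 : 4 * (U.image st).card * Q.card ≤ 4 * N * Q.card := by
        have := Nat.mul_le_mul_right Q.card (Nat.mul_le_mul_left 4 hLN)
        exact this
      omega

end Pool.Agent.Helper36.CL
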