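import Mathlib

/-!
# Cycle lengths in Hamiltonian graphs with linearly many disjoint chords (MP_c54260_co)

Basic definitions.  The vertex set is `{0, ..., n-1}`, a Hamiltonian cycle is `0, 1, ..., n-1`.
A gadget is a pair of chords joining the two ends of an interval `[a, a']` (a hull) to the two
ends of a later interval `[b, b']`.
-/

set_option autoImplicit false

namespace Pool.Agent.Helper36.CL

/-- `G` has a cycle of length `k`. -/
def HasCyc {V : Type*} (G : SimpleGraph V) (k : ℕ) : Prop :=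
  ∃ (v : V) (p : G.Walk v v), p.IsCycle ∧ p.length = k

/-- A cycle of length `k` in a graph on `ℕ`, given by its list of vertices as a function. -/
def HasF (G : SimpleGraph ℕ) (k : ℕ) : Prop :=
  3 ≤ k ∧ ∃ φ : ℕ → ℕ, (∀ i < k, ∀ j < k, φ i = φ j → i = j) ∧
    (∀ i, i + 1 < k → G.Adj (φ i) (φ (i + 1))) ∧ G.Adj (φ (k - 1)) (φ 0)

/-- `0, 1, ..., n-1` is a cycle of `G`. -/
def Ham (G : SimpleGraph ℕ) (n : ℕ) : Prop :=
  3 ≤ n ∧ (∀ i, i + 1 < n → G.Adj i (i + 1)) ∧ G.Adj (n - 1) 0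

/-- `(x, y)` is a chord of the cycle `0, ..., n-1`. -/
def IsChord (G : SimpleGraph ℕ) (n x y : ℕ) : Prop :=
  x + 2 ≤ y ∧ y < n ∧ ¬ (x = 0 ∧ y = n - 1) ∧ G.Adj x y

/-- A set of pairwise vertex-disjoint chords. -/
def Chords (G : SimpleGraph ℕ) (n : ℕ) (K : Finset (ℕ × ℕ)) : Prop :=
  (∀ e ∈ K, IsChord G n e.1 e.2) ∧
  ∀ e ∈ K, ∀ f ∈ K, e ≠ f → e.1 ≠ f.1 ∧ e.1 ≠ f.2 ∧ e.2 ≠ f.1 ∧ e.2 ≠ f.2

/-- A gadget: hulls `[a, a']` and `[b, b']`; if `tw` the chords are `a b` and `a' b'`,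
otherwise `a b'` and `a' b`. -/
structure Gad where
  a : ℕ
  a' : ℕ
  b : ℕ
  b' : ℕ
  tw : Bool
deriving DecidableEq

/-- `(x, y)` is a chord of the gadget (with `x` in the first hull and `y` in the second). -/
def Gad.ch (g : Gad) (x y : ℕ) : Prop :=
  (g.tw = true ∧ ((x = g.a ∧ y = g.b) ∨ (x = g.a' ∧ y = g.b'))) ∨
  (g.tw = false ∧ ((x = g.a ∧ y = g.b') ∨ (x = g.a' ∧ y = g.b)))

/-- A genuine gadget of `G`. -/
def Gad.Ok (G : SimpleGraph ℕ) (n : ℕ) (g : Gad) : Prop :=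
  g.a < g.a' ∧ g.a' < g.b ∧ g.b < g.b' ∧ ∀ x y, g.ch x y → IsChord G n x y

/-- total length of the hulls -/
def Gad.s (g : Gad) : ℕ := (g.a' - g.a) + (g.b' - g.b)

/-- The hulls of two gadgets are disjoint. -/
def Gad.Dis (g h : Gad) : Prop :=
  (g.a' < h.a ∨ h.a' < g.a) ∧ (g.a' < h.b ∨ h.b' < g.a) ∧
  (g.b' < h.a ∨ h.a' < g.b) ∧ (g.b' < h.b ∨ h.b' < g.b)

variable {ι : Type*}

/-- A family of gadgets with pairwise disjoint hulls. -/
def Fam (G : SimpleGraph ℕ) (n : ℕ) (f : ι → Gad) (I : Finset ι) : Prop :=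
  (∀ i ∈ I, (f i).Ok G n) ∧ ∀ i ∈ I, ∀ j ∈ I, i ≠ j → (f i).Dis (f j)

/-- The vertices not strictly inside a hull. -/
def Used (n : ℕ) (f : ι → Gad) (I : Finset ι) (v : ℕ) : Prop :=
  v < n ∧ ∀ i ∈ I, ¬ ((f i).a < v ∧ v < (f i).a') ∧ ¬ ((f i).b < v ∧ v < (f i).b')

/-- The cycle edge `{v, v+1}` lies inside a hull. -/
def Cut (f : ι → Gad) (I : Finset ι) (v : ℕ) : Prop :=
  ∃ i ∈ I, ((f i).a ≤ v ∧ v < (f i).a') ∨ ((f i).b ≤ v ∧ v < (f i).b')

/-- Oriented edges of the graph obtained from the Hamiltonian cycle by deleting the edges inside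
the hulls and adding the chords of the gadgets. -/
def Edge (n : ℕ) (f : ι → Gad) (I : Finset ι) (x y : ℕ) : Prop :=
  (y = x + 1 ∧ y < n ∧ ¬ Cut f I x) ∨ (x = n - 1 ∧ y = 0) ∨ ∃ i ∈ I, (f i).ch x y

/-- The graph `H_I`. -/
def Hr (n : ℕ) (f : ι → Gad) (I : Finset ι) (x y : ℕ) : Prop :=
  Edge n f I x y ∨ Edge n f I y x

/-- `H_I` is connected on the used vertices. -/
def Conn (n : ℕ) (f : ι → Gad) (I : Finset ι) : Prop :=
  ∀ x y, Used n f I x → Used n f I y → Relation.ReflTransGen (Hr n f I) x y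

/-- Nonsingularity over the field with two elements of the `I × I` part of a matrix. -/
def NonsM (A : ι → ι → ZMod 2) (I : Finset ι) : Prop :=
  ∀ z : ι → ZMod 2, (∀ i ∈ I, ∑ j ∈ I, A i j * z j = 0) → ∀ i ∈ I, z i = 0

/-- The interlace matrix of a family of gadgets. -/
noncomputable def Amat (f : ι → Gad) (i j : ι) : ZMod 2 := by
  classical
  exact
  (if (f i).a < (f j).a' ∧ (f j).a' < (f i).b then 1 else 0) +
  (if (f i).a < (f j).b' ∧ (f j).b' < (f i).b then 1 else 0) +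
  (if i = j ∧ (f i).tw = false then 1 else 0)

/-- `I` is a nonsingular family. -/
def Nons (f : ι → Gad) (I : Finset ι) : Prop := NonsM (Amat f) I

/-- Data describing `H_I` when it is a single cycle `φ 0, ..., φ (m-1)`. -/
structure Ext (n : ℕ) (f : ι → Gad) (I : Finset ι) (m : ℕ) (φ : ℕ → ℕ) : Prop where
  three : 3 ≤ m
  used : ∀ i < m, Used n f I (φ i)
  surj : ∀ x, Used n f I x → ∃ i < m, φ i = x
  inj : ∀ i < m, ∀ j < m, φ i = φ j → i = j
  step : ∀ i, i + 1 < m → Hr n f I (φ i) (φ (i + 1))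
  wrap : Hr n f I (φ (m - 1)) (φ 0)
  edges : ∀ x y, Used n f I x → Hr n f I x y →
    (∃ i, i + 1 < m ∧ ((φ i = x ∧ φ (i + 1) = y) ∨ (φ i = y ∧ φ (i + 1) = x))) ∨
    (x = φ (m - 1) ∧ y = φ 0) ∨ (x = φ 0 ∧ y = φ (m - 1))

/-- The interval of positions `[p, p']` is mapped by `φ` onto the interval `[x, x']`, preserving
or reversing the order. -/
def Run (φ : ℕ → ℕ) (p p' x x' : ℕ) : Prop :=
  p ≤ p' ∧ x ≤ x' ∧ p' - p = x' - x ∧
    ((∀ k ≤ p' - p, φ (p + k) = x + k) ∨ (∀ k ≤ p' - p, φ (p + k) = x' - k))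

end Pool.Agent.Helper36.CL
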