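import Pool.Agent.Helper36.CL.CaseB2

/-!
# Clustered lengths from chords between different blocks
-/

set_option autoImplicit false

namespace Pool.Agent.Helper36.CL

open Finset

variable {G : SimpleGraph ℕ} {n : ℕ} {K : Finset (ℕ × ℕ)} {w : ℕ}

theorem propL (hG : Ham G n) (hK : Chords G n K) (hw : 1 ≤ w)
    (hblk : ∀ e ∈ K, e.1 / w ≠ e.2 / w) (N : ℕ) (hN : n ≤ N * w) (C0 : ℕ)
    (hC0 : (K.image (fun e => (e.1 / w, e.2 / w))).card ≤ C0) (h16 : 16 * C0 ≤ K.card)
    (h8 : 8 * w ≤ K.card) :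
    ∃ (x : ℕ) (S : Finset ℕ), (∀ s ∈ S, x ≤ s ∧ s ≤ x + 2 * w ∧ HasF G s) ∧
      (K.card ≤ 800 * w * (S.card + 1) ∨ w ≤ 2 * S.card + 1 ∨ K.card ≤ 11 * N * S.card) := by
  obtain ⟨I, τ, hSt, hmax⟩ := exists_max_state K w
  by_cases hI : K.card ≤ 8 * w * I.card
  · obtain ⟨x, S, hS, hc⟩ := caseA hG hK hw hblk hSt
    refine ⟨x, S, hS, ?_⟩
    rcases le_total (I.card / 100) (w / 2) with h | h
    · rw [min_eq_left h] at hc
      left
      have h1 : I.card ≤ 100 * (S.card + 1) := by omega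
      calc K.card ≤ 8 * w * I.card := hI
        _ ≤ 8 * w * (100 * (S.card + 1)) := Nat.mul_le_mul_left _ h1
        _ = 800 * w * (S.card + 1) := by ring
    · rw [min_eq_right h] at hc
      right; left
      omega
  · obtain ⟨x, S, hS, hc⟩ := caseB hG hK hw hblk hSt hmax N hN C0 hC0
    refine ⟨x, S, hS, Or.inr (Or.inr ?_)⟩
    have h1 : (2 * I.card + 1) * w = 2 * (w * I.card) + w := by ring
    have h2 : 8 * w * I.card = 8 * (w * I.card) := by ring
    have h3 : 4 * N * S.card = 4 * (N * S.card) := by ring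
    have h4 : 11 * N * S.card = 11 * (N * S.card) := by ring
    rw [h4]
    rw [h1, h3] at hc
    rw [h2] at hI
    omega

/-- chords of length at least `w` join different blocks -/
theorem div_ne_of_long {x y w : ℕ} (hw : 1 ≤ w) (h : x + w ≤ y) : x / w ≠ y / w := by
  have h1 : (x + w) / w ≤ y / w := Nat.div_le_div_right h
  rw [Nat.add_div_right x (by omega)] at h1
  omega

/-- The cells met by chords with `w ≤ e.2 - e.1 < w * M`. -/
theorem cells_le {N M : ℕ} (hw : 1 ≤ w) (hN : n ≤ N * w)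
    (hK : ∀ e ∈ K, e.1 ≤ e.2 ∧ e.2 < n ∧ e.2 < e.1 + w * M) :
    (K.image (fun e => (e.1 / w, e.2 / w))).card ≤ N * (M + 1) := by
  have hsub : K.image (fun e => (e.1 / w, e.2 / w)) ⊆
      (Finset.range N ×ˢ Finset.range (M + 1)).image (fun p => (p.1, p.1 + p.2)) := by
    intro c hc
    obtain ⟨e, he, rfl⟩ := Finset.mem_image.mp hc
    obtain ⟨h1, h2, h3⟩ := hK e he
    have h4 : e.1 / w ≤ e.2 / w := Nat.div_le_div_right h1
    have h5 : e.2 / w ≤ (e.1 + w * M) / w := Nat.div_le_div_right h3.le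
    rw [Nat.add_mul_div_left _ _ (by omega)] at h5
    have h6 : e.1 / w < N := by
      rw [Nat.div_lt_iff_lt_mul (by omega)]
      omega
    refine Finset.mem_image.mpr ⟨(e.1 / w, e.2 / w - e.1 / w), ?_, ?_⟩
    · rw [Finset.mem_product, Finset.mem_range, Finset.mem_range]
      exact ⟨h6, by simp only; omega⟩
    · simp only
      rw [Nat.add_sub_cancel' h4]
  refine (Finset.card_le_card hsub).trans (Finset.card_image_le.trans ?_)
  rw [Finset.card_product, Finset.card_range, Finset.card_range]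

theorem Chords.filter (hK : Chords G n K) (P : ℕ × ℕ → Prop) [DecidablePred P] :
    Chords G n (K.filter P) :=
  ⟨fun e he => hK.1 e (Finset.mem_filter.mp he).1,
    fun e he f hf => hK.2 e (Finset.mem_filter.mp he).1 f (Finset.mem_filter.mp hf).1⟩

/-- Long chords. -/
theorem q1_long (hG : Ham G n) (hK : Chords G n K) (A q : ℕ) (hA : 1 ≤ A)
    (hq : 100000 * A ^ 2 ≤ q) (hn1 : q * q ≤ n) (hn2 : n < (q + 1) * (q + 1))
    (hcard : n ≤ 3 * A * K.card) (hlong : ∀ e ∈ K, e.1 + 14 * A * q ≤ e.2) :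
    ∃ (x : ℕ) (S : Finset ℕ), (∀ s ∈ S, x ≤ s ∧ s ≤ x + 28 * A * q ∧ HasF G s) ∧
      q ≤ 100000 * A ^ 2 * S.card := by
  have hA2 : A ≤ A ^ 2 := by nlinarith
  have hA1 : 1 ≤ A ^ 2 := by nlinarith
  set w := 14 * A * q with hw
  have hw1 : 1 ≤ w := by
    rw [hw]; nlinarith
  set N := n / w + 1 with hN
  have hnN : n ≤ N * w := by
    have h1 := Nat.div_add_mod n w
    have h2 := Nat.mod_lt n (show w > 0 by omega)
    have h3 : N * w = w * (n / w) + w := by rw [hN]; ring
    omega
  have hNpos : 1 ≤ N := Nat.le_add_left 1 _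
  -- bound on N
  have hN13 : 13 * A * N ≤ q := by
    have h1 : w * (n / w) ≤ n := Nat.mul_div_le n w
    have h2 : 14 * A * (n / w) ≤ q + 2 := by
      by_contra h
      have h3 : q + 3 ≤ 14 * A * (n / w) := by omega
      have h4 : (q + 3) * q ≤ 14 * A * (n / w) * q := Nat.mul_le_mul_right q h3
      have h5 : 14 * A * (n / w) * q = w * (n / w) := by rw [hw]; ring
      nlinarith
    have h6 : 14 * (13 * A * N) = 13 * (14 * A * (n / w)) + 13 * (14 * A) := by rw [hN]; ring
    nlinarith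
  have hM : ∀ e ∈ K, e.1 ≤ e.2 ∧ e.2 < n ∧ e.2 < e.1 + w * N := by
    intro e he
    have h1 := hK.1 e he
    refine ⟨by have := h1.1; omega, h1.2.1, ?_⟩
    have h2 : w * N = N * w := Nat.mul_comm _ _
    have := h1.2.1
    omega
  have hcells := cells_le (M := N) hw1 hnN hM
  have hcardq : q * q ≤ 3 * A * K.card := hn1.trans hcard
  have h169 : 169 * A ^ 2 * (N * N) ≤ q * q := by
    have := Nat.mul_le_mul hN13 hN13
    calc 169 * A ^ 2 * (N * N) = 13 * A * N * (13 * A * N) := by ring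
      _ ≤ q * q := this
  have hNN : N * (N + 1) ≤ 2 * (N * N) := by nlinarith
  have h16 : 16 * (N * (N + 1)) ≤ K.card := by
    have h1 : A * (169 * A * (N * N)) ≤ A * (3 * K.card) := by
      calc A * (169 * A * (N * N)) = 169 * A ^ 2 * (N * N) := by ring
        _ ≤ q * q := h169
        _ ≤ 3 * A * K.card := hcardq
        _ = A * (3 * K.card) := by ring
    have h2 := Nat.le_of_mul_le_mul_left h1 (by omega)
    have h3 : N * N ≤ A * (N * N) := Nat.le_mul_of_pos_left _ (by omega)
    have h4 : 169 * A * (N * N) = 169 * (A * (N * N)) := by ring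
    omega
  have h8 : 8 * w ≤ K.card := by
    have h1 : 3 * A * (8 * w) ≤ 3 * A * K.card := by
      calc 3 * A * (8 * w) = 336 * A ^ 2 * q := by rw [hw]; ring
        _ ≤ q * q := Nat.mul_le_mul_right q (by omega)
        _ ≤ 3 * A * K.card := hcardq
    exact Nat.le_of_mul_le_mul_left h1 (by omega)
  obtain ⟨x, S, hS, hfin⟩ := propL hG hK hw1
    (fun e he => div_ne_of_long hw1 (hlong e he)) N hnN (N * (N + 1)) hcells h16 h8
  refine ⟨x, S, fun s hs => ?_, ?_⟩
  · have := hS s hs
    have h1 : 2 * w = 28 * A * q := by rw [hw]; ring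
    exact ⟨this.1, by omega, this.2.2⟩
  · have hq0 : 0 < q := by omega
    rcases hfin with h | h | h
    · have h1 : q * q ≤ (33600 * A ^ 2 * (S.card + 1)) * q := by
        calc q * q ≤ 3 * A * K.card := hcardq
          _ ≤ 3 * A * (800 * w * (S.card + 1)) := Nat.mul_le_mul_left _ h
          _ = (33600 * A ^ 2 * (S.card + 1)) * q := by rw [hw]; ring
      have h2 : q ≤ 33600 * A ^ 2 * (S.card + 1) := Nat.le_of_mul_le_mul_right h1 hq0
      have h3 : 33600 * A ^ 2 * (S.card + 1) = 33600 * (A ^ 2 * S.card) + 33600 * A ^ 2 := by ring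
      have h4 : 100000 * A ^ 2 * S.card = 100000 * (A ^ 2 * S.card) := by ring
      omega
    · have h1 : q ≤ w := by rw [hw]; nlinarith
      have h2 : S.card ≤ A ^ 2 * S.card := Nat.le_mul_of_pos_left _ (by omega)
      have h4 : 100000 * A ^ 2 * S.card = 100000 * (A ^ 2 * S.card) := by ring
      omega
    · have h1 : 13 * (q * q) ≤ 33 * S.card * q := by
        calc 13 * (q * q) ≤ 13 * (3 * A * K.card) := Nat.mul_le_mul_left _ hcardq
          _ ≤ 13 * (3 * A * (11 * N * S.card)) :=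
            Nat.mul_le_mul_left _ (Nat.mul_le_mul_left _ h)
          _ = 33 * S.card * (13 * A * N) := by ring
          _ ≤ 33 * S.card * q := Nat.mul_le_mul_left _ hN13
      have h2 : 13 * q ≤ 33 * S.card := by
        have h3 : (13 * q) * q ≤ 33 * S.card * q := by
          calc (13 * q) * q = 13 * (q * q) := by ring
            _ ≤ _ := h1
        exact Nat.le_of_mul_le_mul_right h3 hq0
      have h4 : S.card ≤ A ^ 2 * S.card := Nat.le_mul_of_pos_left _ (by omega)
      have h5 : 100000 * A ^ 2 * S.card = 100000 * (A ^ 2 * S.card) := by ring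
      omega

/-- Chords of medium length. -/
theorem q1_med (hG : Ham G n) (hK : Chords G n K) (A E q : ℕ) (hA : 1 ≤ A) (hE : 1 ≤ E)
    (hq : 10000 * A ^ 2 * E ^ 2 ≤ q) (hn1 : q * q ≤ n) (hn2 : n < (q + 1) * (q + 1))
    (hcard : n ≤ 3 * A * K.card) (hlong : ∀ e ∈ K, e.1 + q / E ≤ e.2)
    (hshort : ∀ e ∈ K, e.2 < e.1 + 14 * A * q) :
    ∃ (x : ℕ) (S : Finset ℕ), (∀ s ∈ S, x ≤ s ∧ s ≤ x + 2 * q ∧ HasF G s) ∧
      q ≤ 10000 * A ^ 2 * E ^ 2 * S.card := by
  have hA2 : A ≤ A ^ 2 := by nlinarith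
  have hE2 : E ≤ E ^ 2 := by nlinarith
  have hE1 : 1 ≤ E ^ 2 := by nlinarith
  have hA1 : 1 ≤ A ^ 2 := by nlinarith
  set Z := A ^ 2 * E ^ 2 with hZ
  have hZA : A ≤ Z := by
    calc A = A * 1 := by ring
      _ ≤ A ^ 2 * E ^ 2 := Nat.mul_le_mul hA2 hE1
  have hZE : E ≤ Z := by
    calc E = 1 * E := by ring
      _ ≤ A ^ 2 * E ^ 2 := Nat.mul_le_mul hA1 hE2
  have hZAE : A * E ≤ Z := Nat.mul_le_mul hA2 hE2
  have hqZ : 10000 * Z ≤ q := by
    have : 10000 * A ^ 2 * E ^ 2 = 10000 * Z := by rw [hZ]; ring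
    omega
  set w := q / E with hw
  have hwq : w ≤ q := Nat.div_le_self _ _
  have hw1 : 1 ≤ w := by
    rw [hw, Nat.one_le_div_iff (by omega)]
    omega
  have hq2w : q ≤ 2 * E * w := by
    have h1 := Nat.div_add_mod q E
    have h2 := Nat.mod_lt q (show E > 0 by omega)
    rw [← hw] at h1
    have h3 : E ≤ E * w := Nat.le_mul_of_pos_right _ (by omega)
    have h4 : 2 * E * w = 2 * (E * w) := by ring
    omega
  set N := n / w + 1 with hN
  have hnN : n ≤ N * w := by
    have h1 := Nat.div_add_mod n w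
    have h2 := Nat.mod_lt n (show w > 0 by omega)
    have h3 : N * w = w * (n / w) + w := by rw [hN]; ring
    omega
  have hN4 : N ≤ 4 * E * q := by
    have h1 : w * (n / w) ≤ n := Nat.mul_div_le n w
    have h2 : w * (n / w) ≤ w * (2 * E * (q + 2)) := by
      calc w * (n / w) ≤ n := h1
        _ ≤ q * (q + 2) := by nlinarith
        _ ≤ 2 * E * w * (q + 2) := Nat.mul_le_mul_right _ hq2w
        _ = w * (2 * E * (q + 2)) := by ring
    have h3 := Nat.le_of_mul_le_mul_left h2 (by omega)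
    have h4 : 2 * E * (q + 2) = 2 * (E * q) + 4 * E := by ring
    have h5 : 4 * E * q = 4 * (E * q) := by ring
    have h6 : 4 * E + 1 ≤ E * q := by nlinarith
    omega
  have hM : ∀ e ∈ K, e.1 ≤ e.2 ∧ e.2 < n ∧ e.2 < e.1 + w * (28 * A * E) := by
    intro e he
    have h1 := hK.1 e he
    refine ⟨by have := h1.1; omega, h1.2.1, ?_⟩
    have h2 : 14 * A * q ≤ w * (28 * A * E) := by
      calc 14 * A * q ≤ 14 * A * (2 * E * w) := Nat.mul_le_mul_left _ hq2w
        _ = w * (28 * A * E) := by ring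
    have := hshort e he
    omega
  have hcells := cells_le (M := 28 * A * E) hw1 hnN hM
  have hcardq : q * q ≤ 3 * A * K.card := hn1.trans hcard
  have hC : N * (28 * A * E + 1) ≤ 116 * (A * E * E) * q := by
    calc N * (28 * A * E + 1) ≤ (4 * E * q) * (29 * (A * E)) := by
          refine Nat.mul_le_mul hN4 ?_
          have h1 : 1 ≤ A * E := Nat.mul_pos (by omega) (by omega)
          have h2 : 28 * A * E = 28 * (A * E) := by ring
          omega
      _ = 116 * (A * E * E) * q := by ring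
  have h16 : 16 * (N * (28 * A * E + 1)) ≤ K.card := by
    have h1 : 3 * A * (16 * (N * (28 * A * E + 1))) ≤ 3 * A * K.card := by
      calc 3 * A * (16 * (N * (28 * A * E + 1)))
          ≤ 3 * A * (16 * (116 * (A * E * E) * q)) :=
            Nat.mul_le_mul_left _ (Nat.mul_le_mul_left _ hC)
        _ = 5568 * Z * q := by rw [hZ]; ring
        _ ≤ q * q := Nat.mul_le_mul_right q (by omega)
        _ ≤ 3 * A * K.card := hcardq
    exact Nat.le_of_mul_le_mul_left h1 (by omega)
  have h8 : 8 * w ≤ K.card := by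
    have h1 : 3 * A * (8 * w) ≤ 3 * A * K.card := by
      calc 3 * A * (8 * w) ≤ 3 * A * (8 * q) := Nat.mul_le_mul_left _ (by omega)
        _ = 24 * A * q := by ring
        _ ≤ q * q := Nat.mul_le_mul_right q (by omega)
        _ ≤ 3 * A * K.card := hcardq
    exact Nat.le_of_mul_le_mul_left h1 (by omega)
  obtain ⟨x, S, hS, hfin⟩ := propL hG hK hw1
    (fun e he => div_ne_of_long hw1 (hlong e he)) N hnN _ hcells h16 h8
  have hgoal : 10000 * A ^ 2 * E ^ 2 * S.card = 10000 * (Z * S.card) := by rw [hZ]; ring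
  refine ⟨x, S, fun s hs => ?_, ?_⟩
  · have := hS s hs
    exact ⟨this.1, by omega, this.2.2⟩
  · rw [hgoal]
    have hq0 : 0 < q := by omega
    rcases hfin with h | h | h
    · have h1 : q * q ≤ (2400 * A * (S.card + 1)) * q := by
        calc q * q ≤ 3 * A * K.card := hcardq
          _ ≤ 3 * A * (800 * w * (S.card + 1)) := Nat.mul_le_mul_left _ h
          _ = (2400 * A * (S.card + 1)) * w := by ring
          _ ≤ (2400 * A * (S.card + 1)) * q := Nat.mul_le_mul_left _ hwq
      have h2 : q ≤ 2400 * A * (S.card + 1) := Nat.le_of_mul_le_mul_right h1 hq0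
      have h3 : 2400 * A * (S.card + 1) = 2400 * (A * S.card) + 2400 * A := by ring
      have h4 : A * S.card ≤ Z * S.card := Nat.mul_le_mul_right _ hZA
      omega
    · have h1 : q ≤ 2 * E * (2 * S.card + 1) := hq2w.trans (Nat.mul_le_mul_left _ h)
      have h2 : 2 * E * (2 * S.card + 1) = 4 * (E * S.card) + 2 * E := by ring
      have h4 : E * S.card ≤ Z * S.card := Nat.mul_le_mul_right _ hZE
      omega
    · have h1 : q * q ≤ (132 * (A * E) * S.card) * q := by
        calc q * q ≤ 3 * A * K.card := hcardq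
          _ ≤ 3 * A * (11 * N * S.card) := Nat.mul_le_mul_left _ h
          _ = 33 * A * S.card * N := by ring
          _ ≤ 33 * A * S.card * (4 * E * q) := Nat.mul_le_mul_left _ hN4
          _ = (132 * (A * E) * S.card) * q := by ring
      have h2 : q ≤ 132 * (A * E) * S.card := Nat.le_of_mul_le_mul_right h1 hq0
      have h3 : 132 * (A * E) * S.card = 132 * (A * E * S.card) := by ring
      have h4 : A * E * S.card ≤ Z * S.card := Nat.mul_le_mul_right _ hZAE
      omega

end Pool.Agent.Helper36.CL
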