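import Pool.Agent.Helper36.CL.Mods

/-!
# Well separated lengths from short chords
-/

set_option autoImplicit false

namespace Pool.Agent.Helper36.CL

open Finset

variable {G : SimpleGraph ℕ} {n : ℕ} {K : Finset (ℕ × ℕ)}

theorem q2_short (hG : Ham G n) (hK : Chords G n K) (B : ℕ) (hB : 1 ≤ B)
    (hs : ∀ e ∈ K, e.2 < e.1 + B) :
    ∃ S : Finset ℕ, (∀ s ∈ S, HasF G s) ∧ (∀ x ∈ S, ∀ y ∈ S, x < y → x + B ≤ y) ∧
      K.card ≤ 20 * B * S.card := by
  classical
  set s : ℕ × ℕ → ℕ := fun e => e.2 - e.1 - 1 with hsdef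
  set conf : ℕ × ℕ → ℕ × ℕ → Prop := fun e f => e.1 ≤ f.2 ∧ f.1 ≤ e.2 with hconf
  obtain ⟨F, hFK, hF, hFc⟩ := vitali K s 5 conf (by
    intro e he
    have h1 := (hK.1 e he).1
    refine (Finset.card_le_card_of_injOn (t := Finset.Icc (e.1 - (s e + 1)) e.2)
      (fun f => f.1) ?_ ?_).trans ?_
    · intro f hf
      obtain ⟨hfK, ⟨h2, h3⟩, h4⟩ := Finset.mem_filter.mp hf
      have h5 := (hK.1 f hfK).1
      simp only [Finset.mem_coe, Finset.mem_Icc]
      simp only [hsdef] at h4 ⊢
      omega
    · intro f hf g hg hfg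
      by_contra hne
      exact (hK.2 f (Finset.mem_filter.mp hf).1 g (Finset.mem_filter.mp hg).1 hne).1 hfg
    · rw [Nat.card_Icc]
      simp only [hsdef]
      omega) (fun e he => ⟨by have := (hK.1 e he).1; omega, by have := (hK.1 e he).1; omega⟩)
  -- disjointness
  have hdis : ∀ e ∈ F, ∀ f ∈ F, e ≠ f → e.2 < f.1 ∨ f.2 < e.1 := by
    intro e he f hf hne
    rcases hF e he f hf hne with h | h
    · simp only [hconf] at h; omega
    · simp only [hconf] at h; omega
  have hlt : ∀ e ∈ F, e.1 + 2 ≤ e.2 := fun e he => (hK.1 e (hFK he)).1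
  set P : ℕ × ℕ → Finset (ℕ × ℕ) := fun e => F.filter (fun f => f.2 ≤ e.2) with hP
  set R : ℕ × ℕ → ℕ := fun e => ∑ f ∈ P e, s f with hR
  have hRcard : ∀ e, ((P e).biUnion fun f => Finset.Ioo f.1 f.2).card = R e := by
    intro e
    rw [Finset.card_biUnion]
    · refine Finset.sum_congr rfl fun f _ => ?_
      rw [Nat.card_Ioo]
    · intro f hf g hg hne
      have hfF := (Finset.mem_filter.mp hf).1
      have hgF := (Finset.mem_filter.mp hg).1
      show Disjoint (Finset.Ioo f.1 f.2) (Finset.Ioo g.1 g.2)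
      rw [Finset.disjoint_left]
      intro x hx hy
      rw [Finset.mem_Ioo] at hx hy
      rcases hdis f hfF g hgF hne with h | h <;> omega
  have hRn : ∀ e, R e ≤ n := by
    intro e
    rw [← hRcard e]
    refine (Finset.card_le_card (t := Finset.range n) ?_).trans (by rw [Finset.card_range])
    intro x hx
    obtain ⟨f, hf, hx⟩ := Finset.mem_biUnion.mp hx
    have h1 := (hK.1 f (hFK (Finset.mem_filter.mp hf).1)).2.1
    rw [Finset.mem_Ioo] at hx
    rw [Finset.mem_range]
    omega
  have hcyc : ∀ e, HasF G (n - R e) := by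
    intro e
    rw [← hRcard e]
    refine lam hG (P e) (fun f hf => hK.1 f (hFK (Finset.mem_filter.mp hf).1)) ?_
    intro f hf g hg hne
    have hfF := (Finset.mem_filter.mp hf).1
    have hgF := (Finset.mem_filter.mp hg).1
    have h1 := hlt f hfF
    have h2 := hlt g hgF
    rcases hdis f hfF g hgF hne with h | h
    · exact ⟨by omega, by omega⟩
    · exact ⟨by omega, by omega⟩
  have hRlt : ∀ e ∈ F, ∀ f ∈ F, e.2 < f.2 → R e + s f ≤ R f := by
    intro e he f hf hef
    have hfP : f ∉ P e := by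
      intro h
      have := (Finset.mem_filter.mp h).2
      omega
    have hsub : insert f (P e) ⊆ P f := by
      intro g hg
      rcases Finset.mem_insert.mp hg with h | h
      · rw [h]; exact Finset.mem_filter.mpr ⟨hf, le_rfl⟩
      · have := Finset.mem_filter.mp h
        exact Finset.mem_filter.mpr ⟨this.1, by omega⟩
    have h1 : ∑ g ∈ insert f (P e), s g ≤ R f := Finset.sum_le_sum_of_subset hsub
    rw [Finset.sum_insert hfP] at h1
    have h2 : ∑ g ∈ P e, s g = R e := rfl
    omega
  obtain ⟨S, hSu, hSsep, hSsum⟩ := sel F (fun e => n - R e) s B hB (by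
    intro e he
    have := hs e (hFK he)
    simp only [hsdef]
    omega) (by
    intro e he f hf hne
    have h1 := hRn e
    have h2 := hRn f
    have h3 := hdis e he f hf hne
    have h4 := hlt e he
    have h5 := hlt f hf
    rcases h3 with h | h
    · have := hRlt e he f hf (by omega)
      right
      omega
    · have := hRlt f hf e he (by omega)
      left
      omega)
  refine ⟨S, fun x hx => ?_, hSsep, ?_⟩
  · obtain ⟨e, _, rfl⟩ := Finset.mem_image.mp (hSu hx)
    exact hcyc e
  · calc K.card ≤ 5 * ∑ e ∈ F, s e := hFc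
      _ ≤ 5 * (4 * B * S.card) := Nat.mul_le_mul_left _ hSsum
      _ = 20 * B * S.card := by ring

end Pool.Agent.Helper36.CL
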