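import Pool.Agent.Helper36.CL.Q2Long
import Pool.Agent.Helper36.CL.Q2Short
import Pool.Agent.Helper36.CL.PropL

/-!
# Well separated lengths
-/

set_option autoImplicit false

namespace Pool.Agent.Helper36.CL

open Finset

variable {G : SimpleGraph ℕ} {n : ℕ} {K : Finset (ℕ × ℕ)} {w : ℕ}

theorem q2_long (hG : Ham G n) (hK : Chords G n K) (hw : 1 ≤ w)
    (hblk : ∀ e ∈ K, e.1 / w ≠ e.2 / w) (C0 : ℕ)
    (hC0 : (K.image (fun e => (e.1 / w, e.2 / w))).card ≤ C0) :
    ∃ S : Finset ℕ, (∀ s ∈ S, HasF G s) ∧ (∀ x ∈ S, ∀ y ∈ S, x < y → x + w ≤ y) ∧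
      K.card ≤ 3 * C0 + 288 * w * (S.card + 1) := by
  classical
  set cl : ℕ × ℕ → ℕ × ℕ := fun e => (e.1 / w, e.2 / w) with hcl
  set Kr := K.filter (fun e => 4 ≤ (K.filter (fun f => cl f = cl e)).card) with hKr
  have hKrK : ∀ e ∈ Kr, e ∈ K := fun e he => (Finset.mem_filter.mp he).1
  have hinj1 : ∀ e ∈ K, ∀ f ∈ K, e.1 = f.1 → e = f := by
    intro e he f hf h
    by_contra hne
    exact (hK.2 e he f hf hne).1 h
  -- poor cells
  have hpoor : (K.filter (fun e => ¬ 4 ≤ (K.filter (fun f => cl f = cl e)).card)).card ≤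
      3 * C0 := by
    set Kp := K.filter (fun e => ¬ 4 ≤ (K.filter (fun f => cl f = cl e)).card) with hKp
    have h1 : Kp.card ≤ 3 * (Kp.image cl).card := by
      refine Finset.card_le_mul_card_image _ _ fun c hc => ?_
      obtain ⟨e, he, rfl⟩ := Finset.mem_image.mp hc
      have h2 := (Finset.mem_filter.mp he).2
      have h3 : (Kp.filter (fun f => cl f = cl e)).card ≤
          (K.filter (fun f => cl f = cl e)).card :=
        Finset.card_le_card (Finset.filter_subset_filter _ (Finset.filter_subset _ _))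
      omega
    have h2 : (Kp.image cl).card ≤ C0 :=
      (Finset.card_le_card (Finset.image_subset_image (Finset.filter_subset _ _))).trans hC0
    omega
  have hsplit : K.card ≤ Kr.card + 3 * C0 := by
    refine le_trans ?_ (Nat.add_le_add_left hpoor _)
    refine (Finset.card_le_card ?_).trans (Finset.card_union_le _ _)
    intro e he
    by_cases h4 : 4 ≤ (K.filter (fun f => cl f = cl e)).card
    · exact Finset.mem_union_left _ (Finset.mem_filter.mpr ⟨he, h4⟩)
    · exact Finset.mem_union_right _ (Finset.mem_filter.mpr ⟨he, h4⟩)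
  -- partners
  have hpart : ∀ e, ∃ g, e ∈ Kr → (g ∈ K ∧ cl g = cl e ∧ (e.1 + 2 ≤ g.1 ∨ g.1 + 2 ≤ e.1)) := by
    intro e
    by_cases he : e ∈ Kr
    · obtain ⟨heK, h4⟩ := Finset.mem_filter.mp he
      by_contra hcon
      push Not at hcon
      have hsub : ((K.filter (fun f => cl f = cl e)).image Prod.fst) ⊆
          Finset.Icc (e.1 - 1) (e.1 + 1) := by
        intro x hx
        obtain ⟨g, hg, rfl⟩ := Finset.mem_image.mp hx
        obtain ⟨hgK, hgc⟩ := Finset.mem_filter.mp hg
        have := (hcon g).2 hgK hgc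
        rw [Finset.mem_Icc]
        omega
      have h5 := Finset.card_le_card hsub
      rw [Nat.card_Icc, Finset.card_image_of_injOn] at h5
      · omega
      · intro g hg g' hg' h
        exact hinj1 g (Finset.mem_filter.mp hg).1 g' (Finset.mem_filter.mp hg').1 h
    · exact ⟨e, fun h => absurd h he⟩
  choose gp hgp using hpart
  set f : ℕ × ℕ → Gad := fun e => gad2 e (gp e) with hf
  have hne : ∀ e ∈ Kr, e.1 ≠ (gp e).1 ∧ e.2 ≠ (gp e).2 := by
    intro e he
    have h1 := hgp e he
    have h2 : e ≠ gp e := fun h => by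
      have := h1.2.2
      rw [← h] at this
      omega
    have h3 := hK.2 e (hKrK e he) (gp e) h1.1 h2
    exact ⟨h3.1, h3.2.2.2⟩
  have hcell : ∀ e ∈ Kr, (gp e).1 / w = e.1 / w ∧ (gp e).2 / w = e.2 / w := by
    intro e he
    have h1 := (hgp e he).2.1
    exact ⟨(Prod.ext_iff.mp h1).1, (Prod.ext_iff.mp h1).2⟩
  have hok : ∀ e ∈ Kr, (f e).Ok G n := by
    intro e he
    exact gad2_ok_cell (c := cl e) hK hblk (hKrK e he) (hgp e he).1 rfl rfl (hcell e he).1
      (hcell e he).2 (hne e he).1 (hne e he).2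
  have hsb : ∀ e ∈ Kr, 3 ≤ (f e).s ∧ (f e).s ≤ 2 * w := by
    intro e he
    have h1 := hne e he
    have h2 := (hgp e he).2.2
    have h3 := hcell e he
    have k1 := same_block_sub hw (x := e.1) (y := (gp e).1) rfl h3.1
    have k2 := same_block_sub hw (x := (gp e).1) (y := e.1) h3.1 rfl
    have k3 := same_block_sub hw (x := e.2) (y := (gp e).2) rfl h3.2
    have k4 := same_block_sub hw (x := (gp e).2) (y := e.2) h3.2 rfl
    simp only [hf, gad2_s]
    omega
  set conf : ℕ × ℕ → ℕ × ℕ → Prop := fun e g => ¬ (f e).Dis (f g) with hconf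
  have hspan : ∀ e, (f e).a ≤ e.1 ∧ e.1 ≤ (f e).a' ∧ (f e).b ≤ e.2 ∧ e.2 ≤ (f e).b' := by
    intro e
    simp only [hf, gad2]
    omega
  obtain ⟨F, hFK, hFdis, hFc⟩ := vitali Kr (fun e => (f e).s) 6 conf (by
    intro e he
    have hoke := hok e he
    have hse := hsb e he
    set g := f e with hg
    have hs' : g.s = (g.a' - g.a) + (g.b' - g.b) := rfl
    set X := Finset.Icc (g.a - g.s) (g.a' + g.s) ∪ Finset.Icc (g.b - g.s) (g.b' + g.s) with hX
    have hXc : X.card ≤ 6 * g.s := by
      refine (Finset.card_union_le _ _).trans ?_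
      rw [Nat.card_Icc, Nat.card_Icc]
      have := hoke.1
      have := hoke.2.2.1
      omega
    refine le_trans ?_ hXc
    have hmemX : ∀ h ∈ Kr, conf e h → (f h).s ≤ g.s → h.1 ∈ X ∨ h.2 ∈ X := by
      intro h hh hc hs2
      have hokh := hok h hh
      have hsp := hspan h
      have hsh : (f h).s = ((f h).a' - (f h).a) + ((f h).b' - (f h).b) := rfl
      have o1 := hokh.1
      have o2 := hokh.2.1
      have o3 := hokh.2.2.1
      have o4 := hoke.1
      have o5 := hoke.2.1
      have o6 := hoke.2.2.1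
      simp only [hconf] at hc
      unfold Gad.Dis at hc
      rw [← hg] at hc
      simp only [hX, Finset.mem_union, Finset.mem_Icc]
      by_contra hcon
      apply hc
      omega
    refine Finset.card_le_card_of_injOn (fun h => if h.1 ∈ X then h.1 else h.2) ?_ ?_
    · intro h hh
      obtain ⟨h1, h2, h3⟩ := Finset.mem_filter.mp hh
      have h4 := hmemX h h1 h2 h3
      by_cases h5 : h.1 ∈ X
      · simp only [h5, if_true]; exact h5
      · simp only [h5, if_false]; exact h4.resolve_left h5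
    · intro h hh h' hh' hhh
      by_contra hne'
      have h3 := hK.2 h (hKrK h (Finset.mem_filter.mp hh).1) h'
        (hKrK h' (Finset.mem_filter.mp hh').1) hne'
      simp only at hhh
      split_ifs at hhh
      · exact h3.1 hhh
      · exact h3.2.1 hhh
      · exact h3.2.2.1 hhh
      · exact h3.2.2.2 hhh) (by
    intro e he h
    have h1 := (hok e he).1
    unfold Gad.Dis at h
    omega)
  have hFam : Fam G n f F := by
    refine ⟨fun e he => hok e (hFK he), fun e he g hg hne' => ?_⟩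
    rcases hFdis e he g hg hne' with h | h
    · exact not_not.mp h
    · exact (not_not.mp h).symm'
  obtain ⟨M, hM, hMmax⟩ := Finset.exists_max_image (F.powerset.filter (fun T => Nons f T))
    Finset.card ⟨∅, Finset.mem_filter.mpr ⟨Finset.mem_powerset.mpr (Finset.empty_subset _),
      fun z _ i hi => absurd hi (Finset.notMem_empty i)⟩⟩
  obtain ⟨hMF, hMN⟩ := Finset.mem_filter.mp hM
  rw [Finset.mem_powerset] at hMF
  have hMmax' : ∀ M' ⊆ F, Nons f M' → M'.card ≤ M.card := fun M' h1 h2 =>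
    hMmax M' (Finset.mem_filter.mpr ⟨Finset.mem_powerset.mpr h1, h2⟩)
  have hFMsum : ∑ e ∈ F \ M, (f e).s + ∑ e ∈ M, (f e).s = ∑ e ∈ F, (f e).s :=
    Finset.sum_sdiff hMF
  by_cases hheavy : ∑ e ∈ F, (f e).s ≤ 2 * ∑ e ∈ M, (f e).s
  · have hFamM : Fam G n f M := ⟨fun i hi => hFam.1 i (hMF hi),
      fun i hi j hj hij => hFam.2 i (hMF hi) j (hMF hj) hij⟩
    obtain ⟨S, hS1, hS2, hS3⟩ := heavy hG hFamM hMN w hw (fun i hi => hsb i (hFK (hMF hi)))
    refine ⟨S, hS1, hS2, ?_⟩
    have h1 : 288 * w * (S.card + 1) = 12 * (24 * w * S.card) + 288 * w := by ring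
    omega
  · obtain ⟨S, hS1, hS2, hS3⟩ := light hG hFam hMF hMN hMmax' w hw
      (fun i hi => hsb i (hFK hi))
    refine ⟨S, hS1, hS2, ?_⟩
    have h1 : 288 * w * (S.card + 1) = 36 * (8 * w * S.card) + 288 * w := by ring
    have h2 : 0 ≤ w * S.card := Nat.zero_le _
    omega

theorem q2_nat (hG : Ham G n) (hK : Chords G n K) (A q : ℕ) (hA : 1 ≤ A)
    (hq : 500000000 * A ^ 6 ≤ q) (hn1 : q * q ≤ n) (hn2 : n < (q + 1) * (q + 1))
    (hcard : n ≤ A * K.card) :
    ∃ S : Finset ℕ, (∀ s ∈ S, HasF G s) ∧ (∀ x ∈ S, ∀ y ∈ S, x < y → x + 14 * A * q ≤ y) ∧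
      q ≤ 100000 * A ^ 2 * S.card := by
  classical
  have hA1 : 1 ≤ A ^ 2 := Nat.one_le_pow _ _ hA
  have hA2 : A ≤ A ^ 2 := by nlinarith
  have hA26 : A ^ 2 ≤ A ^ 6 := Nat.pow_le_pow_right hA (by norm_num)
  have hqA : 500000000 * A ^ 2 ≤ q := by omega
  set w := 14 * A * q with hw
  have hw1 : 1 ≤ w := by rw [hw]; nlinarith
  set Ks := K.filter (fun e => e.2 < e.1 + w) with hKs
  set Kl := K.filter (fun e => e.1 + w ≤ e.2) with hKl
  have hcov : K.card ≤ Ks.card + Kl.card := by
    have hsub : K ⊆ Ks ∪ Kl := by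
      intro e he
      simp only [hKs, hKl, Finset.mem_union, Finset.mem_filter]
      by_cases h1 : e.2 < e.1 + w
      · exact Or.inl ⟨he, h1⟩
      · exact Or.inr ⟨he, by omega⟩
    exact (Finset.card_le_card hsub).trans (Finset.card_union_le _ _)
  have hq0 : 0 < q := by omega
  have hsmall : 100000 * A ^ 2 ≤ q := by omega
  rcases (by omega : K.card ≤ 2 * Ks.card ∨ K.card ≤ 2 * Kl.card) with h | h
  · obtain ⟨S, hS1, hS2, hS3⟩ := q2_short hG (hK.filter (fun e => e.2 < e.1 + w)) w hw1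
      (fun e he => (Finset.mem_filter.mp he).2)
    refine ⟨S, hS1, hS2, ?_⟩
    have h1 : q * q ≤ (560 * A ^ 2 * S.card) * q := by
      calc q * q ≤ n := hn1
        _ ≤ A * K.card := hcard
        _ ≤ A * (2 * (20 * w * S.card)) := by
            refine Nat.mul_le_mul_left _ (h.trans (Nat.mul_le_mul_left _ hS3))
        _ = (560 * A ^ 2 * S.card) * q := by rw [hw]; ring
    have h2 : q ≤ 560 * A ^ 2 * S.card := Nat.le_of_mul_le_mul_right h1 hq0
    have h3 : 560 * A ^ 2 * S.card = 560 * (A ^ 2 * S.card) := by ring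
    have h4 : 100000 * A ^ 2 * S.card = 100000 * (A ^ 2 * S.card) := by ring
    omega
  · have hKlC := hK.filter (fun e => e.1 + w ≤ e.2)
    set N := n / w + 1 with hN
    have hNpos : 1 ≤ N := Nat.le_add_left 1 _
    have hnN : n ≤ N * w := by
      have h1 := Nat.div_add_mod n w
      have h2 := Nat.mod_lt n (show w > 0 by omega)
      have h3 : N * w = w * (n / w) + w := by rw [hN]; ring
      omega
    have hN13 : 13 * A * N ≤ q := by
      have h1 : w * (n / w) ≤ n := Nat.mul_div_le n w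
      have h2 : 14 * A * (n / w) ≤ q + 2 := by
        by_contra h
        have h3 : q + 3 ≤ 14 * A * (n / w) := by omega
        have h4 : (q + 3) * q ≤ 14 * A * (n / w) * q := Nat.mul_le_mul_right q h3
        have h5 : 14 * A * (n / w) * q = w * (n / w) := by rw [hw]; ring
        nlinarith
      have h6 : 14 * (13 * A * N) = 13 * (14 * A * (n / w)) + 13 * (14 * A) := by rw [hN]; ring
      nlinarith
    have hM : ∀ e ∈ Kl, e.1 ≤ e.2 ∧ e.2 < n ∧ e.2 < e.1 + w * N := by
      intro e he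
      have h1 := hKlC.1 e he
      refine ⟨by have := h1.1; omega, h1.2.1, ?_⟩
      have h2 : w * N = N * w := Nat.mul_comm _ _
      have := h1.2.1
      omega
    have hcells := cells_le (M := N) hw1 hnN hM
    obtain ⟨S, hS1, hS2, hS3⟩ := q2_long hG hKlC hw1
      (fun e he => div_ne_of_long hw1 (Finset.mem_filter.mp he).2) _ hcells
    refine ⟨S, hS1, hS2, ?_⟩
    have h169 : 169 * A ^ 2 * (N * N) ≤ q * q := by
      have := Nat.mul_le_mul hN13 hN13
      calc 169 * A ^ 2 * (N * N) = 13 * A * N * (13 * A * N) := by ring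
        _ ≤ q * q := this
    have hNN : N * (N + 1) ≤ 2 * (N * N) := by nlinarith
    -- q^2 ≤ 2 A (3 N (N+1) + 288 w (|S|+1)) and 12 A N^2 ≤ q^2 / 2
    have h1 : q * q ≤ 2 * A * (3 * (N * (N + 1)) + 288 * w * (S.card + 1)) := by
      calc q * q ≤ n := hn1
        _ ≤ A * K.card := hcard
        _ ≤ A * (2 * (3 * (N * (N + 1)) + 288 * w * (S.card + 1))) :=
            Nat.mul_le_mul_left _ (h.trans (Nat.mul_le_mul_left _ hS3))
        _ = _ := by ring
    have h2 : 2 * A * (3 * (N * (N + 1))) ≤ 12 * A ^ 2 * (N * N) := by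
      calc 2 * A * (3 * (N * (N + 1))) = 6 * A * (N * (N + 1)) := by ring
        _ ≤ 6 * A ^ 2 * (2 * (N * N)) := Nat.mul_le_mul (Nat.mul_le_mul_left _ hA2) hNN
        _ = 12 * A ^ 2 * (N * N) := by ring
    have h3 : 2 * A * (288 * w * (S.card + 1)) = (8064 * A ^ 2 * (S.card + 1)) * q := by
      rw [hw]; ring
    have h4 : 2 * A * (3 * (N * (N + 1)) + 288 * w * (S.card + 1)) =
        2 * A * (3 * (N * (N + 1))) + 2 * A * (288 * w * (S.card + 1)) := by ring
    have h5 : q * q ≤ (16128 * A ^ 2 * (S.card + 1)) * q := by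
      have h6 : 169 * A ^ 2 * (N * N) = 169 * (A ^ 2 * (N * N)) := by ring
      have h7 : 12 * A ^ 2 * (N * N) = 12 * (A ^ 2 * (N * N)) := by ring
      have h8 : (16128 * A ^ 2 * (S.card + 1)) * q = 2 * ((8064 * A ^ 2 * (S.card + 1)) * q) := by
        ring
      omega
    have h6 : q ≤ 16128 * A ^ 2 * (S.card + 1) := Nat.le_of_mul_le_mul_right h5 hq0
    have h7 : 16128 * A ^ 2 * (S.card + 1) = 16128 * (A ^ 2 * S.card) + 16128 * A ^ 2 := by ring
    have h8 : 100000 * A ^ 2 * S.card = 100000 * (A ^ 2 * S.card) := by ring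
    omega

end Pool.Agent.Helper36.CL
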