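import Pool.Agent.Helper36.CL.Cyc

/-!
# Transfer of a matching of chords to the model on `{0, ..., n-1}`
-/

set_option autoImplicit false

namespace Pool.Agent.Helper36.CL

open Finset

theorem exists_model_chords {V : Type*} [Fintype V] [DecidableEq V] (G : SimpleGraph V) {a : V}
    (p : G.Walk a a) (hp : p.IsHamiltonianCycle) (h3 : 3 ≤ Fintype.card V)
    (M : Finset (Sym2 V)) (hM : ∀ e ∈ M, e ∈ G.edgeSet ∧ e ∉ p.edges)
    (hdis : ∀ e ∈ M, ∀ f ∈ M, e ≠ f → ∀ v, v ∈ e → v ∉ f) :
    ∃ G' : SimpleGraph ℕ, Ham G' (Fintype.card V) ∧ (∀ k, HasF G' k → HasCyc G k) ∧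
      ∃ K : Finset (ℕ × ℕ), Chords G' (Fintype.card V) K ∧ K.card = M.card := by
  classical
  have hlen : p.length = Fintype.card V := hp.length_eq
  set n := Fintype.card V with hn
  let ψ : ℕ → V := p.getVert
  have hinj : ∀ i < n, ∀ j < n, ψ i = ψ j → i = j := by
    intro i hi j hj h
    refine hp.isCycle.getVert_injOn' ?_ ?_ h
    · show i ≤ p.length - 1
      omega
    · show j ≤ p.length - 1
      omega
  have hψ0 : ψ n = ψ 0 := by
    show p.getVert n = p.getVert 0
    rw [← hlen]
    simp
  have hsurj : ∀ v, ∃ i < n, ψ i = v := by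
    intro v
    have hv := hp.mem_support v
    rw [SimpleGraph.Walk.mem_support_iff_exists_getVert] at hv
    obtain ⟨i, hi, hil⟩ := hv
    by_cases h : i = n
    · exact ⟨0, by omega, by rw [← hψ0, ← h]; exact hi⟩
    · exact ⟨i, by omega, hi⟩
  have hedge : ∀ i < n, s(ψ i, ψ (i + 1)) ∈ p.edges := by
    intro i hi
    rw [SimpleGraph.Walk.mk_mem_edges_iff_exists]
    exact ⟨i, by omega, rfl⟩
  let G' : SimpleGraph ℕ :=
    { Adj := fun i j => i < n ∧ j < n ∧ G.Adj (ψ i) (ψ j)
      symm := ⟨fun i j h => ⟨h.2.1, h.1, h.2.2.symm⟩⟩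
      loopless := ⟨fun i h => G.loopless.irrefl _ h.2.2⟩ }
  refine ⟨G', ⟨h3, ?_, ?_⟩, ?_, ?_⟩
  · intro i hi
    refine ⟨by omega, by omega, ?_⟩
    exact p.adj_getVert_succ (by omega)
  · refine ⟨by omega, by omega, ?_⟩
    have h1 : G.Adj (p.getVert (n - 1)) (p.getVert (n - 1 + 1)) :=
      p.adj_getVert_succ (by omega)
    have h2 : p.getVert (n - 1 + 1) = p.getVert 0 := by
      rw [show n - 1 + 1 = p.length by omega]
      simp
    rw [h2] at h1
    exact h1
  · rintro k ⟨hk, φ, hφ, hs, hw⟩
    have hlt : ∀ i < k, φ i < n := by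
      intro i hi
      by_cases h : i + 1 < k
      · exact (hs i h).1
      · have : i = k - 1 := by omega
        rw [this]
        exact hw.1
    refine hasCyc_of_adj G k hk (fun i => ψ (φ i)) ?_ ?_ ?_
    · intro i hi j hj h
      exact hφ i hi j hj (hinj _ (hlt i hi) _ (hlt j hj) h)
    · intro i hi
      exact (hs i hi).2.2
    · exact hw.2.2
  · -- the pair of indices of a chord
    have hpair : ∀ e ∈ M, ∃ q : ℕ × ℕ, q.1 < q.2 ∧ q.2 < n ∧ e = s(ψ q.1, ψ q.2) := by
      intro e he
      obtain ⟨heG, -⟩ := hM e he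
      induction e using Sym2.ind with
      | _ x y =>
        obtain ⟨i, hi, rfl⟩ := hsurj x
        obtain ⟨j, hj, rfl⟩ := hsurj y
        rw [SimpleGraph.mem_edgeSet] at heG
        have hne : i ≠ j := by
          rintro rfl
          exact G.loopless.irrefl _ heG
        rcases lt_or_gt_of_ne hne with h | h
        · exact ⟨(i, j), h, hj, rfl⟩
        · exact ⟨(j, i), h, hi, Sym2.eq_swap⟩
    choose! q hq1 hq2 hq3 using hpair
    have hqinj : ∀ e ∈ M, ∀ f ∈ M, q e = q f → e = f := by
      intro e he f hf h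
      rw [hq3 e he, hq3 f hf, h]
    refine ⟨M.image q, ⟨?_, ?_⟩, Finset.card_image_of_injOn (by
      intro e he f hf h
      exact hqinj e he f hf h)⟩
    · intro c hc
      obtain ⟨e, he, rfl⟩ := Finset.mem_image.mp hc
      have h1 := hq1 e he
      have h2 := hq2 e he
      have h3' := hq3 e he
      obtain ⟨heG, hep⟩ := hM e he
      have hadj : G.Adj (ψ (q e).1) (ψ (q e).2) := by
        rw [h3', SimpleGraph.mem_edgeSet] at heG
        exact heG
      refine ⟨?_, h2, ?_, ⟨by omega, h2, hadj⟩⟩
      · by_contra h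
        apply hep
        have h4 : (q e).2 = (q e).1 + 1 := by omega
        rw [h3', h4]
        exact hedge _ (by omega)
      · rintro ⟨h4, h5⟩
        apply hep
        have h6 := hedge (n - 1) (by omega)
        rw [show n - 1 + 1 = n by omega, hψ0, Sym2.eq_swap] at h6
        rw [h3', h4, h5]
        exact h6
    · intro c hc d hd hcd
      obtain ⟨e, he, rfl⟩ := Finset.mem_image.mp hc
      obtain ⟨f, hf, rfl⟩ := Finset.mem_image.mp hd
      have hef : e ≠ f := fun h => hcd (by rw [h])
      have key := hdis e he f hf hef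
      have m1 : ψ (q e).1 ∈ e := by
        rw [hq3 e he]
        simp only [Sym2.mem_iff]
        left
        rw [← hq3 e he]
      have m2 : ψ (q e).2 ∈ e := by
        rw [hq3 e he]
        simp only [Sym2.mem_iff]
        right
        rw [← hq3 e he]
      have m3 : ψ (q f).1 ∈ f := by
        rw [hq3 f hf]
        simp only [Sym2.mem_iff]
        left
        rw [← hq3 f hf]
      have m4 : ψ (q f).2 ∈ f := by
        rw [hq3 f hf]
        simp only [Sym2.mem_iff]
        right
        rw [← hq3 f hf]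
      refine ⟨?_, ?_, ?_, ?_⟩
      · intro h; rw [h] at m1; exact key _ m1 m3
      · intro h; rw [h] at m1; exact key _ m1 m4
      · intro h; rw [h] at m2; exact key _ m2 m3
      · intro h; rw [h] at m2; exact key _ m2 m4

end Pool.Agent.Helper36.CL
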