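import Pool.Agent.Helper36.CL.Q1
import Pool.Agent.Helper36.CL.Q2
import Pool.Agent.Helper36.CL.Trans

/-!
# Real constants
-/

set_option autoImplicit false

namespace Pool.Agent.Helper36.CL

open Finset

/-- Clustered lengths in the model. -/
theorem q1_real (A : ℕ) (hA : 1 ≤ A) : ∃ c C : ℝ, 0 < c ∧ 0 < C ∧ ∃ n₀ : ℕ,
    ∀ (n : ℕ) (G : SimpleGraph ℕ) (K : Finset (ℕ × ℕ)), n₀ ≤ n → Ham G n → Chords G n K →
      n ≤ A * K.card → ∃ (x : ℕ) (S : Finset ℕ),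
        (∀ s ∈ S, (x : ℝ) ≤ s ∧ (s : ℝ) ≤ x + C * √(n : ℝ) ∧ HasF G s) ∧
        c * √(n : ℝ) ≤ S.card := by
  have hA6 : 1 ≤ A ^ 6 := Nat.one_le_pow _ _ hA
  set D : ℕ := 500000000 * A ^ 6 with hD
  have hDpos : 0 < D := by omega
  refine ⟨1 / (2 * D), 28 * A, by positivity, by positivity, D * D, ?_⟩
  intro n G K hn hG hK hcard
  set q := Nat.sqrt n with hq
  have hq1 : q * q ≤ n := Nat.sqrt_le n
  have hq2 : n < (q + 1) * (q + 1) := Nat.lt_succ_sqrt n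
  have hqD : D ≤ q := by
    rw [hq, Nat.le_sqrt]
    exact hn
  obtain ⟨x, S, hS, hSc⟩ := q1_nat hG hK A q hA hqD hq1 hq2 hcard
  have hqr : (q : ℝ) ≤ √(n : ℝ) := by
    apply Real.le_sqrt_of_sq_le
    have : ((q * q : ℕ) : ℝ) ≤ n := by exact_mod_cast hq1
    push_cast at this
    nlinarith
  have hqr2 : √(n : ℝ) ≤ 2 * q := by
    rw [Real.sqrt_le_left (by positivity)]
    have h1 : (n : ℝ) ≤ ((q + 1) * (q + 1) : ℕ) := by exact_mod_cast hq2.le
    push_cast at h1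
    have h2 : (1 : ℝ) ≤ q := by exact_mod_cast (by omega : 1 ≤ q)
    nlinarith
  refine ⟨x, S, fun s hs => ?_, ?_⟩
  · obtain ⟨h1, h2, h3⟩ := hS s hs
    refine ⟨by exact_mod_cast h1, ?_, h3⟩
    have h4 : (s : ℝ) ≤ ((x + 28 * A * q : ℕ) : ℝ) := by exact_mod_cast h2
    push_cast at h4
    have h5 : (28 * A : ℝ) * q ≤ 28 * A * √(n : ℝ) := by
      apply mul_le_mul_of_nonneg_left hqr (by positivity)
    linarith
  · have h1 : (q : ℝ) ≤ ((D * S.card : ℕ) : ℝ) := by exact_mod_cast hSc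
    push_cast at h1
    have hDr : (0 : ℝ) < D := by exact_mod_cast hDpos
    rw [div_mul_eq_mul_div, one_mul, div_le_iff₀ (by positivity)]
    nlinarith

/-- Separated lengths in the model. -/
theorem q2_real (A : ℕ) (hA : 1 ≤ A) : ∃ c : ℝ, 0 < c ∧ ∃ n₀ : ℕ,
    ∀ (n : ℕ) (G : SimpleGraph ℕ) (K : Finset (ℕ × ℕ)), n₀ ≤ n → Ham G n → Chords G n K →
      n ≤ A * K.card → ∃ S : Finset ℕ, (∀ s ∈ S, HasF G s) ∧
        (∀ s ∈ S, ∀ t ∈ S, s < t → (s : ℝ) + √(n : ℝ) ≤ t) ∧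
        c * √(n : ℝ) ≤ S.card := by
  have hA6 : 1 ≤ A ^ 6 := Nat.one_le_pow _ _ hA
  set D : ℕ := 500000000 * A ^ 6 with hD
  have hDpos : 0 < D := by omega
  refine ⟨1 / (2 * D), by positivity, D * D, ?_⟩
  intro n G K hn hG hK hcard
  set q := Nat.sqrt n with hq
  have hq1 : q * q ≤ n := Nat.sqrt_le n
  have hq2 : n < (q + 1) * (q + 1) := Nat.lt_succ_sqrt n
  have hqD : D ≤ q := by
    rw [hq, Nat.le_sqrt]
    exact hn
  obtain ⟨S, hS1, hS2, hSc⟩ := q2_nat hG hK A q hA hqD hq1 hq2 hcard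
  have hqr2 : √(n : ℝ) ≤ 2 * q := by
    rw [Real.sqrt_le_left (by positivity)]
    have h1 : (n : ℝ) ≤ ((q + 1) * (q + 1) : ℕ) := by exact_mod_cast hq2.le
    push_cast at h1
    have h2 : (1 : ℝ) ≤ q := by exact_mod_cast (by omega : 1 ≤ q)
    nlinarith
  refine ⟨S, hS1, fun s hs t ht hst => ?_, ?_⟩
  · have h1 := hS2 s hs t ht hst
    have h2 : s + 2 * q ≤ t := by
      have h3 : 2 * q ≤ 14 * A * q := Nat.mul_le_mul_right _ (by omega)
      omega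
    have h4 : ((s + 2 * q : ℕ) : ℝ) ≤ t := by exact_mod_cast h2
    push_cast at h4
    linarith
  · have h0 : q ≤ D * S.card := hSc.trans (Nat.mul_le_mul_right _ (by
      have : A ^ 2 ≤ A ^ 6 := Nat.pow_le_pow_right hA (by norm_num)
      omega))
    have h1 : (q : ℝ) ≤ ((D * S.card : ℕ) : ℝ) := by exact_mod_cast h0
    push_cast at h1
    have hDr : (0 : ℝ) < D := by exact_mod_cast hDpos
    rw [div_mul_eq_mul_div, one_mul, div_le_iff₀ (by positivity)]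
    nlinarith

end Pool.Agent.Helper36.CL
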