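import Pool.Agent.Helper36.CL.Rel

/-!
# Gadgets formed by two chords, cells, and replacing gadgets inside their cells
-/

set_option autoImplicit false

namespace Pool.Agent.Helper36.CL

open Finset

variable {ι : Type*} {G : SimpleGraph ℕ} {n m : ℕ} {φ : ℕ → ℕ} {f f' : ι → Gad} {I J : Finset ι}

/-- The gadget formed by two chords. -/
def gad2 (e f : ℕ × ℕ) : Gad :=
  ⟨min e.1 f.1, max e.1 f.1, min e.2 f.2, max e.2 f.2, decide (e.1 < f.1 ↔ e.2 < f.2)⟩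

theorem gad2_ch {e f : ℕ × ℕ} (h1 : e.1 ≠ f.1) (h2 : e.2 ≠ f.2) (x y : ℕ) :
    (gad2 e f).ch x y ↔ (x = e.1 ∧ y = e.2) ∨ (x = f.1 ∧ y = f.2) := by
  unfold Gad.ch gad2
  simp only [decide_eq_true_eq, decide_eq_false_iff_not]
  rcases Nat.lt_or_gt_of_ne h1 with h3 | h3 <;> rcases Nat.lt_or_gt_of_ne h2 with h4 | h4
  · simp only [h3, h4, iff_self, true_and, not_true_eq_false, false_and, or_false,
      min_eq_left h3.le, max_eq_right h3.le, min_eq_left h4.le, max_eq_right h4.le]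
  · have h5 : ¬ e.2 < f.2 := by omega
    simp only [h3, h5, iff_false, not_true_eq_false, false_and, not_false_eq_true, true_and,
      false_or, min_eq_left h3.le, max_eq_right h3.le, min_eq_right h4.le, max_eq_left h4.le]
  · have h5 : ¬ e.1 < f.1 := by omega
    simp only [h4, h5, false_iff, not_true_eq_false, false_and, not_false_eq_true, true_and,
      false_or, min_eq_right h3.le, max_eq_left h3.le, min_eq_left h4.le, max_eq_right h4.le]
    tauto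
  · have h5 : ¬ e.1 < f.1 := by omega
    have h6 : ¬ e.2 < f.2 := by omega
    simp only [h6, h5, iff_self, not_true_eq_false, false_and, true_and,
      or_false, min_eq_right h3.le, max_eq_left h3.le, min_eq_right h4.le, max_eq_left h4.le]
    tauto

theorem gad2_ok {e f : ℕ × ℕ} (he : IsChord G n e.1 e.2) (hf : IsChord G n f.1 f.2)
    (h1 : e.1 ≠ f.1) (h2 : e.2 ≠ f.2) (h3 : e.1 < f.2) (h4 : f.1 < e.2) :
    (gad2 e f).Ok G n := by
  obtain ⟨he1, he2, he3, he4⟩ := he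
  obtain ⟨hf1, hf2, hf3, hf4⟩ := hf
  refine ⟨?_, ?_, ?_, ?_⟩
  · simp only [gad2]; omega
  · simp only [gad2]; omega
  · simp only [gad2]; omega
  · intro x y hxy
    rcases (gad2_ch h1 h2 x y).mp hxy with ⟨rfl, rfl⟩ | ⟨rfl, rfl⟩
    · exact ⟨he1, he2, he3, he4⟩
    · exact ⟨hf1, hf2, hf3, hf4⟩

/-- A gadget whose hulls lie in the two blocks of a cell. -/
def InCell (w : ℕ) (c : ℕ × ℕ) (g : Gad) : Prop :=
  g.a / w = c.1 ∧ g.a' / w = c.1 ∧ g.b / w = c.2 ∧ g.b' / w = c.2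

/-- disjoint cells -/
def Dj (c d : ℕ × ℕ) : Prop := c.1 ≠ d.1 ∧ c.1 ≠ d.2 ∧ c.2 ≠ d.1 ∧ c.2 ≠ d.2

theorem Dj.symm' {c d : ℕ × ℕ} (h : Dj c d) : Dj d c :=
  ⟨h.1.symm, h.2.2.1.symm, h.2.1.symm, h.2.2.2.symm⟩

theorem lt_of_div_lt {w x y : ℕ} (h : x / w < y / w) : x < y := by
  by_contra h1
  exact absurd (Nat.div_le_div_right (c := w) (Nat.le_of_not_lt h1)) (by omega)

theorem div_lt_or {w x y : ℕ} (h : x / w ≠ y / w) : x < y ∨ y < x := by
  rcases Nat.lt_or_gt_of_ne h with h1 | h1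
  · exact Or.inl (lt_of_div_lt h1)
  · exact Or.inr (lt_of_div_lt h1)

theorem lt_iff_div_lt {w x y : ℕ} (h : x / w ≠ y / w) : x < y ↔ x / w < y / w := by
  constructor
  · intro h1
    exact lt_of_le_of_ne (Nat.div_le_div_right h1.le) h
  · exact lt_of_div_lt

theorem cmp_of {w x y x' y' i j : ℕ} (hx : x / w = i) (hy : y / w = j) (hx' : x' / w = i)
    (hy' : y' / w = j) (hij : i ≠ j) : x < y ↔ x' < y' := by
  rw [lt_iff_div_lt (w := w) (by rw [hx, hy]; exact hij), hx, hy,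
    lt_iff_div_lt (w := w) (x := x') (by rw [hx', hy']; exact hij), hx', hy']

theorem InCell.dis {w : ℕ} {c d : ℕ × ℕ} {g h : Gad} (hg : InCell w c g) (hh : InCell w d h)
    (hcd : Dj c d) : g.Dis h := by
  obtain ⟨g1, g2, g3, g4⟩ := hg
  obtain ⟨h1, h2, h3, h4⟩ := hh
  obtain ⟨d1, d2, d3, d4⟩ := hcd
  refine ⟨?_, ?_, ?_, ?_⟩
  · rcases Nat.lt_or_gt_of_ne d1 with k | k
    · left; apply lt_of_div_lt (w := w); rw [g2, h1]; exact k
    · right; apply lt_of_div_lt (w := w); rw [g1, h2]; exact k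
  · rcases Nat.lt_or_gt_of_ne d2 with k | k
    · left; apply lt_of_div_lt (w := w); rw [g2, h3]; exact k
    · right; apply lt_of_div_lt (w := w); rw [g1, h4]; exact k
  · rcases Nat.lt_or_gt_of_ne d3 with k | k
    · left; apply lt_of_div_lt (w := w); rw [g4, h1]; exact k
    · right; apply lt_of_div_lt (w := w); rw [g3, h2]; exact k
  · rcases Nat.lt_or_gt_of_ne d4 with k | k
    · left; apply lt_of_div_lt (w := w); rw [g4, h3]; exact k
    · right; apply lt_of_div_lt (w := w); rw [g3, h4]; exact k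

theorem Nons_congr (h : ∀ i ∈ I, ∀ j ∈ I, Amat f i j = Amat f' i j) (hN : Nons f I) :
    Nons f' I := by
  intro z hz
  apply hN z
  intro i hi
  rw [← hz i hi]
  exact Finset.sum_congr rfl fun j hj => by rw [h i hi j hj]

theorem Amat_congr (w : ℕ) (cell : ι → ℕ × ℕ) (hf : ∀ i ∈ I, InCell w (cell i) (f i))
    (hf' : ∀ i ∈ I, InCell w (cell i) (f' i)) (htw : ∀ i ∈ I, (f i).tw = (f' i).tw)
    (hlt : ∀ i ∈ I, (f i).a < (f i).a' ∧ (f i).a' < (f i).b ∧ (f i).b < (f i).b')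
    (hlt' : ∀ i ∈ I, (f' i).a < (f' i).a' ∧ (f' i).a' < (f' i).b ∧ (f' i).b < (f' i).b')
    (hDj : ∀ i ∈ I, ∀ j ∈ I, i ≠ j → Dj (cell i) (cell j)) :
    ∀ i ∈ I, ∀ j ∈ I, Amat f i j = Amat f' i j := by
  intro i hi j hj
  unfold Amat
  by_cases hij : i = j
  · subst hij
    have h1 := hlt i hi
    have h2 := hlt' i hi
    have k1 : (f i).a < (f i).a' ∧ (f i).a' < (f i).b := ⟨h1.1, h1.2.1⟩
    have k2 : (f' i).a < (f' i).a' ∧ (f' i).a' < (f' i).b := ⟨h2.1, h2.2.1⟩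
    have k3 : ¬ ((f i).a < (f i).b' ∧ (f i).b' < (f i).b) := by omega
    have k4 : ¬ ((f' i).a < (f' i).b' ∧ (f' i).b' < (f' i).b) := by omega
    rw [if_pos k1, if_pos k2, if_neg k3, if_neg k4, htw i hi]
  · obtain ⟨a1, a2, a3, a4⟩ := hf i hi
    obtain ⟨b1, b2, b3, b4⟩ := hf j hj
    obtain ⟨a1', a2', a3', a4'⟩ := hf' i hi
    obtain ⟨b1', b2', b3', b4'⟩ := hf' j hj
    obtain ⟨d1, d2, d3, d4⟩ := hDj i hi j hj hij
    have e1 : ((f i).a < (f j).a') ↔ ((f' i).a < (f' j).a') := cmp_of a1 b2 a1' b2' d1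
    have e2 : ((f j).a' < (f i).b) ↔ ((f' j).a' < (f' i).b) := cmp_of b2 a3 b2' a3' d3.symm
    have e3 : ((f i).a < (f j).b') ↔ ((f' i).a < (f' j).b') := cmp_of a1 b4 a1' b4' d2
    have e4 : ((f j).b' < (f i).b) ↔ ((f' j).b' < (f' i).b) := cmp_of b4 a3 b4' a3' d4.symm
    simp only [e1, e2, e3, e4, hij, false_and, if_false]

/-- `y` lies strictly between `x` and `z`. -/
def Btw (x y z : ℕ) : Prop := (x < y ∧ y < z) ∨ (z < y ∧ y < x)

/-- Three chords of `K` in the cell `c`, the second one between the other two on both sides. -/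
def Tri (K : Finset (ℕ × ℕ)) (w : ℕ) (c : ℕ × ℕ) (t : (ℕ × ℕ) × (ℕ × ℕ) × (ℕ × ℕ)) : Prop :=
  (t.1 ∈ K ∧ t.1.1 / w = c.1 ∧ t.1.2 / w = c.2) ∧
  (t.2.1 ∈ K ∧ t.2.1.1 / w = c.1 ∧ t.2.1.2 / w = c.2) ∧
  (t.2.2 ∈ K ∧ t.2.2.1 / w = c.1 ∧ t.2.2.2 / w = c.2) ∧
  Btw t.1.1 t.2.1.1 t.2.2.1 ∧ Btw t.1.2 t.2.1.2 t.2.2.2

/-- the outer gadget of a triple -/
def og (t : (ℕ × ℕ) × (ℕ × ℕ) × (ℕ × ℕ)) : Gad := gad2 t.1 t.2.2

theorem gad2_inCell {w : ℕ} {c e f : ℕ × ℕ} (he1 : e.1 / w = c.1) (he2 : e.2 / w = c.2)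
    (hf1 : f.1 / w = c.1) (hf2 : f.2 / w = c.2) : InCell w c (gad2 e f) := by
  unfold InCell gad2
  simp only
  rcases le_total e.1 f.1 with h | h <;> rcases le_total e.2 f.2 with h' | h' <;>
    simp only [min_eq_left h, min_eq_right h, max_eq_left h, max_eq_right h, min_eq_left h',
      min_eq_right h', max_eq_left h', max_eq_right h'] <;> exact ⟨by assumption, by assumption,
        by assumption, by assumption⟩

/-- A state: a nonsingular family of triples in pairwise disjoint cells. -/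
def St (K : Finset (ℕ × ℕ)) (w : ℕ) (I : Finset (ℕ × ℕ))
    (τ : ℕ × ℕ → (ℕ × ℕ) × (ℕ × ℕ) × (ℕ × ℕ)) : Prop :=
  (∀ c ∈ I, Tri K w c (τ c)) ∧ (∀ c ∈ I, ∀ d ∈ I, c ≠ d → Dj c d) ∧
    Nons (fun c => og (τ c)) I

theorem exists_max_state (K : Finset (ℕ × ℕ)) (w : ℕ) :
    ∃ I τ, St K w I τ ∧ ∀ I' τ', St K w I' τ' → I'.card ≤ I.card := by
  classical
  have hb : ∀ I τ, St K w I τ → I.card ≤ K.card := by
    intro I τ h
    have : I ⊆ K.image (fun e => (e.1 / w, e.2 / w)) := by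
      intro c hc
      obtain ⟨⟨h1, h2, h3⟩, _⟩ := h.1 c hc
      exact Finset.mem_image.mpr ⟨(τ c).1, h1, by rw [h2, h3]⟩
    exact (Finset.card_le_card this).trans Finset.card_image_le
  have h0 : St K w ∅ (fun _ => ((0, 0), (0, 0), (0, 0))) := by
    refine ⟨fun c hc => absurd hc (Finset.notMem_empty c),
      fun c hc => absurd hc (Finset.notMem_empty c), ?_⟩
    intro z _ i hi
    exact absurd hi (Finset.notMem_empty i)
  let P : ℕ → Prop := fun k => ∃ I τ, St K w I τ ∧ I.card = k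
  have hP0 : P 0 := ⟨∅, _, h0, rfl⟩
  obtain ⟨I, τ, hI, hk⟩ := Nat.findGreatest_spec (P := P) (Nat.zero_le K.card) hP0
  refine ⟨I, τ, hI, ?_⟩
  intro I' τ' h'
  rw [hk]
  exact Nat.le_findGreatest (hb I' τ' h') ⟨I', τ', h', rfl⟩

end Pool.Agent.Helper36.CL
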