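import Pool.Agent.Helper36.CL.Defs

/-!
# The graph of a family of gadgets is connected iff its interlace matrix is nonsingular
-/

set_option autoImplicit false

namespace Pool.Agent.Helper36.CL

open Finset

namespace Gf2

variable {ι : Type*} {G : SimpleGraph ℕ} {n : ℕ} {f : ι → Gad} {I : Finset ι}

lemma ok_lt {g : Gad} (h : g.Ok G n) : g.a < g.a' ∧ g.a' < g.b ∧ g.b < g.b' ∧ g.b' < n := by
  obtain ⟨h1, h2, h3, h4⟩ := h
  refine ⟨h1, h2, h3, ?_⟩
  cases htw : g.tw with
  | true => exact (h4 g.a' g.b' (Or.inl ⟨htw, Or.inr ⟨rfl, rfl⟩⟩)).2.1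
  | false => exact (h4 g.a g.b' (Or.inr ⟨htw, Or.inl ⟨rfl, rfl⟩⟩)).2.1

/-- indicator -/
def ind (p : Prop) [Decidable p] : ZMod 2 := if p then 1 else 0

lemma ind_add (p x y : ℕ) (h : x ≤ y) :
    ind (p ≤ y) + ind (p ≤ x) = ind (x < p ∧ p ≤ y) := by
  unfold ind
  split_ifs <;> first | omega | rfl

/-- The potential. -/
def F (f : ι → Gad) (I : Finset ι) (z : ι → ZMod 2) (v : ℕ) : ZMod 2 :=
  ∑ j ∈ I, z j * (ind ((f j).a' ≤ v) + ind ((f j).b' ≤ v))

lemma F_diff (z : ι → ZMod 2) {x y : ℕ} (h : x ≤ y) :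
    F f I z y + F f I z x = ∑ j ∈ I, z j * (ind (x < (f j).a' ∧ (f j).a' ≤ y) +
      ind (x < (f j).b' ∧ (f j).b' ≤ y)) := by
  rw [F, F, ← sum_add_distrib]
  refine sum_congr rfl fun j _ => ?_
  rw [← ind_add _ _ _ h, ← ind_add _ _ _ h]
  ring

lemma add_eq_zero_iff' (a b : ZMod 2) : a + b = 0 ↔ a = b := by
  revert a b
  decide

lemma F_zero (hF : Fam G n f I) (z : ι → ZMod 2) : F f I z 0 = 0 := by
  refine sum_eq_zero fun j hj => ?_
  have h := ok_lt (hF.1 j hj)
  have h1 : ¬ (f j).a' ≤ 0 := by omega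
  have h2 : ¬ (f j).b' ≤ 0 := by omega
  simp [ind, h1, h2]

lemma F_last (hF : Fam G n f I) (z : ι → ZMod 2) : F f I z (n - 1) = 0 := by
  refine sum_eq_zero fun j hj => ?_
  have h := ok_lt (hF.1 j hj)
  have h1 : (f j).a' ≤ n - 1 := by omega
  have h2 : (f j).b' ≤ n - 1 := by omega
  simp only [ind, h1, h2, if_true]
  have : (1 : ZMod 2) + 1 = 0 := by decide
  rw [this, mul_zero]

lemma F_step (hF : Fam G n f I) (z : ι → ZMod 2) {x : ℕ} (hx : ¬ Cut f I x) :
    F f I z (x + 1) = F f I z x := by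
  refine sum_congr rfl fun j hj => ?_
  have h := ok_lt (hF.1 j hj)
  have h0 : ¬ (((f j).a ≤ x ∧ x < (f j).a') ∨ ((f j).b ≤ x ∧ x < (f j).b')) :=
    fun hc => hx ⟨j, hj, hc⟩
  have h1 : ((f j).a' ≤ x + 1) ↔ ((f j).a' ≤ x) := by omega
  have h2 : ((f j).b' ≤ x + 1) ↔ ((f j).b' ≤ x) := by omega
  simp only [ind, h1, h2]

lemma chord_term (hF : Fam G n f I) {i j : ι} (hi : i ∈ I) (hj : j ∈ I) {x y : ℕ}
    (hc : (f i).ch x y) :
    ind (x < (f j).a' ∧ (f j).a' ≤ y) + ind (x < (f j).b' ∧ (f j).b' ≤ y) = Amat f i j := by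
  have h1 := ok_lt (hF.1 i hi)
  have h2 := ok_lt (hF.1 j hj)
  by_cases hij : i = j
  · subst hij
    rcases hc with ⟨ht, (⟨rfl, rfl⟩ | ⟨rfl, rfl⟩)⟩ | ⟨ht, (⟨rfl, rfl⟩ | ⟨rfl, rfl⟩)⟩
    · have e1 : ((f i).a < (f i).a' ∧ (f i).a' ≤ (f i).b) := by omega
      have e2 : ¬ ((f i).a < (f i).b' ∧ (f i).b' ≤ (f i).b) := by omega
      have e3 : ((f i).a < (f i).a' ∧ (f i).a' < (f i).b) := by omega
      have e4 : ¬ ((f i).a < (f i).b' ∧ (f i).b' < (f i).b) := by omega
      simp [ind, Amat, e1, e2, e3, e4, ht]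
    · have e1 : ¬ ((f i).a' < (f i).a' ∧ (f i).a' ≤ (f i).b') := by omega
      have e2 : ((f i).a' < (f i).b' ∧ (f i).b' ≤ (f i).b') := by omega
      have e3 : ((f i).a < (f i).a' ∧ (f i).a' < (f i).b) := by omega
      have e4 : ¬ ((f i).a < (f i).b' ∧ (f i).b' < (f i).b) := by omega
      simp [ind, Amat, e2, e3, e4, ht]
    · have e1 : ((f i).a < (f i).a' ∧ (f i).a' ≤ (f i).b') := by omega
      have e2 : ((f i).a < (f i).b' ∧ (f i).b' ≤ (f i).b') := by omega
      have e3 : ((f i).a < (f i).a' ∧ (f i).a' < (f i).b) := by omega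
      have e4 : ¬ ((f i).b' < (f i).b) := by omega
      simp only [ind, Amat, e1, e2, e3, e4, ht, and_self, and_false, if_true, if_false]
      decide
    · have e1 : ¬ ((f i).a' < (f i).a' ∧ (f i).a' ≤ (f i).b) := by omega
      have e2 : ¬ ((f i).a' < (f i).b' ∧ (f i).b' ≤ (f i).b) := by omega
      have e3 : ((f i).a < (f i).a' ∧ (f i).a' < (f i).b) := by omega
      have e4 : ¬ ((f i).a < (f i).b' ∧ (f i).b' < (f i).b) := by omega
      simp only [ind, Amat, e1, e2, e3, e4, ht, and_self, if_true, if_false, add_zero]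
      decide
  · have hd := hF.2 i hi j hj hij
    unfold Gad.Dis at hd
    have hx : x = (f i).a ∨ x = (f i).a' := by
      rcases hc with ⟨_, (⟨rfl, rfl⟩ | ⟨rfl, rfl⟩)⟩ | ⟨_, (⟨rfl, rfl⟩ | ⟨rfl, rfl⟩)⟩ <;> simp
    have hy : y = (f i).b ∨ y = (f i).b' := by
      rcases hc with ⟨_, (⟨rfl, rfl⟩ | ⟨rfl, rfl⟩)⟩ | ⟨_, (⟨rfl, rfl⟩ | ⟨rfl, rfl⟩)⟩ <;> simp
    have e1 : (x < (f j).a' ∧ (f j).a' ≤ y) ↔ ((f i).a < (f j).a' ∧ (f j).a' < (f i).b) := by
      omega
    have e2 : (x < (f j).b' ∧ (f j).b' ≤ y) ↔ ((f i).a < (f j).b' ∧ (f j).b' < (f i).b) := by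
      omega
    simp only [ind, Amat, e1, e2, hij, false_and, if_false, add_zero]

lemma F_chord (hF : Fam G n f I) (z : ι → ZMod 2) {i : ι} (hi : i ∈ I) {x y : ℕ}
    (hc : (f i).ch x y) : F f I z y + F f I z x = ∑ j ∈ I, Amat f i j * z j := by
  have h1 := ok_lt (hF.1 i hi)
  have hxy : x ≤ y := by
    rcases hc with ⟨_, (⟨rfl, rfl⟩ | ⟨rfl, rfl⟩)⟩ | ⟨_, (⟨rfl, rfl⟩ | ⟨rfl, rfl⟩)⟩ <;> omega
  rw [F_diff z hxy]
  refine sum_congr rfl fun j hj => ?_
  rw [chord_term hF hi hj hc, mul_comm]

lemma F_hull_a (hF : Fam G n f I) (z : ι → ZMod 2) {i : ι} (hi : i ∈ I) :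
    F f I z (f i).a' + F f I z (f i).a = z i := by
  have h1 := ok_lt (hF.1 i hi)
  rw [F_diff z h1.1.le, sum_eq_single i]
  · have e1 : ((f i).a < (f i).a' ∧ (f i).a' ≤ (f i).a') := by omega
    have e2 : ¬ ((f i).a < (f i).b' ∧ (f i).b' ≤ (f i).a') := by omega
    simp [ind, e1, e2]
  · intro j hj hji
    have h2 := ok_lt (hF.1 j hj)
    have hd := hF.2 i hi j hj (Ne.symm hji)
    unfold Gad.Dis at hd
    have e1 : ¬ ((f i).a < (f j).a' ∧ (f j).a' ≤ (f i).a') := by omega
    have e2 : ¬ ((f i).a < (f j).b' ∧ (f j).b' ≤ (f i).a') := by omega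
    simp [ind, e1, e2]
  · intro h
    exact absurd hi h

lemma F_hull_b (hF : Fam G n f I) (z : ι → ZMod 2) {i : ι} (hi : i ∈ I) :
    F f I z (f i).b' + F f I z (f i).b = z i := by
  have h1 := ok_lt (hF.1 i hi)
  rw [F_diff z h1.2.2.1.le, sum_eq_single i]
  · have e1 : ¬ ((f i).b < (f i).a' ∧ (f i).a' ≤ (f i).b') := by omega
    have e2 : ((f i).b < (f i).b' ∧ (f i).b' ≤ (f i).b') := by omega
    simp [ind, e1, e2]
  · intro j hj hji
    have h2 := ok_lt (hF.1 j hj)
    have hd := hF.2 i hi j hj (Ne.symm hji)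
    unfold Gad.Dis at hd
    have e1 : ¬ ((f i).b < (f j).a' ∧ (f j).a' ≤ (f i).b') := by omega
    have e2 : ¬ ((f i).b < (f j).b' ∧ (f j).b' ≤ (f i).b') := by omega
    simp [ind, e1, e2]
  · intro h
    exact absurd hi h

lemma used_ends (hF : Fam G n f I) {i : ι} (hi : i ∈ I) :
    Used n f I (f i).a ∧ Used n f I (f i).a' ∧ Used n f I (f i).b ∧ Used n f I (f i).b' := by
  have h1 := ok_lt (hF.1 i hi)
  have key : ∀ v, (v = (f i).a ∨ v = (f i).a' ∨ v = (f i).b ∨ v = (f i).b') → Used n f I v := by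
    intro v hv
    refine ⟨by omega, fun j hj => ?_⟩
    have h2 := ok_lt (hF.1 j hj)
    by_cases hij : i = j
    · subst hij
      omega
    · have hd := hF.2 i hi j hj hij
      unfold Gad.Dis at hd
      omega
  exact ⟨key _ (by simp), key _ (by simp), key _ (by simp), key _ (by simp)⟩

lemma F_hr (hF : Fam G n f I) (z : ι → ZMod 2)
    (hz : ∀ i ∈ I, ∑ j ∈ I, Amat f i j * z j = 0) {x y : ℕ} (h : Hr n f I x y) :
    F f I z x = F f I z y := by
  have key : ∀ x y, Edge n f I x y → F f I z x = F f I z y := by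
    intro x y h
    rcases h with ⟨rfl, _, hc⟩ | ⟨rfl, rfl⟩ | ⟨i, hi, hc⟩
    · exact (F_step hF z hc).symm
    · rw [F_last hF, F_zero hF]
    · have h1 := F_chord hF z hi hc
      rw [hz i hi] at h1
      exact ((add_eq_zero_iff' _ _).1 h1).symm
  rcases h with h | h
  · exact key x y h
  · exact (key y x h).symm

lemma hr_symm {x y : ℕ} (h : Hr n f I x y) : Hr n f I y x := h.symm

lemma rtg_symm {x y : ℕ} (h : Relation.ReflTransGen (Hr n f I) x y) :
    Relation.ReflTransGen (Hr n f I) y x := by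
  induction h with
  | refl => exact Relation.ReflTransGen.refl
  | tail _ h ih => exact Relation.ReflTransGen.head (hr_symm h) ih

lemma F_rtg (hF : Fam G n f I) (z : ι → ZMod 2)
    (hz : ∀ i ∈ I, ∑ j ∈ I, Amat f i j * z j = 0) {x y : ℕ}
    (h : Relation.ReflTransGen (Hr n f I) x y) : F f I z x = F f I z y := by
  induction h with
  | refl => rfl
  | tail _ h ih => exact ih.trans (F_hr hF z hz h)

end Gf2

open Gf2 in
theorem Amat_symm {ι : Type*} {G : SimpleGraph ℕ} {n : ℕ} {f : ι → Gad} {I : Finset ι}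
    (hF : Fam G n f I) {i j : ι} (hi : i ∈ I) (hj : j ∈ I) : Amat f i j = Amat f j i := by
  by_cases hij : i = j
  · rw [hij]
  · have h1 := ok_lt (hF.1 i hi)
    have h2 := ok_lt (hF.1 j hj)
    have hd := hF.2 i hi j hj hij
    unfold Gad.Dis at hd
    have hij' : ¬ j = i := fun h => hij h.symm
    simp only [Amat, hij, hij', false_and, if_false, add_zero]
    split_ifs <;> first | omega | rfl

open Gf2 in
theorem nons_iff_conn {ι : Type*} {G : SimpleGraph ℕ} {n : ℕ} {f : ι → Gad} {I : Finset ι}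
    (hn : 3 ≤ n) (hF : Fam G n f I) : Nons f I ↔ Conn n f I := by
  classical
  constructor
  · intro hN
    have hzero : Used n f I 0 := by
      refine ⟨by omega, fun j hj => ?_⟩
      omega
    let χ : ℕ → ZMod 2 := fun v => if Relation.ReflTransGen (Hr n f I) 0 v then 1 else 0
    have hχ : ∀ x y, Hr n f I x y → χ x = χ y := by
      intro x y hxy
      have : Relation.ReflTransGen (Hr n f I) 0 x ↔ Relation.ReflTransGen (Hr n f I) 0 y :=
        ⟨fun h => h.tail hxy, fun h => h.tail (hr_symm hxy)⟩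
      simp only [χ, this]
    have hχch : ∀ i ∈ I, ∀ x y, (f i).ch x y → χ x = χ y := fun i hi x y hc =>
      hχ x y (Or.inl (Or.inr (Or.inr ⟨i, hi, hc⟩)))
    let z : ι → ZMod 2 := fun i => χ (f i).a + χ (f i).a'
    have hzb : ∀ i ∈ I, χ (f i).b + χ (f i).b' = z i := by
      intro i hi
      cases htw : (f i).tw with
      | true =>
        have e1 := hχch i hi _ _ (Or.inl ⟨htw, Or.inl ⟨rfl, rfl⟩⟩)
        have e2 := hχch i hi _ _ (Or.inl ⟨htw, Or.inr ⟨rfl, rfl⟩⟩)
        simp only [z]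
        rw [e1, e2]
      | false =>
        have e1 := hχch i hi _ _ (Or.inr ⟨htw, Or.inl ⟨rfl, rfl⟩⟩)
        have e2 := hχch i hi _ _ (Or.inr ⟨htw, Or.inr ⟨rfl, rfl⟩⟩)
        simp only [z]
        rw [e1, e2, add_comm]
    have hadd : ∀ a b c d e : ZMod 2, a = e + b → c + b = d → c = a + d → c = e + c + e + c + c := by
      decide
    have hmain : ∀ v, Used n f I v → χ v = χ 0 + F f I z v := by
      intro v
      induction v using Nat.strong_induction_on with
      | _ v ih =>
        intro hv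
        rcases Nat.eq_zero_or_pos v with rfl | hpos
        · rw [F_zero hF, add_zero]
        · by_cases hcut : Cut f I (v - 1)
          · obtain ⟨i, hi, hc⟩ := hcut
            have h1 := ok_lt (hF.1 i hi)
            have hu := hv.2 i hi
            have hue := used_ends hF hi
            rcases hc with hc | hc
            · have hva : v = (f i).a' := by omega
              subst hva
              have h2 := ih (f i).a h1.1 hue.1
              have h3 := F_hull_a hF z hi
              have h4 : z i = χ (f i).a + χ (f i).a' := rfl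
              rw [h4, h2] at h3
              generalize χ (f i).a' = A at *
              generalize F f I z (f i).a' = B at *
              generalize F f I z (f i).a = C at *
              generalize χ 0 = D at *
              clear ih h2 h4
              revert A B C D
              decide
            · have hvb : v = (f i).b' := by omega
              subst hvb
              have h2 := ih (f i).b h1.2.2.1 hue.2.2.1
              have h3 := F_hull_b hF z hi
              have h4 := hzb i hi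
              rw [← h4, h2] at h3
              generalize χ (f i).b' = A at *
              generalize F f I z (f i).b' = B at *
              generalize F f I z (f i).b = C at *
              generalize χ 0 = D at *
              clear ih h2 h4
              revert A B C D
              decide
          · have hu : Used n f I (v - 1) := by
              refine ⟨by have := hv.1; omega, fun j hj => ?_⟩
              have h0 : ¬ (((f j).a ≤ v - 1 ∧ v - 1 < (f j).a') ∨
                  ((f j).b ≤ v - 1 ∧ v - 1 < (f j).b')) := fun hc => hcut ⟨j, hj, hc⟩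
              omega
            have h1 := ih (v - 1) (by omega) hu
            have h2 := F_step hF z hcut
            have h3 : v - 1 + 1 = v := by omega
            rw [h3] at h2
            have h4 : Hr n f I (v - 1) v := Or.inl (Or.inl ⟨h3.symm, hv.1, hcut⟩)
            rw [← hχ _ _ h4, h1, h2]
    have hz0 : ∀ i ∈ I, z i = 0 := by
      refine hN z fun i hi => ?_
      obtain ⟨x, y, hc, hx, hy⟩ : ∃ x y, (f i).ch x y ∧ Used n f I x ∧ Used n f I y := by
        have hue := used_ends hF hi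
        cases htw : (f i).tw with
        | true => exact ⟨_, _, Or.inl ⟨htw, Or.inl ⟨rfl, rfl⟩⟩, hue.1, hue.2.2.1⟩
        | false => exact ⟨_, _, Or.inr ⟨htw, Or.inl ⟨rfl, rfl⟩⟩, hue.1, hue.2.2.2⟩
      have h1 := F_chord hF z hi hc
      rw [← h1, add_eq_zero_iff']
      have h2 := hχch i hi x y hc
      rw [hmain x hx, hmain y hy] at h2
      exact (add_left_cancel h2).symm
    have hall : ∀ v, Used n f I v → Relation.ReflTransGen (Hr n f I) 0 v := by
      intro v hv
      have h1 := hmain v hv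
      have h2 : F f I z v = 0 := sum_eq_zero fun j hj => by rw [hz0 j hj, zero_mul]
      have h3 : χ 0 = 1 := if_pos Relation.ReflTransGen.refl
      rw [h2, add_zero, h3] at h1
      by_contra hc
      have h4 : χ v = 0 := if_neg hc
      rw [h4] at h1
      exact absurd h1 (by decide)
    intro x y hx hy
    have hs : Relation.ReflTransGen (Hr n f I) x 0 := by
      exact rtg_symm (hall x hx)
    exact hs.trans (hall y hy)
  · intro hC z hz i hi
    have hue := used_ends hF hi
    have h1 := hC _ _ hue.1 hue.2.1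
    have h2 : F f I z (f i).a = F f I z (f i).a' := F_rtg hF z hz h1
    have h3 := F_hull_a hF z hi
    rw [h2] at h3
    rw [← h3, add_eq_zero_iff']

end Pool.Agent.Helper36.CL
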