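import Pool.Agent.Helper36.CL.Gad2

/-!
# The graph on positions
-/

set_option autoImplicit false

namespace Pool.Agent.Helper36.CL

open Finset

variable {ι : Type*} {G : SimpleGraph ℕ} {n m : ℕ} {φ : ℕ → ℕ} {f f' : ι → Gad} {I J : Finset ι}

/-- The graph on the positions `0, ..., m-1`. -/
def posGraph (G : SimpleGraph ℕ) (m : ℕ) (φ : ℕ → ℕ) : SimpleGraph ℕ where
  Adj i j := i < m ∧ j < m ∧ G.Adj (φ i) (φ j)
  symm := ⟨fun _ _ h => ⟨h.2.1, h.1, h.2.2.symm⟩⟩
  loopless := ⟨fun _ h => G.loopless.irrefl _ h.2.2⟩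

theorem hr_adj (hG : Ham G n) (hF : Fam G n f I) {x y : ℕ} (h : Hr n f I x y) : G.Adj x y := by
  have key : ∀ x y, Edge n f I x y → G.Adj x y := by
    rintro x y (⟨rfl, h2, _⟩ | ⟨rfl, rfl⟩ | ⟨i, hi, h⟩)
    · exact hG.2.1 x h2
    · exact hG.2.2
    · exact ((hF.1 i hi).2.2.2 x y h).2.2.2
  rcases h with h | h
  · exact key x y h
  · exact (key y x h).symm

theorem ham_posGraph (hG : Ham G n) (hF : Fam G n f I) (hE : Ext n f I m φ) :
    Ham (posGraph G m φ) m := by
  have hm := hE.three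
  refine ⟨hE.three, fun i hi => ⟨by omega, hi, hr_adj hG hF (hE.step i hi)⟩, ?_⟩
  exact ⟨by omega, by omega, hr_adj hG hF hE.wrap⟩

theorem hasF_of_posGraph (hE : Ext n f I m φ) {k : ℕ} (h : HasF (posGraph G m φ) k) :
    HasF G k := by
  obtain ⟨h3, ψ, hinj, hs, hw⟩ := h
  have hlt : ∀ i < k, ψ i < m := by
    intro i hi
    rcases Nat.lt_or_ge (i + 1) k with h1 | h1
    · exact (hs i h1).1
    · have : i = k - 1 := by omega
      rw [this]
      exact hw.1
  refine ⟨h3, fun i => φ (ψ i), ?_, ?_, ?_⟩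
  · intro i hi j hj hij
    exact hinj i hi j hj (hE.inj _ (hlt i hi) _ (hlt j hj) hij)
  · intro i hi
    exact (hs i hi).2.2
  · exact hw.2.2

/-- A chord whose ends are not ends of gadgets of `I` is not an edge of `H_I`. -/
theorem not_hr_of_chord {x y : ℕ} (hc : IsChord G n x y)
    (hx : ∀ i ∈ I, x ≠ (f i).a ∧ x ≠ (f i).a' ∧ x ≠ (f i).b ∧ x ≠ (f i).b') :
    ¬ Hr n f I x y := by
  obtain ⟨h1, h2, h3, _⟩ := hc
  rintro (h | h)
  · rcases h with ⟨h4, _, _⟩ | ⟨h4, h5⟩ | ⟨i, hi, h⟩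
    · omega
    · omega
    · have := hx i hi
      unfold Gad.ch at h
      tauto
  · rcases h with ⟨h4, _, _⟩ | ⟨h4, h5⟩ | ⟨i, hi, h⟩
    · omega
    · exact h3 ⟨h5, h4⟩
    · have := hx i hi
      unfold Gad.ch at h
      tauto

theorem Run.between {p p' x x' : ℕ} (h : Run φ p p' x x') {i j : ℕ} (hi : p ≤ i) (hij : i ≤ j)
    (hj : j ≤ p') : Run φ i j (min (φ i) (φ j)) (max (φ i) (φ j)) := by
  obtain ⟨h1, h2, h3, h4 | h4⟩ := h
  · have e1 := h4 (i - p) (by omega)
    have e2 := h4 (j - p) (by omega)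
    rw [show p + (i - p) = i by omega] at e1
    rw [show p + (j - p) = j by omega] at e2
    refine ⟨hij, by omega, by omega, Or.inl ?_⟩
    intro k hk
    have e3 := h4 (i - p + k) (by omega)
    rw [show p + (i - p + k) = i + k by omega] at e3
    omega
  · have e1 := h4 (i - p) (by omega)
    have e2 := h4 (j - p) (by omega)
    rw [show p + (i - p) = i by omega] at e1
    rw [show p + (j - p) = j by omega] at e2
    refine ⟨hij, by omega, by omega, Or.inr ?_⟩
    intro k hk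
    have e3 := h4 (i - p + k) (by omega)
    rw [show p + (i - p + k) = i + k by omega] at e3
    omega

theorem Run.mono {p p' x x' : ℕ} (h : Run φ p p' x x') :
    (∀ i j, p ≤ i → i < j → j ≤ p' → φ i < φ j) ∨ (∀ i j, p ≤ i → i < j → j ≤ p' → φ j < φ i) := by
  obtain ⟨h1, h2, h3, h4 | h4⟩ := h
  · left
    intro i j hi hij hj
    have e1 := h4 (i - p) (by omega)
    have e2 := h4 (j - p) (by omega)
    rw [show p + (i - p) = i by omega] at e1
    rw [show p + (j - p) = j by omega] at e2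
    omega
  · right
    intro i j hi hij hj
    have e1 := h4 (i - p) (by omega)
    have e2 := h4 (j - p) (by omega)
    rw [show p + (i - p) = i by omega] at e1
    rw [show p + (j - p) = j by omega] at e2
    omega

theorem Run.btw {p p' x x' : ℕ} (h : Run φ p p' x x') {i j k : ℕ} (hi : p ≤ i) (hk : k ≤ p')
    (hij : i < j) (hjk : j < k) : Btw (φ i) (φ j) (φ k) := by
  rcases h.mono with h1 | h1
  · exact Or.inl ⟨h1 i j hi hij (by omega), h1 j k (by omega) hjk hk⟩
  · exact Or.inr ⟨h1 j k (by omega) hjk hk, h1 i j hi hij (by omega)⟩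

theorem Btw.symm' {x y z : ℕ} (h : Btw x y z) : Btw z y x := by
  rcases h with h | h
  · exact Or.inr ⟨h.1, h.2⟩
  · exact Or.inl ⟨h.1, h.2⟩

end Pool.Agent.Helper36.CL
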