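import Pool.Agent.Helper36.CL.Short

/-!
# Clustered lengths: the statement for natural numbers
-/

set_option autoImplicit false

namespace Pool.Agent.Helper36.CL

open Finset

variable {G : SimpleGraph ℕ} {n : ℕ} {K : Finset (ℕ × ℕ)}

theorem q1_nat (hG : Ham G n) (hK : Chords G n K) (A q : ℕ) (hA : 1 ≤ A)
    (hq : 500000000 * A ^ 6 ≤ q) (hn1 : q * q ≤ n) (hn2 : n < (q + 1) * (q + 1))
    (hcard : n ≤ A * K.card) :
    ∃ (x : ℕ) (S : Finset ℕ), (∀ s ∈ S, x ≤ s ∧ s ≤ x + 28 * A * q ∧ HasF G s) ∧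
      q ≤ 500000000 * A ^ 6 * S.card := by
  classical
  have hA1 : 1 ≤ A ^ 2 := Nat.one_le_pow _ _ hA
  have hA26 : A ^ 2 ≤ A ^ 6 := Nat.pow_le_pow_right hA (by norm_num)
  set E := 216 * A ^ 2 with hE
  have hE1 : 1 ≤ E := by omega
  have hAE : 10000 * A ^ 2 * E ^ 2 = 466560000 * A ^ 6 := by rw [hE]; ring
  set Ks := K.filter (fun e => e.2 < e.1 + q / E) with hKs
  set Km := K.filter (fun e => e.1 + q / E ≤ e.2 ∧ e.2 < e.1 + 14 * A * q) with hKm
  set Kl := K.filter (fun e => e.1 + 14 * A * q ≤ e.2) with hKl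
  have hcov : K.card ≤ Ks.card + Km.card + Kl.card := by
    have hsub : K ⊆ (Ks ∪ Km) ∪ Kl := by
      intro e he
      simp only [hKs, hKm, hKl, Finset.mem_union, Finset.mem_filter]
      by_cases h1 : e.2 < e.1 + q / E
      · exact Or.inl (Or.inl ⟨he, h1⟩)
      · by_cases h2 : e.2 < e.1 + 14 * A * q
        · exact Or.inl (Or.inr ⟨he, by omega, h2⟩)
        · exact Or.inr ⟨he, by omega⟩
    refine (Finset.card_le_card hsub).trans ((Finset.card_union_le _ _).trans ?_)
    exact Nat.add_le_add_right (Finset.card_union_le _ _) _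
  have hone : K.card ≤ 3 * Ks.card ∨ K.card ≤ 3 * Km.card ∨ K.card ≤ 3 * Kl.card := by omega
  have h28 : 2 * q ≤ 28 * A * q := by
    have : 2 ≤ 28 * A := by omega
    exact Nat.mul_le_mul_right _ this
  rcases hone with h | h | h
  · have hc : n ≤ 3 * A * Ks.card := by
      calc n ≤ A * K.card := hcard
        _ ≤ A * (3 * Ks.card) := Nat.mul_le_mul_left _ h
        _ = 3 * A * Ks.card := by ring
    obtain ⟨x, S, hS, hSc⟩ := q1_short hG (hK.filter _) A q hA (by omega) hn1 hn2 hc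
      (fun e he => (Finset.mem_filter.mp he).2)
    refine ⟨x, S, fun s hs => ?_, ?_⟩
    · have := hS s hs
      exact ⟨this.1, by omega, this.2.2⟩
    · refine hSc.trans (Nat.mul_le_mul_right _ (by omega))
  · have hc : n ≤ 3 * A * Km.card := by
      calc n ≤ A * K.card := hcard
        _ ≤ A * (3 * Km.card) := Nat.mul_le_mul_left _ h
        _ = 3 * A * Km.card := by ring
    obtain ⟨x, S, hS, hSc⟩ := q1_med hG (hK.filter _) A E q hA hE1 (by omega) hn1 hn2 hc
      (fun e he => (Finset.mem_filter.mp he).2.1) (fun e he => (Finset.mem_filter.mp he).2.2)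
    refine ⟨x, S, fun s hs => ?_, ?_⟩
    · have := hS s hs
      exact ⟨this.1, by omega, this.2.2⟩
    · refine hSc.trans (Nat.mul_le_mul_right _ (by omega))
  · have hc : n ≤ 3 * A * Kl.card := by
      calc n ≤ A * K.card := hcard
        _ ≤ A * (3 * Kl.card) := Nat.mul_le_mul_left _ h
        _ = 3 * A * Kl.card := by ring
    obtain ⟨x, S, hS, hSc⟩ := q1_long hG (hK.filter _) A q hA (by omega) hn1 hn2 hc
      (fun e he => (Finset.mem_filter.mp he).2)
    exact ⟨x, S, hS, hSc.trans (Nat.mul_le_mul_right _ (by omega))⟩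

end Pool.Agent.Helper36.CL
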