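import Pool.Agent.Helper36.CL.CaseB

/-!
# Well separated lengths from long chords
-/

set_option autoImplicit false

namespace Pool.Agent.Helper36.CL

open Finset

variable {ι : Type*} {G : SimpleGraph ℕ} {n m : ℕ} {φ : ℕ → ℕ} {f : ι → Gad} {F M : Finset ι}

theorem Gad.Dis.symm' {g h : Gad} (hd : g.Dis h) : h.Dis g := by
  unfold Gad.Dis at *
  omega

/-- The two chords of a gadget in position order: crossing or nested. -/
theorem PosGad.types {g : Gad} {p p' q q' : ℕ} (hP : PosGad φ g p p' q q') :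
    ((g.ch (φ p) (φ q) ∨ g.ch (φ q) (φ p)) ∧ (g.ch (φ p') (φ q') ∨ g.ch (φ q') (φ p'))) ∨
    ((g.ch (φ p) (φ q') ∨ g.ch (φ q') (φ p)) ∧ (g.ch (φ p') (φ q) ∨ g.ch (φ q) (φ p'))) := by
  obtain ⟨_, _, _, ⟨r1, r2⟩ | ⟨r1, r2⟩⟩ := hP
  · rcases r1.ends with ⟨e1, e2⟩ | ⟨e1, e2⟩ <;> rcases r2.ends with ⟨e3, e4⟩ | ⟨e3, e4⟩ <;>
      rw [e1, e2, e3, e4] <;> unfold Gad.ch <;> cases g.tw <;> simp
  · rcases r1.ends with ⟨e1, e2⟩ | ⟨e1, e2⟩ <;> rcases r2.ends with ⟨e3, e4⟩ | ⟨e3, e4⟩ <;>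
      rw [e1, e2, e3, e4] <;> unfold Gad.ch <;> cases g.tw <;> simp

theorem Run.disj {p p' x x' r r' y y' : ℕ} (h1 : Run φ p p' x x') (h2 : Run φ r r' y y')
    (h : x' < y ∨ y' < x) : p' < r ∨ r' < p := by
  by_contra hcon
  have a1 := h1.1
  have a2 := h2.1
  have b1 := h1.le_map (i := max p r) (by omega) (by omega)
  have b2 := h2.le_map (i := max p r) (by omega) (by omega)
  omega

/-- Nonsingular subfamilies of every intermediate length. -/
theorem heavy [DecidableEq ι] (hG : Ham G n) (hF : Fam G n f M) (hN : Nons f M) (w : ℕ)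
    (hw : 1 ≤ w) (hs : ∀ i ∈ M, 3 ≤ (f i).s ∧ (f i).s ≤ 2 * w) :
    ∃ S : Finset ℕ, (∀ s ∈ S, HasF G s) ∧ (∀ x ∈ S, ∀ y ∈ S, x < y → x + w ≤ y) ∧
      ∑ i ∈ M, (f i).s ≤ 24 * w * S.card := by
  classical
  have hFam : ∀ T ⊆ M, Fam G n f T := fun T hT =>
    ⟨fun i hi => hF.1 i (hT hi), fun i hi j hj hij => hF.2 i (hT hi) j (hT hj) hij⟩
  set σ : Finset ι → ℕ := fun T => ∑ i ∈ T, ((f i).s - 2) with hσ
  have hσn : ∀ T ⊆ M, Nons f T → σ T ≤ n := fun T hT hNT =>
    (hasF_of_family hG (hFam T hT) hNT).1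
  have hlen : ∀ T ⊆ M, Nons f T → HasF G (n - σ T) := fun T hT hNT =>
    (hasF_of_family hG (hFam T hT) hNT).2
  have hMn := hσn M Finset.Subset.rfl hN
  -- intermediate lengths
  have hint : ∀ y, n - σ M ≤ y → y ≤ n → ∃ T ⊆ M, Nons f T ∧ y ≤ n - σ T ∧
      n - σ T ≤ y + 4 * w := by
    intro y hy1 hy2
    obtain ⟨T, hT, hmax⟩ := Finset.exists_max_image
      (M.powerset.filter (fun T => Nons f T ∧ n - σ T ≤ y)) (fun T => n - σ T)
      ⟨M, Finset.mem_filter.mpr ⟨Finset.mem_powerset.mpr Finset.Subset.rfl, hN, hy1⟩⟩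
    obtain ⟨hTM, hNT, hTy⟩ := Finset.mem_filter.mp hT
    rw [Finset.mem_powerset] at hTM
    by_cases hyT : n - σ T = y
    · exact ⟨T, hTM, hNT, by omega, by omega⟩
    · have hTne : T.card ≠ 0 := by
        intro h
        rw [Finset.card_eq_zero] at h
        have : σ T = 0 := by rw [hσ, h]; simp
        omega
      obtain ⟨S, hS, hS1, hS2, hNS⟩ := drop_matrix (Amat f) T
        (fun i hi j hj => Amat_symm (hFam T hTM) hi hj) hNT T Finset.Subset.rfl (by omega)
      have hTS : T \ S ⊆ M := Finset.sdiff_subset.trans hTM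
      have h1 : σ (T \ S) + ∑ i ∈ S, ((f i).s - 2) = σ T := Finset.sum_sdiff hS
      have h2 : ∑ i ∈ S, ((f i).s - 2) ≤ S.card * (2 * w) := by
        refine (Finset.sum_le_card_nsmul _ _ (2 * w) fun i hi => ?_).trans (by rw [smul_eq_mul])
        have := hs i (hTM (hS hi))
        omega
      have h3 : S.card * 1 ≤ ∑ i ∈ S, ((f i).s - 2) := by
        rw [← smul_eq_mul]
        refine Finset.card_nsmul_le_sum _ _ 1 fun i hi => ?_
        have := hs i (hTM (hS hi))
        omega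
      have h4 : S.card * (2 * w) ≤ 2 * (2 * w) := Nat.mul_le_mul_right _ hS2
      have h5 := hσn T hTM hNT
      have h6 : y < n - σ (T \ S) := by
        by_contra hcon
        have h7 := hmax (T \ S) (Finset.mem_filter.mpr
          ⟨Finset.mem_powerset.mpr hTS, hNS, by omega⟩)
        omega
      exact ⟨T \ S, hTS, hNS, by omega, by omega⟩
  -- choose lengths near an arithmetic progression
  set u0 := n - σ M with hu0
  set Jn := σ M / (8 * w) + 1 with hJn
  have hyj : ∀ j < Jn, u0 + 8 * w * j ≤ n := by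
    intro j hj
    have h1 : j ≤ σ M / (8 * w) := by omega
    have h2 : 8 * w * j ≤ σ M := (Nat.mul_le_mul_left _ h1).trans (Nat.mul_div_le _ _)
    omega
  have hex : ∀ j, ∃ l, j < Jn → HasF G l ∧ u0 + 8 * w * j ≤ l ∧ l ≤ u0 + 8 * w * j + 4 * w := by
    intro j
    by_cases hj : j < Jn
    · obtain ⟨T, hT, hNT, h1, h2⟩ := hint (u0 + 8 * w * j) (by omega) (hyj j hj)
      exact ⟨n - σ T, fun _ => ⟨hlen T hT hNT, h1, h2⟩⟩
    · exact ⟨0, fun h => absurd h hj⟩
  choose l hl using hex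
  have hmono : ∀ i j, i < j → j < Jn → l i + 4 * w ≤ l j := by
    intro i j hij hj
    have h1 := hl i (by omega)
    have h2 := hl j hj
    have h3 : 8 * w * (i + 1) ≤ 8 * w * j := Nat.mul_le_mul_left _ hij
    have h4 : 8 * w * (i + 1) = 8 * w * i + 8 * w := by ring
    omega
  refine ⟨(Finset.range Jn).image l, ?_, ?_, ?_⟩
  · intro s hs'
    obtain ⟨j, hj, rfl⟩ := Finset.mem_image.mp hs'
    exact (hl j (Finset.mem_range.mp hj)).1
  · intro x hx y hy hxy
    obtain ⟨i, hi, rfl⟩ := Finset.mem_image.mp hx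
    obtain ⟨j, hj, rfl⟩ := Finset.mem_image.mp hy
    rw [Finset.mem_range] at hi hj
    rcases lt_trichotomy i j with h | h | h
    · have := hmono i j h hj
      omega
    · subst h; omega
    · have := hmono j i h hi
      omega
  · rw [Finset.card_image_of_injOn, Finset.card_range]
    · have h1 : ∑ i ∈ M, (f i).s ≤ 3 * σ M := by
        rw [hσ, Finset.mul_sum]
        refine Finset.sum_le_sum fun i hi => ?_
        have := (hs i hi).1
        omega
      have h2 := Nat.div_add_mod (σ M) (8 * w)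
      have h3 := Nat.mod_lt (σ M) (show 8 * w > 0 by omega)
      have h4 : 24 * w * Jn = 3 * (8 * w * (σ M / (8 * w))) + 24 * w := by rw [hJn]; ring
      omega
    · intro i hi j hj hij
      rw [Finset.mem_coe, Finset.mem_range] at hi hj
      rcases lt_trichotomy i j with h | h | h
      · have := hmono i j h hj
        omega
      · exact h
      · have := hmono j i h hi
        omega

/-- The gadgets outside a maximal nonsingular subfamily. -/
theorem light [DecidableEq ι] (hG : Ham G n) (hF : Fam G n f F) (hMF : M ⊆ F) (hN : Nons f M)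
    (hmax : ∀ M' ⊆ F, Nons f M' → M'.card ≤ M.card) (w : ℕ)
    (hw : 1 ≤ w) (hs : ∀ i ∈ F, 3 ≤ (f i).s ∧ (f i).s ≤ 2 * w) :
    ∃ S : Finset ℕ, (∀ s ∈ S, HasF G s) ∧ (∀ x ∈ S, ∀ y ∈ S, x < y → x + w ≤ y) ∧
      ∑ i ∈ F \ M, (f i).s ≤ 8 * w * S.card + 2 * w := by
  classical
  have hFM : Fam G n f M := ⟨fun i hi => hF.1 i (hMF hi), fun i hi j hj hij =>
    hF.2 i (hMF hi) j (hMF hj) hij⟩
  obtain ⟨m, φ, hE⟩ := exists_ext hG hFM ((nons_iff_conn hG.1 hFM).mp hN)
  have hm3 := hE.three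
  set bad : ι → Prop := fun i => ((f i).a ≤ φ 0 ∧ φ 0 ≤ (f i).a') ∨
    ((f i).b ≤ φ 0 ∧ φ 0 ≤ (f i).b') with hbad
  set R := (F \ M).filter (fun i => ¬ bad i) with hR
  have hRF : ∀ i ∈ R, i ∈ F ∧ i ∉ M ∧ ¬ bad i := by
    intro i hi
    obtain ⟨h1, h2⟩ := Finset.mem_filter.mp hi
    rw [Finset.mem_sdiff] at h1
    exact ⟨h1.1, h1.2, h2⟩
  -- the bad gadget
  have hbadsum : ∑ i ∈ (F \ M).filter bad, (f i).s ≤ 2 * w := by
    have hcard : ((F \ M).filter bad).card ≤ 1 := by
      rw [Finset.card_le_one]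
      intro i hi j hj
      by_contra hne
      obtain ⟨h1, h2⟩ := Finset.mem_filter.mp hi
      obtain ⟨h3, h4⟩ := Finset.mem_filter.mp hj
      rw [Finset.mem_sdiff] at h1 h3
      have h5 := hF.2 i h1.1 j h3.1 hne
      unfold Gad.Dis at h5
      simp only [hbad] at h2 h4
      omega
    have h1 : ∑ i ∈ (F \ M).filter bad, (f i).s ≤ ((F \ M).filter bad).card * (2 * w) := by
      refine (Finset.sum_le_card_nsmul _ _ (2 * w) fun i hi => ?_).trans (by rw [smul_eq_mul])
      exact (hs i (Finset.mem_sdiff.mp (Finset.mem_filter.mp hi).1).1).2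
    have h2 : ((F \ M).filter bad).card * (2 * w) ≤ 1 * (2 * w) := Nat.mul_le_mul_right _ hcard
    omega
  have hsplit : ∑ i ∈ F \ M, (f i).s = ∑ i ∈ (F \ M).filter bad, (f i).s + ∑ i ∈ R, (f i).s :=
    (Finset.sum_filter_add_sum_filter_not (F \ M) bad _).symm
  -- runs
  have hrunAux : ∀ i ∈ R, ∀ x x', x ≤ x' → x' < n →
      ((x = (f i).a ∧ x' = (f i).a') ∨ (x = (f i).b ∧ x' = (f i).b')) →
      ∃ p p', 0 < p ∧ p' < m ∧ Run φ p p' x x' := by
    intro i hi x x' hxx hxn hx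
    obtain ⟨h1, h2, h3⟩ := hRF i hi
    simp only [hbad] at h3
    have hdis : ∀ j ∈ M, (f j).Dis (f i) := fun j hj =>
      hF.2 j (hMF hj) i h1 (fun h => h2 (h ▸ hj))
    refine exists_run hE x x' hxx hxn ?_ ?_ ?_
    · intro y hy1 hy2
      refine ⟨by omega, fun j hj => ?_⟩
      have h4 := hdis j hj
      unfold Gad.Dis at h4
      omega
    · rintro y hy1 hy2 ⟨j, hj, h5⟩
      have h4 := hdis j hj
      unfold Gad.Dis at h4
      omega
    · intro y hy1 hy2 hy3
      omega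
  have hok : ∀ i ∈ R, (f i).a < (f i).a' ∧ (f i).a' < (f i).b ∧ (f i).b < (f i).b' ∧
      (f i).b' < n := by
    intro i hi
    have h1 := hF.1 i (hRF i hi).1
    refine ⟨h1.1, h1.2.1, h1.2.2.1, ?_⟩
    rcases Bool.eq_false_or_eq_true (f i).tw with h | h
    · exact (h1.2.2.2 (f i).a' (f i).b' (Or.inl ⟨h, Or.inr ⟨rfl, rfl⟩⟩)).2.1
    · exact (h1.2.2.2 (f i).a (f i).b' (Or.inr ⟨h, Or.inl ⟨rfl, rfl⟩⟩)).2.1
  have hposex : ∀ i, ∃ p p' q q', i ∈ R → (PosGad φ (f i) p p' q q' ∧ 0 < p ∧ q' < m ∧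
      (p' - p) + (q' - q) = (f i).s) := by
    intro i
    by_cases hi : i ∈ R
    · have h1 := hok i hi
      obtain ⟨p, p', hp0, hp'm, hp⟩ := hrunAux i hi (f i).a (f i).a' (by omega) (by omega)
        (Or.inl ⟨rfl, rfl⟩)
      obtain ⟨q, q', hq0, hq'm, hq⟩ := hrunAux i hi (f i).b (f i).b' (by omega) (by omega)
        (Or.inr ⟨rfl, rfl⟩)
      have h2 := hp.2.2.1
      have h3 := hq.2.2.1
      have h4 := hp.1
      have h5 := hq.1
      rcases hp.disj hq (Or.inl (by omega)) with h | h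
      · refine ⟨p, p', q, q', fun _ => ⟨⟨by omega, h, by omega, Or.inl ⟨hp, hq⟩⟩, hp0, hq'm, ?_⟩⟩
        unfold Gad.s; omega
      · refine ⟨q, q', p, p', fun _ => ⟨⟨by omega, h, by omega, Or.inr ⟨hq, hp⟩⟩, hq0, hp'm, ?_⟩⟩
        unfold Gad.s; omega
    · exact ⟨0, 0, 0, 0, fun h => absurd h hi⟩
  choose p p' q q' hpos using hposex
  have hord : ∀ i ∈ R, 0 < p i ∧ p i < p' i ∧ p' i < q i ∧ q i < q' i ∧ q' i < m := by
    intro i hi
    obtain ⟨⟨h1, h2, h3, _⟩, h5, h6, _⟩ := hpos i hi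
    exact ⟨h5, h1, h2, h3, h6⟩
  -- maximality
  have hmax1 : ∀ i ∈ R, ¬ Conn n f (insert i M) := by
    intro i hi hC
    obtain ⟨h1, h2, _⟩ := hRF i hi
    have hsub : insert i M ⊆ F := Finset.insert_subset h1 hMF
    have hFi : Fam G n f (insert i M) := ⟨fun j hj => hF.1 j (hsub hj),
      fun j hj k hk hjk => hF.2 j (hsub hj) k (hsub hk) hjk⟩
    have h3 := hmax _ hsub ((nons_iff_conn hG.1 hFi).mpr hC)
    rw [Finset.card_insert_of_notMem h2] at h3
    omega
  have hmax2 : ∀ i ∈ R, ∀ j ∈ R, i ≠ j → ¬ Conn n f (insert i (insert j M)) := by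
    intro i hi j hj hij hC
    obtain ⟨h1, h2, _⟩ := hRF i hi
    obtain ⟨h1', h2', _⟩ := hRF j hj
    have hsub : insert i (insert j M) ⊆ F :=
      Finset.insert_subset h1 (Finset.insert_subset h1' hMF)
    have hFi : Fam G n f (insert i (insert j M)) := ⟨fun j hj => hF.1 j (hsub hj),
      fun j hj k hk hjk => hF.2 j (hsub hj) k (hsub hk) hjk⟩
    have h3 := hmax _ hsub ((nons_iff_conn hG.1 hFi).mpr hC)
    rw [Finset.card_insert_of_notMem, Finset.card_insert_of_notMem h2'] at h3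
    · omega
    · intro h
      rcases Finset.mem_insert.mp h with h | h
      · exact hij h
      · exact h2 h
  have hchHr : ∀ i, ∀ T : Finset ι, i ∈ T → ∀ x y, ((f i).ch x y ∨ (f i).ch y x) →
      Hr n f T x y := by
    rintro i T hi x y (h | h)
    · exact Or.inl (Or.inr (Or.inr ⟨i, hi, h⟩))
    · exact Or.inr (Or.inr (Or.inr ⟨i, hi, h⟩))
  have hnest : ∀ i ∈ R, ((f i).ch (φ (p i)) (φ (q' i)) ∨ (f i).ch (φ (q' i)) (φ (p i))) ∧
      ((f i).ch (φ (p' i)) (φ (q i)) ∨ (f i).ch (φ (q i)) (φ (p' i))) := by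
    intro i hi
    have h1 := hpos i hi
    rcases h1.1.types with h | h
    · exfalso
      refine hmax1 i hi (conn_add_one (f' := f) hE (fun _ _ => rfl) h1.1 h1.2.2.1 ?_ ?_)
      · exact hchHr i _ (Finset.mem_insert_self _ _) _ _ h.1
      · exact hchHr i _ (Finset.mem_insert_self _ _) _ _ h.2
    · exact h
  -- disjointness of position intervals
  have hpd : ∀ i ∈ R, ∀ j ∈ R, i ≠ j → (p' i < p j ∨ p' j < p i) ∧ (p' i < q j ∨ q' j < p i) ∧
      (q' i < p j ∨ p' j < q i) ∧ (q' i < q j ∨ q' j < q i) := by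
    intro i hi j hj hij
    have hd := hF.2 i (hRF i hi).1 j (hRF j hj).1 hij
    unfold Gad.Dis at hd
    obtain ⟨⟨_, _, _, hri⟩, _⟩ := hpos i hi
    obtain ⟨⟨_, _, _, hrj⟩, _⟩ := hpos j hj
    rcases hri with ⟨r1, r2⟩ | ⟨r1, r2⟩ <;> rcases hrj with ⟨t1, t2⟩ | ⟨t1, t2⟩
    · exact ⟨r1.disj t1 hd.1, r1.disj t2 hd.2.1, r2.disj t1 hd.2.2.1, r2.disj t2 hd.2.2.2⟩
    · exact ⟨r1.disj t1 hd.2.1, r1.disj t2 hd.1, r2.disj t1 hd.2.2.2, r2.disj t2 hd.2.2.1⟩
    · exact ⟨r1.disj t1 hd.2.2.1, r1.disj t2 hd.2.2.2, r2.disj t1 hd.1, r2.disj t2 hd.2.1⟩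
    · exact ⟨r1.disj t1 hd.2.2.2, r1.disj t2 hd.2.2.1, r2.disj t1 hd.2.1, r2.disj t2 hd.1⟩
  have hnoint : ∀ i ∈ R, ∀ j ∈ R, ¬ (p i < p j ∧ p j < q i ∧ q i < q j) := by
    rintro i hi j hj ⟨h1, h2, h3⟩
    have hij : i ≠ j := fun h => by rw [h] at h1; omega
    have o1 := hord i hi
    have o2 := hord j hj
    have d := hpd i hi j hj hij
    have n1 := hnest i hi
    have n2 := hnest j hj
    have mi : i ∈ insert i (insert j M) := Finset.mem_insert_self _ _
    have mj : j ∈ insert i (insert j M) := Finset.mem_insert_of_mem (Finset.mem_insert_self _ _)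
    refine hmax2 i hi j hj hij (conn_add_two (f' := f) hE (fun _ _ => rfl) (hpos i hi).1
      (hpos j hj).1 (by omega) (by omega) (by omega) o2.2.2.2.2 ?_ ?_ ?_ ?_)
    · exact hchHr i _ mi _ _ n1.1
    · exact hchHr i _ mi _ _ n1.2
    · exact hchHr j _ mj _ _ n2.1
    · exact hchHr j _ mj _ _ n2.2
  -- the laminar families
  set Pf : ι → Finset ι := fun i => R.filter (fun j => q' j ≤ q' i) with hPf
  set v : ι → ℕ := fun i => ((Pf i).biUnion fun j => Finset.Ioo (p j) (q' j)).card with hv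
  have hPR : ∀ i, ∀ j ∈ Pf i, j ∈ R ∧ q' j ≤ q' i := fun i j hj => Finset.mem_filter.mp hj
  have hvm : ∀ i, v i ≤ m := by
    intro i
    refine (Finset.card_le_card (t := Finset.range m) ?_).trans (by rw [Finset.card_range])
    intro x hx
    obtain ⟨j, hj, hx⟩ := Finset.mem_biUnion.mp hx
    have h1 := hord j (hPR i j hj).1
    rw [Finset.mem_Ioo] at hx
    rw [Finset.mem_range]
    omega
  have hcyc : ∀ i, HasF G (m - v i) := by
    intro i
    set Q : Finset (ℕ × ℕ) := (Pf i).image (fun j => (p j, q' j)) with hQ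
    have h1 : (Q.biUnion fun e => Finset.Ioo e.1 e.2) =
        (Pf i).biUnion fun j => Finset.Ioo (p j) (q' j) := by
      rw [hQ, Finset.image_biUnion]
    have h2 := lam (ham_posGraph hG hFM hE) Q (by
      intro e he
      obtain ⟨j, hj, rfl⟩ := Finset.mem_image.mp he
      have hjR := (hPR i j hj).1
      have h3 := hord j hjR
      have h4 := (hnest j hjR).1
      have hok4 := (hF.1 j (hRF j hjR).1).2.2.2
      refine ⟨by simp only; omega, by simp only; omega, fun h => by simp only at h; omega,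
        by simp only; omega, by simp only; omega, ?_⟩
      rcases h4 with h4 | h4
      · exact (hok4 _ _ h4).2.2.2
      · exact (hok4 _ _ h4).2.2.2.symm) (by
      intro e he e2 he2 hne
      obtain ⟨j, hj, rfl⟩ := Finset.mem_image.mp he
      obtain ⟨k, hk, rfl⟩ := Finset.mem_image.mp he2
      have hjk : j ≠ k := fun h => hne (by rw [h])
      have hjR := (hPR i j hj).1
      have hkR := (hPR i k hk).1
      have o1 := hord j hjR
      have o2 := hord k hkR
      have d := hpd j hjR k hkR hjk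
      have ni := hnoint j hjR k hkR
      simp only
      constructor
      · omega
      · rintro ⟨g1, g2, g3⟩
        exact ni ⟨g1, by omega, by omega⟩)
    rw [h1] at h2
    exact hasF_of_posGraph hE h2
  have hvlt : ∀ i ∈ R, ∀ j ∈ R, q' i < q' j → v i + (f j).s ≤ v j := by
    intro i hi j hj hij
    have hij' : i ≠ j := fun h => by rw [h] at hij; omega
    have oj := hord j hj
    set strip := Finset.Ioc (p j) (p' j) ∪ Finset.Ico (q j) (q' j) with hstrip
    have hstripcard : strip.card = (f j).s := by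
      rw [hstrip, Finset.card_union_of_disjoint, Nat.card_Ioc, Nat.card_Ico]
      · exact (hpos j hj).2.2.2
      · rw [Finset.disjoint_left]
        intro x hx hy
        rw [Finset.mem_Ioc] at hx
        rw [Finset.mem_Ico] at hy
        omega
    have hdisj : Disjoint ((Pf i).biUnion fun k => Finset.Ioo (p k) (q' k)) strip := by
      rw [Finset.disjoint_left]
      intro x hx hy
      obtain ⟨k, hk, hx⟩ := Finset.mem_biUnion.mp hx
      obtain ⟨hkR, hki⟩ := hPR i k hk
      rw [Finset.mem_Ioo] at hx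
      have hkj : k ≠ j := fun h => by rw [h] at hki; omega
      have ok := hord k hkR
      have d := hpd k hkR j hj hkj
      have ni := hnoint k hkR j hj
      rw [hstrip, Finset.mem_union, Finset.mem_Ioc, Finset.mem_Ico] at hy
      rcases hy with hy | hy
      · exact ni ⟨by omega, by omega, by omega⟩
      · omega
    have hsub : ((Pf i).biUnion fun k => Finset.Ioo (p k) (q' k)) ∪ strip ⊆
        (Pf j).biUnion fun k => Finset.Ioo (p k) (q' k) := by
      intro x hx
      rcases Finset.mem_union.mp hx with hx | hx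
      · obtain ⟨k, hk, hx⟩ := Finset.mem_biUnion.mp hx
        obtain ⟨hkR, hki⟩ := hPR i k hk
        exact Finset.mem_biUnion.mpr ⟨k, Finset.mem_filter.mpr ⟨hkR, by omega⟩, hx⟩
      · refine Finset.mem_biUnion.mpr ⟨j, Finset.mem_filter.mpr ⟨hj, le_rfl⟩, ?_⟩
        rw [hstrip, Finset.mem_union, Finset.mem_Ioc, Finset.mem_Ico] at hx
        rw [Finset.mem_Ioo]
        omega
    have h1 := Finset.card_le_card hsub
    rw [Finset.card_union_of_disjoint hdisj, hstripcard] at h1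
    exact h1
  obtain ⟨S, hSu, hSsep, hSsum⟩ := sel R (fun i => m - v i) (fun i => (f i).s) (2 * w)
    (by omega) (fun i hi => (hs i (hRF i hi).1).2) (by
    intro i hi j hj hij
    have d := hpd i hi j hj hij
    have o1 := hord i hi
    have o2 := hord j hj
    have b1 := hvm i
    have b2 := hvm j
    rcases Nat.lt_or_ge (q' i) (q' j) with h | h
    · have := hvlt i hi j hj h
      right
      omega
    · have := hvlt j hj i hi (by omega)
      left
      omega)
  refine ⟨S, fun x hx => ?_, fun x hx y hy hxy => ?_, ?_⟩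
  · obtain ⟨i, _, rfl⟩ := Finset.mem_image.mp (hSu hx)
    exact hcyc i
  · have := hSsep x hx y hy hxy
    omega
  · rw [hsplit]
    have h1 : 4 * (2 * w) * S.card = 8 * w * S.card := by ring
    omega

end Pool.Agent.Helper36.CL
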