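import Pool.Agent.Helper36.CL.Defs

/-!
# Relative positions: runs, arcs and adding gadgets to a connected family
-/

set_option autoImplicit false

namespace Pool.Agent.Helper36.CL

open Finset

variable {ι : Type*} {G : SimpleGraph ℕ} {n m : ℕ} {φ : ℕ → ℕ} {f f' : ι → Gad} {I J : Finset ι}

theorem Hr.symm' {x y : ℕ} (h : Hr n f I x y) : Hr n f I y x := Or.symm h

/-- the position of a vertex -/
noncomputable def pos (m : ℕ) (φ : ℕ → ℕ) (x : ℕ) : ℕ := sInf {i | i < m ∧ φ i = x}

theorem pos_spec (hE : Ext n f I m φ) {x : ℕ} (hx : Used n f I x) :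
    pos m φ x < m ∧ φ (pos m φ x) = x := by
  obtain ⟨i, hi, hφ⟩ := hE.surj x hx
  exact Nat.sInf_mem (s := {i | i < m ∧ φ i = x}) ⟨i, hi, hφ⟩

theorem pos_eq (hE : Ext n f I m φ) {i : ℕ} (hi : i < m) : pos m φ (φ i) = i := by
  have h := pos_spec hE (hE.used i hi)
  exact hE.inj _ h.1 _ hi h.2

theorem exists_run (hE : Ext n f I m φ) (x x' : ℕ) (hxx : x ≤ x') (hx' : x' < n)
    (hu : ∀ y, x ≤ y → y ≤ x' → Used n f I y) (hc : ∀ y, x ≤ y → y < x' → ¬ Cut f I y)
    (h0 : ∀ y, x ≤ y → y ≤ x' → φ 0 ≠ y) :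
    ∃ p p', 0 < p ∧ p' < m ∧ Run φ p p' x x' := by
  induction x', hxx using Nat.le_induction with
  | base =>
    have h := pos_spec hE (hu x le_rfl le_rfl)
    refine ⟨pos m φ x, pos m φ x, ?_, h.1, le_rfl, le_rfl, by simp, Or.inl ?_⟩
    · rcases Nat.eq_zero_or_pos (pos m φ x) with h1 | h1
      · rw [h1] at h
        exact absurd h.2 (h0 x le_rfl le_rfl)
      · exact h1
    · intro k hk
      have : k = 0 := by omega
      subst this
      simpa using h.2
  | succ x' hxx ih =>
    obtain ⟨p, p', hp0, hp'm, hpp, _, hlen, hdir⟩ := ih (by omega)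
      (fun y h1 h2 => hu y h1 (by omega)) (fun y h1 h2 => hc y h1 (by omega))
      (fun y h1 h2 => h0 y h1 (by omega))
    have hr : Hr n f I x' (x' + 1) :=
      Or.inl (Or.inl ⟨rfl, hx', hc x' hxx (Nat.lt_succ_self _)⟩)
    have hpm : p < m := by omega
    rcases hE.edges x' (x' + 1) (hu x' hxx (by omega)) hr with ⟨i, him, h | h⟩ | h | h
    · -- phi i = x', phi (i+1) = x'+1
      rcases hdir with hd | hd
      · have h1 : φ p' = x' := by
          have := hd (p' - p) le_rfl
          rw [show p + (p' - p) = p' by omega] at this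
          rw [this]; omega
        have h2 : i = p' := hE.inj i (by omega) p' hp'm (by rw [h.1, h1])
        subst h2
        refine ⟨p, i + 1, hp0, him, by omega, by omega, by omega, Or.inl ?_⟩
        intro k hk
        rcases Nat.lt_or_ge k (i + 1 - p) with h3 | h3
        · exact hd k (by omega)
        · have : k = i + 1 - p := by omega
          rw [this, show p + (i + 1 - p) = i + 1 by omega, h.2]
          omega
      · have h1 : φ p = x' := by simpa using hd 0 (by omega)
        have h2 : i = p := hE.inj i (by omega) p hpm (by rw [h.1, h1])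
        subst h2
        have h3 : i = p' := by
          by_contra h4
          have h5 := hd 1 (by omega)
          rw [h.2] at h5
          omega
        subst h3
        refine ⟨i, i + 1, hp0, him, by omega, by omega, by omega, Or.inl ?_⟩
        intro k hk
        have hxx' : x = x' := by omega
        subst hxx'
        rcases Nat.lt_or_ge k 1 with h3 | h3
        · have : k = 0 := by omega
          subst this
          simpa using h.1
        · have : k = 1 := by omega
          subst this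
          exact h.2
    · -- phi i = x'+1, phi (i+1) = x'
      have hi0 : 0 < i := by
        rcases Nat.eq_zero_or_pos i with h1 | h1
        · rw [h1] at h
          exact absurd h.1 (h0 _ (by omega) le_rfl)
        · exact h1
      rcases hdir with hd | hd
      · have h1 : φ p' = x' := by
          have := hd (p' - p) le_rfl
          rw [show p + (p' - p) = p' by omega] at this
          rw [this]; omega
        have h2 : i + 1 = p' := hE.inj (i + 1) him p' hp'm (by rw [h.2, h1])
        subst h2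
        have h3 : p = i + 1 := by
          by_contra h4
          have h5 := hd (i - p) (by omega)
          rw [show p + (i - p) = i by omega, h.1] at h5
          omega
        subst h3
        refine ⟨i, i + 1, hi0, him, by omega, by omega, by omega, Or.inr ?_⟩
        intro k hk
        have hxx' : x = x' := by omega
        subst hxx'
        rcases Nat.lt_or_ge k 1 with h3 | h3
        · have : k = 0 := by omega
          subst this
          simpa using h.1
        · have : k = 1 := by omega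
          subst this
          simpa using h.2
      · have h1 : φ p = x' := by simpa using hd 0 (by omega)
        have h2 : i + 1 = p := hE.inj (i + 1) (by omega) p hpm (by rw [h.2, h1])
        subst h2
        refine ⟨i, p', hi0, hp'm, by omega, by omega, by omega, Or.inr ?_⟩
        intro k hk
        rcases Nat.eq_zero_or_pos k with h3 | h3
        · subst h3
          simpa using h.1
        · have h4 := hd (k - 1) (by omega)
          rw [show i + 1 + (k - 1) = i + k by omega] at h4
          rw [h4]; omega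
    · exact absurd h.2.symm (h0 _ (by omega) le_rfl)
    · exact absurd h.1.symm (h0 _ hxx (by omega))

namespace Run

variable {p p' x x' : ℕ}

theorem sub (h : Run φ p p' x x') {y y' : ℕ} (hy : x ≤ y) (hyy : y ≤ y') (hy' : y' ≤ x') :
    ∃ q q', p ≤ q ∧ q' ≤ p' ∧ Run φ q q' y y' := by
  obtain ⟨h1, h2, h3, h4 | h4⟩ := h
  · refine ⟨p + (y - x), p + (y' - x), by omega, by omega, by omega, hyy, by omega, Or.inl ?_⟩
    intro k hk
    have := h4 (y - x + k) (by omega)
    rw [← Nat.add_assoc] at this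
    rw [this]; omega
  · refine ⟨p + (x' - y'), p + (x' - y), by omega, by omega, by omega, hyy, by omega, Or.inr ?_⟩
    intro k hk
    have := h4 (x' - y' + k) (by omega)
    rw [← Nat.add_assoc] at this
    rw [this]; omega

theorem le_map (h : Run φ p p' x x') {i : ℕ} (h1 : p ≤ i) (h2 : i ≤ p') :
    x ≤ φ i ∧ φ i ≤ x' := by
  obtain ⟨h3, h4, h5, h6 | h6⟩ := h
  · have := h6 (i - p) (by omega)
    rw [show p + (i - p) = i by omega] at this
    omega
  · have := h6 (i - p) (by omega)
    rw [show p + (i - p) = i by omega] at this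
    omega

theorem ends (h : Run φ p p' x x') :
    (φ p = x ∧ φ p' = x') ∨ (φ p = x' ∧ φ p' = x) := by
  obtain ⟨h3, h4, h5, h6 | h6⟩ := h
  · left
    have h7 := h6 0 (by omega)
    have h8 := h6 (p' - p) le_rfl
    rw [show p + (p' - p) = p' by omega] at h8
    simp only [Nat.add_zero] at h7
    omega
  · right
    have h7 := h6 0 (by omega)
    have h8 := h6 (p' - p) le_rfl
    rw [show p + (p' - p) = p' by omega] at h8
    simp only [Nat.add_zero] at h7
    omega

theorem exists_pos (h : Run φ p p' x x') {y : ℕ} (h1 : x ≤ y) (h2 : y ≤ x') :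
    ∃ i, p ≤ i ∧ i ≤ p' ∧ φ i = y := by
  obtain ⟨h3, h4, h5, h6 | h6⟩ := h
  · refine ⟨p + (y - x), by omega, by omega, ?_⟩
    rw [h6 _ (by omega)]; omega
  · refine ⟨p + (x' - y), by omega, by omega, ?_⟩
    rw [h6 _ (by omega)]; omega

theorem mem_pos (h : Run φ p p' x x') (hE : Ext n f I m φ) (hp : p' < m) {i : ℕ} (hi : i < m)
    (h1 : x ≤ φ i) (h2 : φ i ≤ x') : p ≤ i ∧ i ≤ p' := by
  obtain ⟨j, hj1, hj2, hj3⟩ := h.exists_pos h1 h2
  have : j = i := hE.inj j (by omega) i hi hj3
  omega

theorem strict (h : Run φ p p' x x') {i : ℕ} (h1 : p < i) (h2 : i < p') :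
    x < φ i ∧ φ i < x' := by
  obtain ⟨h3, h4, h5, h6 | h6⟩ := h
  · have := h6 (i - p) (by omega)
    rw [show p + (i - p) = i by omega] at this
    omega
  · have := h6 (i - p) (by omega)
    rw [show p + (i - p) = i by omega] at this
    omega

end Run

/-- After adding gadgets, an edge of the old cycle survives or has both ends in one new hull. -/
theorem hr_extend (hff : ∀ i ∈ I, f' i = f i) (hIJ : I ⊆ J) {x y : ℕ} (h : Hr n f I x y) :
    Hr n f' J x y ∨ ∃ c ∈ J, c ∉ I ∧
      (((f' c).a ≤ x ∧ x ≤ (f' c).a' ∧ (f' c).a ≤ y ∧ y ≤ (f' c).a') ∨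
       ((f' c).b ≤ x ∧ x ≤ (f' c).b' ∧ (f' c).b ≤ y ∧ y ≤ (f' c).b')) := by
  have key : ∀ x y, Edge n f I x y → Edge n f' J x y ∨ ∃ c ∈ J, c ∉ I ∧
      (((f' c).a ≤ x ∧ x ≤ (f' c).a' ∧ (f' c).a ≤ y ∧ y ≤ (f' c).a') ∨
       ((f' c).b ≤ x ∧ x ≤ (f' c).b' ∧ (f' c).b ≤ y ∧ y ≤ (f' c).b')) := by
    rintro x y (⟨h1, h2, h3⟩ | h | ⟨i, hi, h⟩)
    · by_cases hc : Cut f' J x
      · obtain ⟨c, hcJ, hc⟩ := hc
        right
        refine ⟨c, hcJ, ?_, ?_⟩
        · intro hcI
          apply h3
          refine ⟨c, hcI, ?_⟩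
          rw [← hff c hcI]
          exact hc
        · subst h1
          rcases hc with hc | hc
          · left; omega
          · right; omega
      · exact Or.inl (Or.inl ⟨h1, h2, hc⟩)
    · exact Or.inl (Or.inr (Or.inl h))
    · refine Or.inl (Or.inr (Or.inr ⟨i, hIJ hi, ?_⟩))
      rw [hff i hi]
      exact h
  rcases h with h | h
  · rcases key x y h with h1 | h1
    · exact Or.inl (Or.inl h1)
    · exact Or.inr h1
  · rcases key y x h with h1 | ⟨c, hc, hcI, h1⟩
    · exact Or.inl (Or.inr h1)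
    · refine Or.inr ⟨c, hc, hcI, ?_⟩
      rcases h1 with h1 | h1
      · left; omega
      · right; omega

theorem used_mono (hff : ∀ i ∈ I, f' i = f i) (hIJ : I ⊆ J) {x : ℕ} (h : Used n f' J x) :
    Used n f I x := by
  refine ⟨h.1, fun i hi => ?_⟩
  have := h.2 i (hIJ hi)
  rw [hff i hi] at this
  exact this

/-- Walking along an arc of consecutive positions. -/
theorem arc_reach {R : ℕ → ℕ → Prop} (s e : ℕ)
    (h : ∀ i, s ≤ i → i < e → R (φ i) (φ (i + 1))) :
    ∀ i, s ≤ i → i ≤ e → Relation.ReflTransGen R (φ s) (φ i) := by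
  intro i hi
  induction i, hi using Nat.le_induction with
  | base => intro _; exact Relation.ReflTransGen.refl
  | succ k hk ih =>
    intro hke
    exact (ih (by omega)).tail (h k hk (by omega))

theorem rtg_symm (n : ℕ) (f : ι → Gad) (I : Finset ι) {x y : ℕ}
    (h : Relation.ReflTransGen (Hr n f I) x y) : Relation.ReflTransGen (Hr n f I) y x := by
  induction h with
  | refl => exact Relation.ReflTransGen.refl
  | tail _ h2 ih => exact Relation.ReflTransGen.head h2.symm' ih

/-- The position data of a new gadget: two runs, in one of the two orders. -/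
def PosGad (φ : ℕ → ℕ) (g : Gad) (p p' q q' : ℕ) : Prop :=
  p < p' ∧ p' < q ∧ q < q' ∧
  ((Run φ p p' g.a g.a' ∧ Run φ q q' g.b g.b') ∨ (Run φ p p' g.b g.b' ∧ Run φ q q' g.a g.a'))

theorem PosGad.not_both {g : Gad} {p p' q q' : ℕ} (hP : PosGad φ g p p' q q') (hq : q' < m)
    (hE : Ext n f I m φ) {i j : ℕ} (hi : i < m) (hj : j < m)
    (h : (g.a ≤ φ i ∧ φ i ≤ g.a' ∧ g.a ≤ φ j ∧ φ j ≤ g.a') ∨
       (g.b ≤ φ i ∧ φ i ≤ g.b' ∧ g.b ≤ φ j ∧ φ j ≤ g.b')) :
    (p ≤ i ∧ i ≤ p' ∧ p ≤ j ∧ j ≤ p') ∨ (q ≤ i ∧ i ≤ q' ∧ q ≤ j ∧ j ≤ q') := by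
  obtain ⟨hpp, hpq, hqq, ⟨r1, r2⟩ | ⟨r1, r2⟩⟩ := hP
  · rcases h with h | h
    · have e1 := r1.mem_pos hE (by omega) hi h.1 h.2.1
      have e2 := r1.mem_pos hE (by omega) hj h.2.2.1 h.2.2.2
      omega
    · have e1 := r2.mem_pos hE (by omega) hi h.1 h.2.1
      have e2 := r2.mem_pos hE (by omega) hj h.2.2.1 h.2.2.2
      omega
  · rcases h with h | h
    · have e1 := r2.mem_pos hE (by omega) hi h.1 h.2.1
      have e2 := r2.mem_pos hE (by omega) hj h.2.2.1 h.2.2.2
      omega
    · have e1 := r1.mem_pos hE (by omega) hi h.1 h.2.1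
      have e2 := r1.mem_pos hE (by omega) hj h.2.2.1 h.2.2.2
      omega

theorem PosGad.not_strict {g : Gad} {p p' q q' : ℕ} (hP : PosGad φ g p p' q q') {i : ℕ}
    (h : ¬ (g.a < φ i ∧ φ i < g.a') ∧ ¬ (g.b < φ i ∧ φ i < g.b')) :
    ¬ (p < i ∧ i < p') ∧ ¬ (q < i ∧ i < q') := by
  obtain ⟨hpp, hpq, hqq, ⟨r1, r2⟩ | ⟨r1, r2⟩⟩ := hP
  · exact ⟨fun h' => h.1 (r1.strict h'.1 h'.2), fun h' => h.2 (r2.strict h'.1 h'.2)⟩
  · exact ⟨fun h' => h.2 (r1.strict h'.1 h'.2), fun h' => h.1 (r2.strict h'.1 h'.2)⟩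

theorem hr_step_extend (hE : Ext n f I m φ) (hff : ∀ i ∈ I, f' i = f i) (hIJ : I ⊆ J) {i : ℕ}
    (him : i + 1 < m)
    (hall : ∀ c ∈ J, c ∉ I → ∃ p p' q q', PosGad φ (f' c) p p' q q' ∧ q' < m ∧
      ¬ (p ≤ i ∧ i < p') ∧ ¬ (q ≤ i ∧ i < q')) :
    Hr n f' J (φ i) (φ (i + 1)) := by
  rcases hr_extend hff hIJ (hE.step i him) with h | ⟨c, hc, hcI, h⟩
  · exact h
  · exfalso
    obtain ⟨p, p', q, q', hP, hq, h1, h2⟩ := hall c hc hcI
    have := hP.not_both hq hE (i := i) (j := i + 1) (by omega) him h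
    omega

theorem hr_wrap_extend (hE : Ext n f I m φ) (hff : ∀ i ∈ I, f' i = f i) (hIJ : I ⊆ J)
    (hall : ∀ c ∈ J, c ∉ I → ∃ p p' q q', PosGad φ (f' c) p p' q q' ∧ q' < m) :
    Hr n f' J (φ (m - 1)) (φ 0) := by
  have hm := hE.three
  rcases hr_extend hff hIJ hE.wrap with h | ⟨c, hc, hcI, h⟩
  · exact h
  · exfalso
    obtain ⟨p, p', q, q', hP, hq⟩ := hall c hc hcI
    have := hP.not_both hq hE (i := m - 1) (j := 0) (by omega) (by omega) h
    obtain ⟨hpp, hpq, hqq, _⟩ := hP
    omega

/-- Adding one gadget whose chords cross in position order keeps connectivity. -/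
theorem conn_add_one [DecidableEq ι] (hE : Ext n f I m φ) (hff : ∀ i ∈ I, f' i = f i) {c : ι}
    {p p' q q' : ℕ} (hP : PosGad φ (f' c) p p' q q') (hq : q' < m)
    (h1 : Hr n f' (insert c I) (φ p) (φ q)) (h2 : Hr n f' (insert c I) (φ p') (φ q')) :
    Conn n f' (insert c I) := by
  have hlt : p < p' ∧ p' < q ∧ q < q' := ⟨hP.1, hP.2.1, hP.2.2.1⟩
  have hIJ := Finset.subset_insert c I
  have hcases : ∀ d ∈ insert c I, d ∉ I → d = c := by
    intro d hd hdI
    rcases Finset.mem_insert.mp hd with h | h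
    · exact h
    · exact absurd h hdI
  have hstep : ∀ i, i + 1 < m → ¬ (p ≤ i ∧ i < p') → ¬ (q ≤ i ∧ i < q') →
      Hr n f' (insert c I) (φ i) (φ (i + 1)) := by
    intro i him hi1 hi2
    refine hr_step_extend hE hff hIJ him fun d hd hdI => ?_
    rw [hcases d hd hdI]
    exact ⟨p, p', q, q', hP, hq, hi1, hi2⟩
  have A0 := arc_reach (φ := φ) (R := Hr n f' (insert c I)) 0 p
    (fun i _ h => hstep i (by omega) (by omega) (by omega))
  have A1 := arc_reach (φ := φ) (R := Hr n f' (insert c I)) p' q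
    (fun i h h' => hstep i (by omega) (by omega) (by omega))
  have A2 := arc_reach (φ := φ) (R := Hr n f' (insert c I)) q' (m - 1)
    (fun i h h' => hstep i (by omega) (by omega) (by omega))
  have base : ∀ x, Used n f' (insert c I) x →
      Relation.ReflTransGen (Hr n f' (insert c I)) (φ 0) x := by
    intro x hx
    obtain ⟨i, him, hix⟩ := hE.surj x (used_mono hff hIJ hx)
    have hni := hP.not_strict (i := i) (by rw [hix]; exact hx.2 c (Finset.mem_insert_self c I))
    rw [← hix]
    have hA0p := A0 p (Nat.zero_le _) le_rfl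
    have hq0 := hA0p.tail h1
    have hp'0 := hq0.trans (rtg_symm n f' _ (A1 q (by omega) le_rfl))
    have hq'0 := hp'0.tail h2
    rcases Nat.lt_or_ge p i with h3 | h3
    · rcases Nat.lt_or_ge q i with h4 | h4
      · exact hq'0.trans (A2 i (by omega) (by omega))
      · exact hp'0.trans (A1 i (by omega) (by omega))
    · exact A0 i (Nat.zero_le _) h3
  intro x y hx hy
  exact (rtg_symm n f' _ (base x hx)).trans (base y hy)

/-- Adding two gadgets, each nested in position order, whose position intervals interlace. -/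
theorem conn_add_two [DecidableEq ι] (hE : Ext n f I m φ) (hff : ∀ i ∈ I, f' i = f i) {c d : ι}
    {p p' q q' r r' t t' : ℕ} (hP : PosGad φ (f' c) p p' q q')
    (hQ : PosGad φ (f' d) r r' t t') (hpr : p' < r) (hrq : r' < q) (hqt : q' < t) (ht : t' < m)
    (h1 : Hr n f' (insert c (insert d I)) (φ p) (φ q'))
    (h2 : Hr n f' (insert c (insert d I)) (φ p') (φ q))
    (h3 : Hr n f' (insert c (insert d I)) (φ r) (φ t'))
    (h4 : Hr n f' (insert c (insert d I)) (φ r') (φ t)) :
    Conn n f' (insert c (insert d I)) := by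
  have hlt : p < p' ∧ p' < q ∧ q < q' := ⟨hP.1, hP.2.1, hP.2.2.1⟩
  have hlt2 : r < r' ∧ r' < t ∧ t < t' := ⟨hQ.1, hQ.2.1, hQ.2.2.1⟩
  set J := insert c (insert d I) with hJ
  have hIJ : I ⊆ J := fun x hx => Finset.mem_insert_of_mem (Finset.mem_insert_of_mem hx)
  have hcJ : c ∈ J := Finset.mem_insert_self _ _
  have hdJ : d ∈ J := Finset.mem_insert_of_mem (Finset.mem_insert_self _ _)
  have hcases : ∀ e ∈ J, e ∉ I → e = c ∨ e = d := by
    intro e he heI
    rcases Finset.mem_insert.mp he with h | h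
    · exact Or.inl h
    · rcases Finset.mem_insert.mp h with h | h
      · exact Or.inr h
      · exact absurd h heI
  have hstep : ∀ i, i + 1 < m → ¬ (p ≤ i ∧ i < p') → ¬ (q ≤ i ∧ i < q') →
      ¬ (r ≤ i ∧ i < r') → ¬ (t ≤ i ∧ i < t') → Hr n f' J (φ i) (φ (i + 1)) := by
    intro i him hi1 hi2 hi3 hi4
    refine hr_step_extend hE hff hIJ him fun e he heI => ?_
    rcases hcases e he heI with h | h
    · rw [h]
      exact ⟨p, p', q, q', hP, by omega, hi1, hi2⟩
    · rw [h]
      exact ⟨r, r', t, t', hQ, ht, hi3, hi4⟩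
  have hwrap : Hr n f' J (φ (m - 1)) (φ 0) := by
    refine hr_wrap_extend hE hff hIJ fun e he heI => ?_
    rcases hcases e he heI with h | h
    · rw [h]
      exact ⟨p, p', q, q', hP, by omega⟩
    · rw [h]
      exact ⟨r, r', t, t', hQ, ht⟩
  have A0 := arc_reach (φ := φ) (R := Hr n f' J) 0 p
    (fun i _ h => hstep i (by omega) (by omega) (by omega) (by omega) (by omega))
  have A1 := arc_reach (φ := φ) (R := Hr n f' J) p' r
    (fun i h h' => hstep i (by omega) (by omega) (by omega) (by omega) (by omega))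
  have A2 := arc_reach (φ := φ) (R := Hr n f' J) r' q
    (fun i h h' => hstep i (by omega) (by omega) (by omega) (by omega) (by omega))
  have A3 := arc_reach (φ := φ) (R := Hr n f' J) q' t
    (fun i h h' => hstep i (by omega) (by omega) (by omega) (by omega) (by omega))
  have A4 := arc_reach (φ := φ) (R := Hr n f' J) t' (m - 1)
    (fun i h h' => hstep i (by omega) (by omega) (by omega) (by omega) (by omega))
  have base : ∀ x, Used n f' J x → Relation.ReflTransGen (Hr n f' J) (φ 0) x := by
    intro x hx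
    obtain ⟨i, him, hix⟩ := hE.surj x (used_mono hff hIJ hx)
    have hni := hP.not_strict (i := i) (by rw [hix]; exact hx.2 c hcJ)
    have hni2 := hQ.not_strict (i := i) (by rw [hix]; exact hx.2 d hdJ)
    rw [← hix]
    have e0 := A0 p (Nat.zero_le _) le_rfl
    have e1 := e0.tail h1
    have e2 := e1.trans (A3 t (by omega) le_rfl)
    have e3 := e2.tail h4.symm'
    have e4 := e3.trans (A2 q (by omega) le_rfl)
    have e5 := e4.tail h2.symm'
    have e6 := e5.trans (A1 r (by omega) le_rfl)
    have e7 := e6.tail h3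
    by_cases k1 : i ≤ p
    · exact A0 i (Nat.zero_le _) k1
    by_cases k2 : i ≤ r
    · exact e5.trans (A1 i (by omega) (by omega))
    by_cases k3 : i ≤ q
    · exact e3.trans (A2 i (by omega) (by omega))
    by_cases k4 : i ≤ t
    · exact e1.trans (A3 i (by omega) (by omega))
    · exact e7.trans (A4 i (by omega) (by omega))
  intro x y hx hy
  exact (rtg_symm n f' _ (base x hx)).trans (base y hy)

end Pool.Agent.Helper36.CL
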